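import Pool.Agent.Lib.MP_583455_co.Mg.G008
import Pool.Agent.Lib.MP_583455_co.X0b

section

namespace MP583455

open Classical

/-- the windows of a hot centre without region and the (closed) region of another centre are far
apart (`hC.sep`, `hC.regG`: `|c - c1| ≥ 15000000`, `rg ≤ 1000001`) -/
theorem reg_far {s : St} (hC : Core s) {c c1 z : ℤ} (h0 : Hot0 s c) (h1 : HotR s c1)
    (hz : c1 - s.rg c1 ≤ z ∧ z ≤ c1 + s.rg c1) :
    z < c - (10000000 : ℤ) - 300000 ∨ c + (10000000 : ℤ) + 300000 < z := by
  have h2 := hC.regG c1 h1.2.2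
  have hne : c ≠ c1 := by
    rintro rfl
    exact h1.2.2 h0.2.2
  rcases lt_or_gt_of_ne hne with h | h
  · have := hC.sep c c1 h0.1 h1.1 h
    omega
  · have := hC.sep c1 c h1.1 h0.1 h
    omega

/-- two regions are disjoint -/
theorem reg_disj {s : St} (hC : Core s) {c c1 z : ℤ} (h0 : HotR s c) (h1 : HotR s c1)
    (hz : InI s c z) (hz1 : InI s c1 z) : c = c1 := by
  have h2 := hC.regG c h0.2.2
  have h3 := hC.regG c1 h1.2.2
  unfold InI at hz hz1
  by_contra hne
  rcases lt_or_gt_of_ne hne with h | h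
  · have := hC.sep c c1 h0.1 h1.1 h
    omega
  · have := hC.sep c1 c h1.1 h0.1 h
    omega

/-- `rg` of a hot centre with region is positive -/
theorem rg_pos {s : St} (hC : Core s) {c : ℤ} (h : HotR s c) : 204 ≤ s.rg c ∧ s.rg c ≤ 1000001 := by
  have := hC.regG c h.2.2
  exact ⟨this.2.1, this.2.2.1⟩

/-- the safe reply of `unsafe_reply` never crosses the border of a region.
PROOF: the ends of the region are coloured, `y` is empty. For `v = y ± 1`: if exactly one of `y, v` is in the
open region then the other one is an end, hence coloured: contradiction.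
For `v = y + 2` with `Mid s.b (y+1)`: if exactly one of them is in the region, then `y+1` is
an end (or `y` resp. `v` is an end: coloured, contradiction), say `e`; it is a Bob stone by
`Mid`, so by `hC.regG` its outer neighbour is coloured - but `Mid` says both neighbours are empty. -/
theorem reply_reg {s : St} (hC : Core s) {c y v : ℤ} (h : HotR s c) (hy : s.b.col y = 0)
    (hv : s.b.col v = 0)
    (hc : v = y + 1 ∨ v = y - 1 ∨ (v = y + 2 ∧ Mid s.b (y + 1)) ∨
      (v = y - 2 ∧ Mid s.b (y - 1))) : InI s c y ↔ InI s c v := by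
  obtain ⟨_, h1, h2, e1, e2, e3, e4⟩ := hC.regG c h.2.2
  have y1 : y ≠ c + s.rg c := by rintro rfl; exact e1 hy
  have y2 : y ≠ c - s.rg c := by rintro rfl; exact e2 hy
  have v1 : v ≠ c + s.rg c := by rintro rfl; exact e1 hv
  have v2 : v ≠ c - s.rg c := by rintro rfl; exact e2 hv
  have hm : ∀ m, Mid s.b m → m ≠ c + s.rg c ∧ m ≠ c - s.rg c := by
    rintro m ⟨_, m2, m3, m4, _, _⟩
    constructor
    · rintro rfl
      rcases e3 with h5 | h5
      · rw [m2] at h5; exact absurd h5 (by decide)
      · exact h5 m4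
    · rintro rfl
      rcases e4 with h5 | h5
      · rw [m2] at h5; exact absurd h5 (by decide)
      · exact h5 m3
  unfold InI
  rcases hc with rfl | rfl | ⟨rfl, hm1⟩ | ⟨rfl, hm1⟩
  · omega
  · omega
  · have := hm _ hm1
    omega
  · have := hm _ hm1
    omega

/-- two Bob stones of the same colour which are near are equal -/
theorem bob_unique {s : St} (hC : Core s) {w w' : ℤ} (h1 : stB s.b w) (h2 : stB s.b w')
    (hc : s.b.col w = s.b.col w') (hn : Near s.b w w') : w = w' := by
  by_contra hne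
  have := (hC.fresh w w' h1 (fun h => hne h.symm) hc.symm hn).1
  rw [h2.2] at this
  exact absurd this (by decide)

end MP583455
end

section

namespace MP583455

open Classical

/-- Verification of `Good` for a reply inside the region. -/
private theorem X1_mk {s : St} (hC : Core s) {y : ℤ} {a N : ℕ} (hy : s.b.col y = 0) (ha : a ≠ 0)
    (hF : ∀ v, (s.b.put y a false).col v = 0 → ∃ κ, κ ≤ N ∧ Fr (s.b.put y a false) v κ)
    {c0 : ℤ} (h0 : HotR s c0) (h1 : InI s c0 y) {v : ℤ} {τ : Tag}
    (hv : (s.b.put y a false).col v = 0) (hvI : InI s c0 v) (hS : SafeR (s.b.put y a false) v)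
    (hn : (s.b.put y a false).col (v - 1) ≠ 0 ∨ (s.b.put y a false).col (v + 1) ≠ 0 ∨
      s.mt v ≠ 0)
    (hp : (s.b.put y a false).col c0 = 0 → SafeR (s.b.put y a false) c0 → v = c0)
    (ht : ∀ κ, TagOK s y a (some (v, κ)) τ) :
    ∃ v κ τ, κ ≤ N ∧ Good s y a (some (v, κ)) τ s.rg := by
  obtain ⟨κ, hκ, hfr⟩ := hF v hv
  have hrg := rg_pos hC h0
  have hI := h1
  unfold InI at hI
  have hfar : ∀ c, Hot0 s c → y < c - (10000000 : ℤ) - 300000 ∨ c + (10000000 : ℤ) + 300000 < y := fun c hc =>
    reg_far hC hc h0 ⟨by omega, by omega⟩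
  refine ⟨v, κ, τ, hκ, ?_⟩
  refine ⟨hy, ha, hS κ hfr, ?_, ?_, ?_, ?_, Or.inl rfl, ht κ, ?_, ?_, ?_, ?_⟩
  · intro v' κ' h
    rw [Option.some.injEq, Prod.mk.injEq] at h
    rw [← h.1, ← h.2]
    exact ⟨hv, hfr⟩
  · intro v' κ' h
    rw [Option.some.injEq, Prod.mk.injEq] at h
    rw [← h.1]
    exact hn
  · intro c hc hcy
    have : c = c0 := reg_disj hC hc h0 hcy h1
    subst this
    exact ⟨v, κ, rfl, hvI, hp⟩
  · intro c hc hcy v' κ' h hcv
    rw [Option.some.injEq, Prod.mk.injEq] at h
    rw [← h.1] at hcv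
    have : c = c0 := reg_disj hC hc h0 hcv hvI
    subst this
    exact hcy h1
  · intro c _ _
    exact Or.inr (Or.inl ⟨c0, h0, h1⟩)
  · intro h
    exact absurd h (by simp)
  · intro c hc _ hW
    exfalso
    have := hfar c hc
    unfold InW at hW
    omega
  · intro c w hc hw _ _ _ hyW _ hvis _
    exfalso
    have hf1 := hfar c hc
    have hG := hC.regG c0 h0.2.2
    have hf2 := reg_far hC hc h0 (z := c0 - s.rg c0) ⟨by omega, by omega⟩
    have hf3 := reg_far hC hc h0 (z := c0 + s.rg c0) ⟨by omega, by omega⟩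
    unfold InW at hw
    rcases hf1 with hf1 | hf1
    · -- region on the left
      exact hG.2.2.2.1 (hvis (c0 + s.rg c0) (by omega) (by omega))
    · exact hG.2.2.2.2.1 (hvis (c0 - s.rg c0) (by omega) (by omega))

/-- REGION RULE.
PROOF. Write `b1 = s.b.put y a false`, `I` the open region of `c0`.
(i) If `b1.col c0 = 0` and `SafeR b1 c0`: reply `c0`, `τ = ctr c0`.
(ii) Otherwise, if there is `v ∈ I`, `b1.col v = 0`, `SafeR b1 v`, a coloured neighbour of `v`, and
`|v - y| ≤ (200 : ℤ)`: reply `v`, `τ = loc`.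
(iii) Otherwise `b1` is safe (else `unsafe_reply` and `reply_reg` give `v` as in (ii)). Since
`EE s.b c0 ρ` has even nonzero card (`hC.regP`) and contains `y`, there is another empty cell
`z ∈ I` of `b1`; `first_empty` gives an empty `v` between `y` and `z` with a coloured neighbour, so
`v ∈ I` and `SafeR b1 v` by `safeR_free`. Reply `v`; tag: if `NearEnd c0 (s.rg c0) y` take
`nreg c0`, otherwise `far`: every cell `z` within `(200 : ℤ)` of `y` is in `I` and coloured in `b1`
(otherwise `first_empty` gives a reply as in (ii)).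
Verification of `Good`: `inreg` for `c ≠ c0` by `reg_disj`; `outreg`: `v ∈ I` of `c0`, so
not in another region (`reg_disj`), and for `c = c0`, `y ∈ I`. `kind`: second alternative.
`xb`: `y` is not in the window of a `Hot0` centre (`reg_far`).
`shield`: the end of `I` between `2c-w` and `y` is coloured (`hC.regG`), contradiction to `Vis`
(`reg_far` for the cells of the closed region). -/
theorem good_region {s : St} (hC : Core s) {y : ℤ} {a N : ℕ} (hy : s.b.col y = 0) (ha : a ≠ 0)
    (hF : ∀ v, (s.b.put y a false).col v = 0 → ∃ κ, κ ≤ N ∧ Fr (s.b.put y a false) v κ)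
    {c0 : ℤ} (h0 : HotR s c0) (h1 : InI s c0 y) :
    ∃ v κ τ, κ ≤ N ∧ Good s y a (some (v, κ)) τ s.rg := by
  have hrg := rg_pos hC h0
  have hI := h1
  unfold InI at hI
  have hby : (s.b.put y a false).col y = a := by rw [put_col, if_pos rfl]
  by_cases hA : (s.b.put y a false).col c0 = 0 ∧ SafeR (s.b.put y a false) c0
  · refine X1_mk hC hy ha hF h0 h1 hA.1 ?_ hA.2 (Or.inr (Or.inr h0.1)) (fun _ _ => rfl)
      (τ := Tag.ctr c0) (fun κ => ⟨h0, h1, κ, rfl⟩)
    unfold InI
    omega
  have hp : ∀ v : ℤ, (s.b.put y a false).col c0 = 0 → SafeR (s.b.put y a false) c0 → v = c0 :=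
    fun v g1 g2 => absurd ⟨g1, g2⟩ hA
  by_cases hB : ∃ v, InI s c0 v ∧ (s.b.put y a false).col v = 0 ∧ SafeR (s.b.put y a false) v ∧
      ((s.b.put y a false).col (v - 1) ≠ 0 ∨ (s.b.put y a false).col (v + 1) ≠ 0) ∧
      v - y ≤ (200 : ℤ) ∧ y - v ≤ (200 : ℤ)
  · obtain ⟨v, g1, g2, g3, g4, g5, g6⟩ := hB
    refine X1_mk hC hy ha hF h0 h1 g2 g1 g3 ?_ (hp v) (τ := Tag.loc)
      (fun κ => ⟨v, κ, rfl, g5, g6⟩)
    rcases g4 with g4 | g4
    · exact Or.inl g4
    · exact Or.inr (Or.inl g4)
  have hs1 : Safe (s.b.put y a false) := by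
    by_contra hu
    obtain ⟨v, g1, g2, g3, g4⟩ := unsafe_reply hC.safe hy ha hu
    apply hB
    have hvI : InI s c0 v := (reply_reg hC h0 hy g1 g4).1 h1
    refine ⟨v, hvI, ?_, g3, ?_, ?_, ?_⟩
    · rw [put_col, if_neg g2]; exact g1
    · rcases g4 with rfl | rfl | ⟨rfl, g4⟩ | ⟨rfl, g4⟩
      · left
        rw [show y + 1 - 1 = y by ring, hby]; exact ha
      · right
        rw [show y - 1 + 1 = y by ring, hby]; exact ha
      · left
        rw [show y + 2 - 1 = y + 1 by ring, put_col, if_neg (by omega)]; exact g4.1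
      · right
        rw [show y - 2 + 1 = y - 1 by ring, put_col, if_neg (by omega)]; exact g4.1
    · rcases g4 with rfl | rfl | ⟨rfl, g4⟩ | ⟨rfl, g4⟩ <;> omega
    · rcases g4 with rfl | rfl | ⟨rfl, g4⟩ | ⟨rfl, g4⟩ <;> omega
  -- first empty cell towards an empty cell `z` of the region
  have hfe : ∀ z, InI s c0 z → (s.b.put y a false).col z = 0 →
      ∃ v, (s.b.put y a false).col v = 0 ∧ InI s c0 v ∧ SafeR (s.b.put y a false) v ∧
      ((s.b.put y a false).col (v - 1) ≠ 0 ∨ (s.b.put y a false).col (v + 1) ≠ 0) ∧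
      min y z ≤ v ∧ v ≤ max y z := by
    intro z hzI hz
    obtain ⟨v, g1, g2, g3, g4, _, _⟩ := first_empty (s.b.put y a false)
      (y := y) (z := z) (by rw [hby]; exact ha) hz
    have hn : (s.b.put y a false).col (v - 1) ≠ 0 ∨ (s.b.put y a false).col (v + 1) ≠ 0 := by
      rcases lt_or_gt_of_ne g2.1 with h | h
      · left
        exact g2.2 (v - 1) (by omega) (by omega) (by omega)
      · right
        exact g2.2 (v + 1) (by omega) (by omega) (by omega)
    refine ⟨v, g1, ?_, ?_, hn, g3, g4⟩
    · unfold InI at hzI ⊢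
      omega
    · apply safeR_free hs1 g1
      rcases hn with hn | hn
      · exact Or.inl hn
      · exact Or.inr (Or.inl hn)
  have hexz : ∃ z, InI s c0 z ∧ (s.b.put y a false).col z = 0 := by
    obtain ⟨hev, hne, _⟩ := hC.regP c0 h0
    have hyE : y ∈ EE s.b c0 (s.rg c0) := by
      unfold EE
      rw [Finset.mem_filter, Finset.mem_Ioo]
      exact ⟨hI, hy⟩
    have h2 : 1 < (EE s.b c0 (s.rg c0)).card := by
      obtain ⟨k, hk⟩ := hev
      omega
    obtain ⟨z, hz, hzy⟩ := Finset.exists_mem_ne h2 y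
    unfold EE at hz
    rw [Finset.mem_filter, Finset.mem_Ioo] at hz
    refine ⟨z, hz.1, ?_⟩
    rw [put_col, if_neg hzy]
    exact hz.2
  obtain ⟨z, hzI, hz⟩ := hexz
  obtain ⟨v, g1, g2, g3, g4, _, _⟩ := hfe z hzI hz
  have hn : (s.b.put y a false).col (v - 1) ≠ 0 ∨ (s.b.put y a false).col (v + 1) ≠ 0 ∨
      s.mt v ≠ 0 := by
    rcases g4 with g4 | g4
    · exact Or.inl g4
    · exact Or.inr (Or.inl g4)
  by_cases hE : NearEnd c0 (s.rg c0) y
  · exact X1_mk hC hy ha hF h0 h1 g1 g2 g3 hn (hp v) (τ := Tag.nreg c0)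
      (fun κ => ⟨h0.1, h0.2.2, hE⟩)
  · refine X1_mk hC hy ha hF h0 h1 g1 g2 g3 hn (hp v) (τ := Tag.far) (fun κ => ?_)
    intro u hu1 hu2 hu3
    have huI : InI s c0 u := by
      unfold NearEnd at hE
      unfold InI
      omega
    obtain ⟨v', k1, k2, k3, k4, k5, k6⟩ := hfe u huI hu3
    exact hB ⟨v', k2, k1, k3, k4, by omega, by omega⟩

end MP583455
end

section

namespace MP583455

open Classical

/-- the safe reply towards `x` -/
private theorem X2_safe {s : St} (hC : Core s) {y : ℤ} {a : ℕ} (hy : s.b.col y = 0) (ha : a ≠ 0)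
    {c w : ℤ} (hd : Demand s y a c w) :
    ∃ v, (v = y + 1 ∨ v = y - 1) ∧ min (2 * c - w) y < v ∧ v < max (2 * c - w) y ∧
      SafeR (s.b.put y a false) v := by
  obtain ⟨hHot, hw, hwB, hmt, hx0, hyW, haw, hvis, hpar⟩ := hd
  have hw1 := hw.1
  have hw2 := hw.2
  have hyW' : y < c - (10000000 : ℤ) ∨ c + (10000000 : ℤ) < y := by
    by_contra hcon
    apply hyW
    constructor <;> omega
  rcases hyW' with hlt | hlt
  · -- y < x
    have hxy : y + 1 < 2 * c - w := by omega
    have hv0 : s.b.col (y + 1) = 0 := hvis (y + 1) (by omega) (by omega)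
    refine ⟨y + 1, Or.inl rfl, by omega, by omega, ?_⟩
    by_cases h1 : s.b.col (y - 1) = 0
    · refine safeR_isoR hC.safe hy ha h1 hv0 fun e he1 he2 he3 he4 => ?_
      refine hC.shield c w e hHot hw hwB hmt hx0 ?_ (he2.trans haw) ?_ ?_
      · intro hW
        have := hW.1
        omega
      · intro z hz1 hz2
        rcases lt_trichotomy z y with hz | hz | hz
        · exact he4 z (by omega) hz
        · rw [hz]; exact hy
        · exact hvis z (by omega) (by omega)
      · omega
    · exact safeR_adjR hC.safe hy ha h1 hv0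
  · -- x < y
    have hxy : 2 * c - w < y - 1 := by omega
    have hv0 : s.b.col (y - 1) = 0 := hvis (y - 1) (by omega) (by omega)
    refine ⟨y - 1, Or.inr rfl, by omega, by omega, ?_⟩
    by_cases h1 : s.b.col (y + 1) = 0
    · refine safeR_isoL hC.safe hy ha hv0 h1 fun e he1 he2 he3 he4 => ?_
      refine hC.shield c w e hHot hw hwB hmt hx0 ?_ (he2.trans haw) ?_ ?_
      · intro hW
        have := hW.2
        omega
      · intro z hz1 hz2
        rcases lt_trichotomy z y with hz | hz | hz
        · exact hvis z (by omega) (by omega)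
        · rw [hz]; exact hy
        · exact he4 z hz (by omega)
      · omega
    · exact safeR_adjL hC.safe hy ha h1 hv0

/-- a stone of the same colour demanded or copied in another window -/
private theorem X2_sep {s : St} (hC : Core s) {c c' : ℤ} (h1 : Hot0 s c) (h2 : Hot0 s c')
    (hne : c ≠ c') : c + 15000000 ≤ c' ∨ c' + 15000000 ≤ c := by
  rcases lt_or_gt_of_ne hne with h | h
  · have := hC.sep c c' h1.1 h2.1 h
    left; omega
  · have := hC.sep c' c h2.1 h1.1 h
    right; omega

/-- SHIELD RULE. Let `x = 2c - w`. `x ∈ W(c)`, `y ∉ W(c)`, `|x-y|` is even and nonzero, so `≥ 2`.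
Reply `v` = the neighbour of `y` towards `x` (it is strictly between, hence empty).
`SafeR`: say `x < y`, `v = y - 1`. If `y+1` is coloured: `safeR_adjL`. If `y + 1` is empty:
`safeR_isoL`; an `e > y` with colour `a` at even distance with only empty cells between `y` and
`e` would be visible from `x` in `s.b` (`y` is empty) at even distance, `e ∉ W(c)`,
contradiction to `hC.shield c w e`.
`tag = loc`; `kind`: third alternative (`Conn` for adjacent cells).
`outreg`: `reply_reg`. `nbr`: `y` is coloured.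
`xb`: let `c'` be `Hot0`, `y ∈ W(c')`, `w' = 2c'-y` a Bob stone of colour `a`. `w'` and `w` are near:
cells strictly between them are in `W(c)`, in `W(c')` or strictly between `x` and `y`
(`near_cover`; `y` itself is empty). So `w' = w` (`bob_unique`), `w ∈ W(c) ∩ W(c')`, `c ≠ c'` since
`y ∉ W(c)`, so `|c - c'| ≥ 15000000` (`hC.sep`). If `c < c'`: `w ≥ c' - (10000000 : ℤ)`, so
`x = 2c - w < w` and `y = 2c' - w > w`, so the coloured `w` is strictly between `x` and `y`,
contradiction to `Vis`. `c' < c` symmetric.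
`shield`: let `(c2, w2)` be another demand. As before `w` and `w2` are near
(`near_cover` with the windows of `c` and `c2`), so `w2 = w`. If `c2 = c` fine. Otherwise
`|c - c2| ≥ 15000000`, `w` in both windows. Say `c < c2`: `x < w < x2 = 2 c2 - w`. `y` sees `x` and
`x2` but not through `w`, and `y ∉ W(c)`, `y ∉ W(c2)`: `y < w` implies `x2` is not visible;
`y > w` implies `x` is not visible; contradiction. -/
theorem good_shield {s : St} (hC : Core s) {y : ℤ} {a N : ℕ} (hy : s.b.col y = 0) (ha : a ≠ 0)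
    (hF : ∀ v, (s.b.put y a false).col v = 0 → ∃ κ, κ ≤ N ∧ Fr (s.b.put y a false) v κ)
    (hno : ∀ c, HotR s c → ¬ InI s c y) {c w : ℤ} (hd : Demand s y a c w) :
    ∃ v κ, κ ≤ N ∧ Good s y a (some (v, κ)) Tag.loc s.rg := by
  obtain ⟨v, hv, hv1, hv2, hsafe⟩ := X2_safe hC hy ha hd
  obtain ⟨hHot, hw, hwB, hmt, hx0, hyW, haw, hvis, hpar⟩ := hd
  have hw1 := hw.1
  have hw2 := hw.2
  have hwc : s.b.col w ≠ 0 := hwB.1
  have hyW' : y < c - (10000000 : ℤ) ∨ c + (10000000 : ℤ) < y := by
    by_contra hcon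
    apply hyW
    constructor <;> omega
  have hvy : v ≠ y := by omega
  have hv0 : s.b.col v = 0 := hvis v hv1 hv2
  have hv0' : (s.b.put y a false).col v = 0 := by
    rw [put_col, if_neg hvy]; exact hv0
  have hya : (s.b.put y a false).col y ≠ 0 := by
    rw [put_col, if_pos rfl]; exact ha
  obtain ⟨κ, hκN, hκ⟩ := hF v hv0'
  refine ⟨v, κ, hκN, ?_⟩
  exact
    { hy := hy
      ha := ha
      safe := hsafe κ hκ
      rep := by
        intro v' κ' h
        obtain ⟨rfl, rfl⟩ := Prod.mk.inj (Option.some.inj h)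
        exact ⟨hv0', hκ⟩
      nbr := by
        intro v' κ' h
        obtain ⟨rfl, rfl⟩ := Prod.mk.inj (Option.some.inj h)
        rcases hv with hv | hv
        · left
          have : v - 1 = y := by omega
          rw [this]; exact hya
        · right; left
          have : v + 1 = y := by omega
          rw [this]; exact hya
      inreg := fun c' h1 h2 => absurd h2 (hno c' h1)
      outreg := by
        intro c' h1 h2 v' κ' h
        obtain ⟨rfl, rfl⟩ := Prod.mk.inj (Option.some.inj h)
        intro h3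
        apply h2
        refine (reply_reg hC h1 hy hv0 ?_).mpr h3
        rcases hv with hv | hv
        · exact Or.inl hv
        · exact Or.inr (Or.inl hv)
      rgs := Or.inl rfl
      tag := ⟨v, κ, rfl, by omega, by omega⟩
      kind := by
        intro c' h1 h2
        refine Or.inr (Or.inr (Or.inl ⟨v, κ, rfl, by omega, by omega, hvy.symm, ?_⟩))
        intro z hz1 hz2 hz3
        have : z = y := by omega
        rw [this]; exact hya
      fixpass := by
        intro h
        exact absurd h (by simp)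
      xb := by
        intro c' h1 h2 h3 h4 h5 h6
        exfalso
        have h31 := h3.1
        have h32 := h3.2
        have hnear : Near s.b w (2 * c' - y) := by
          refine near_cover (l1 := c - (10000000 : ℤ)) (r1 := c + (10000000 : ℤ)) (l2 := c' - (10000000 : ℤ)) (r2 := c' + (10000000 : ℤ))
            (by omega) (by omega) fun z hz1 hz2 hz3 => ?_
          by_contra hcon
          rw [not_or, not_and_or, not_and_or] at hcon
          obtain ⟨hc1, hc2⟩ := hcon
          exact hz3 (hvis z (by omega) (by omega))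
        have hww : w = 2 * c' - y := bob_unique hC hwB h4 (haw.symm.trans h5.symm) hnear
        have hne : c ≠ c' := by
          rintro rfl
          exact hyW h3
        have hsep := X2_sep hC hHot h1 hne
        exact hwc (hvis w (by omega) (by omega))
      shield := by
        intro c2 w2 h1 h2 h3 h4 h5 h6 h7 h8 h9
        have h21 := h2.1
        have h22 := h2.2
        have hyW2 : y < c2 - (10000000 : ℤ) ∨ c2 + (10000000 : ℤ) < y := by
          by_contra hcon
          apply h6
          constructor <;> omega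
        have hnear : Near s.b w w2 := by
          refine near_cover (l1 := c - (10000000 : ℤ)) (r1 := c + (10000000 : ℤ)) (l2 := c2 - (10000000 : ℤ)) (r2 := c2 + (10000000 : ℤ))
            (by omega) (by omega) fun z hz1 hz2 hz3 => ?_
          by_contra hcon
          rw [not_or, not_and_or, not_and_or] at hcon
          obtain ⟨hc1, hc2⟩ := hcon
          have hzy : z ≠ y := by
            rintro rfl
            exact hz3 hy
          by_cases hzz : min (2 * c - w) y < z ∧ z < max (2 * c - w) y
          · exact hz3 (hvis z hzz.1 hzz.2)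
          · exact hz3 (h8 z (by omega) (by omega))
        have hww : w = w2 := bob_unique hC hwB h3 (haw.symm.trans h7) hnear
        subst hww
        by_cases hcc : c = c2
        · subst hcc
          exact ⟨v, κ, rfl, hv1, hv2⟩
        · exfalso
          have hsep := X2_sep hC hHot h1 hcc
          have hwy : w ≠ y := by
            rintro rfl
            exact hwc hy
          by_cases hzz : min (2 * c - w) y < w ∧ w < max (2 * c - w) y
          · exact hwc (hvis w hzz.1 hzz.2)
          · exact hwc (h8 w (by omega) (by omega)) }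

end MP583455
end

section

namespace MP583455

open Classical

/-- KILL RULE: reply `k` with tag `kill c`.  `outreg`: `k ∈ W(c)`, `reg_far`. `shield`: by `hnd`. -/
theorem good_kill {s : St} (hC : Core s) {y : ℤ} {a N : ℕ} (hy : s.b.col y = 0) (ha : a ≠ 0)
    (hF : ∀ v, (s.b.put y a false).col v = 0 → ∃ κ, κ ≤ N ∧ Fr (s.b.put y a false) v κ)
    (hno : ∀ c, HotR s c → ¬ InI s c y) (hnd : ∀ c w, ¬ Demand s y a c w)
    {c k : ℤ} (hk : KillOK s y a c k) :
    ∃ κ, κ ≤ N ∧ Good s y a (some (k, κ)) (Tag.kill c) s.rg := by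
  obtain ⟨h0, hW, hHK, hS⟩ := hk
  obtain ⟨κ, hκ, hfr⟩ := hF k hHK.1.2.2.2.1
  refine ⟨κ, hκ, ?_⟩
  have hsome : ∀ (v : ℤ) (κ' : ℕ), (some (k, κ) : Option (ℤ × ℕ)) = some (v, κ') →
      k = v ∧ κ = κ' := by
    intro v κ' h
    simpa using h
  refine
    { hy := hy
      ha := ha
      safe := hS κ hfr
      rep := ?_
      nbr := ?_
      inreg := fun c' h1 h2 => absurd h2 (hno c' h1)
      outreg := ?_
      rgs := Or.inl rfl
      tag := ⟨h0, hW, k, κ, rfl, hHK.1⟩
      kind := fun _ _ _ => Or.inl ⟨c, rfl⟩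
      fixpass := fun h => by cases h
      xb := fun _ _ _ _ _ _ _ => Or.inr (Or.inl ⟨c, rfl⟩)
      shield := ?_ }
  · intro v κ' h
    obtain ⟨rfl, rfl⟩ := hsome v κ' h
    exact ⟨hHK.1.2.2.2.1, hfr⟩
  · intro v κ' h
    obtain ⟨rfl, rfl⟩ := hsome v κ' h
    rcases hHK.2 with h1 | h1
    · exact Or.inl h1
    · exact Or.inr (Or.inl h1)
  · intro c' h1 _ v κ' h h2
    obtain ⟨rfl, rfl⟩ := hsome v κ' h
    unfold InI at h2
    have h3 := reg_far hC h0 h1 (z := k) ⟨by omega, by omega⟩
    have h4 := hHK.1.2.1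
    have h5 := hHK.1.2.2.1
    omega
  · intro c' w h1 h2 h3 h4 h5 h6 h7 h8 h9
    exact absurd ⟨h1, h2, h3, h4, h5, h6, h7, h8, h9⟩ (hnd c' w)

end MP583455
end

section

namespace MP583455

open Classical

/-- PASS on a free fix. `kind`: fourth alternative: a killable half-cell `k` of `b1` (of a `Hot0`
centre with `y` in the window) has a coloured neighbour, `b1` is safe, so `SafeR b1 k`
(`safeR_free`), contradiction to `hnk`. -/
theorem good_fixp {s : St} (hC : Core s) {y : ℤ} {a : ℕ} (hy : s.b.col y = 0) (ha : a ≠ 0)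
    (hno : ∀ c, HotR s c → ¬ InI s c y) (hnd : ∀ c w, ¬ Demand s y a c w)
    (hnk : ∀ c k, ¬ KillOK s y a c k) (hs1 : Safe (s.b.put y a false))
    {c : ℤ} (h0 : Hot0 s c) (hW : InW c y) (hyc : y ≠ c) (hm : s.b.col (2 * c - y) = a) :
    Good s y a none (Tag.fixp c) s.rg := by
  refine
    { hy := hy
      ha := ha
      safe := hs1
      rep := fun v κ h => by cases h
      nbr := fun v κ h => by cases h
      inreg := fun c' h1 h2 => absurd h2 (hno c' h1)
      outreg := fun c' _ _ v κ h => by cases h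
      rgs := Or.inl rfl
      tag := ⟨h0, rfl, hW, hyc, hm⟩
      kind := ?_
      fixpass := fun _ _ _ _ _ _ => ⟨c, rfl⟩
      xb := fun _ _ _ _ _ _ _ => Or.inr (Or.inr (Or.inl ⟨c, rfl⟩))
      shield := ?_ }
  · intro c' h1 _
    refine Or.inr (Or.inr (Or.inr ⟨rfl, fun hW' k hk => ?_⟩))
    refine hnk c' k ⟨h1, hW', hk, safeR_free hs1 hk.1.2.2.2.1 ?_⟩
    rcases hk.2 with h2 | h2
    · exact Or.inl h2
    · exact Or.inr (Or.inl h2)
  · intro c' w h1 h2 h3 h4 h5 h6 h7 h8 h9
    exact absurd ⟨h1, h2, h3, h4, h5, h6, h7, h8, h9⟩ (hnd c' w)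

end MP583455
end
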