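import Pool.Agent.Lib.MP_583455_co.Mg.G002
import Pool.Agent.Lib.MP_583455_co.Mg.G011
import Pool.Agent.Lib.MP_583455_co.X0b

section

namespace MP583455

open Classical

theorem colW_add_empW (b : Bd) (c : ℤ) : colW b c + empW b c = 20000001 := by
  unfold colW empW
  have h1 := Finset.card_filter_add_card_filter_not (s := Finset.Icc (c - (10000000 : ℤ)) (c + (10000000 : ℤ)))
    (fun z => b.col z ≠ 0)
  rw [Int.card_Icc] at h1
  have h2 : (Finset.Icc (c - (10000000 : ℤ)) (c + (10000000 : ℤ))).filter (fun z => ¬ b.col z ≠ 0) =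
      (Finset.Icc (c - (10000000 : ℤ)) (c + (10000000 : ℤ))).filter (fun z => b.col z = 0) := by
    apply Finset.filter_congr
    intro z _
    exact not_not
  rw [h2] at h1
  omega

/-- half-cells are empty cells -/
theorem bb_le_empW (b : Bd) (c : ℤ) : bb b c ≤ empW b c := by
  unfold bb empW
  refine Finset.card_le_card fun z hz => ?_
  rw [Finset.mem_filter] at hz ⊢
  exact ⟨hz.1, hz.2.2.2.2.1⟩

/-- PROOF: `colW = cA + cB ≤ 2 * cB + 220000`, and a Bob stone `w ≠ c` of the window either has a
coloured mirror, then the colours are equal (`c` alive) and it is counted by `rr`, or its mirror is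
a half-cell; so `cB ≤ rr + bb + 1`. -/
theorem colW_le {s : St} (hC : Core s) {c : ℤ} (hal : Alive s.b c) :
    colW s.b c ≤ 2 * (rr s.b c + bb s.b c + 1) + 220000 := by
  have h1 := delta hC (c - (10000000 : ℤ)) (c + (10000000 : ℤ)) (by omega) (by omega)
  have h2 : colW s.b c ≤ cA s.b (c - (10000000 : ℤ)) (c + (10000000 : ℤ)) + cB s.b (c - (10000000 : ℤ)) (c + (10000000 : ℤ)) := by
    unfold colW cA cB
    refine le_trans (Finset.card_le_card ?_) (Finset.card_union_le _ _)
    intro z hz
    rw [Finset.mem_filter] at hz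
    rw [Finset.mem_union, Finset.mem_filter, Finset.mem_filter]
    cases h : s.b.own z with
    | false => exact Or.inl ⟨hz.1, hz.2, h⟩
    | true => exact Or.inr ⟨hz.1, hz.2, h⟩
  have h3 : cB s.b (c - (10000000 : ℤ)) (c + (10000000 : ℤ)) ≤ rr s.b c + bb s.b c + 1 := by
    unfold cB rr bb
    have hsub : (Finset.Icc (c - (10000000 : ℤ)) (c + (10000000 : ℤ))).filter (fun z => stB s.b z) ⊆
        (((Finset.Icc (c - (10000000 : ℤ)) (c + (10000000 : ℤ))).filter
          (fun w => w ≠ c ∧ s.b.col w ≠ 0 ∧ s.b.own w = true ∧ s.b.col w = s.b.col (2 * c - w))) ∪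
        ((Finset.Icc (c - (10000000 : ℤ)) (c + (10000000 : ℤ))).filter (fun z => Half s.b c z)).image
          (fun z => 2 * c - z)) ∪ {c} := by
      intro z hz
      rw [Finset.mem_filter, Finset.mem_Icc] at hz
      obtain ⟨⟨h4, h5⟩, h6, h7⟩ := hz
      rw [Finset.mem_union, Finset.mem_union, Finset.mem_singleton, Finset.mem_filter,
        Finset.mem_image, Finset.mem_Icc]
      by_cases hzc : z = c
      · exact Or.inr hzc
      · left
        by_cases hm : s.b.col (2 * c - z) = 0
        · right
          refine ⟨2 * c - z, ?_, by ring⟩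
          rw [Finset.mem_filter, Finset.mem_Icc]
          refine ⟨⟨by omega, by omega⟩, by omega, by omega, by omega, hm, ?_⟩
          have h8 : 2 * c - (2 * c - z) = z := by ring
          rw [h8]
          exact h6
        · left
          exact ⟨⟨h4, h5⟩, hzc, h6, h7, hal z h4 h5 h6 hm⟩
    have h4 := Finset.card_le_card hsub
    refine h4.trans ((Finset.card_union_le _ _).trans ?_)
    rw [Finset.card_singleton]
    refine Nat.add_le_add_right ((Finset.card_union_le _ _).trans ?_) 1
    exact Nat.add_le_add_left Finset.card_image_le _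
  omega

end MP583455
end

section

namespace MP583455

open Classical

/-- PROOF: `rr < (9000000 : ℕ)`, if `empW ≤ 1` then `bb ≤ 1` and `colW ≥ 20000000`, contradiction to
`colW_le`. -/
theorem final_un {s : St} (hI : Inv s) {c : ℤ} (hal : Alive s.b c) (hm : s.mt c = 0) :
    2 ≤ empW s.b c := by
  have h1 := hI.un c hal hm
  have h2 := colW_add_empW s.b c
  have h3 := bb_le_empW s.b c
  have h4 := colW_le hI.toCore hal
  by_contra hcon
  omega

/-- PROOF: `hI.regP`: the number of empty cells in the region is even and nonzero, the region lies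
in the window. -/
theorem final_reg {s : St} (hI : Inv s) {c : ℤ} (h : HotR s c) : 2 ≤ empW s.b c := by
  obtain ⟨h1, h2, _⟩ := hI.regP c h
  obtain ⟨_, h4, h5, _⟩ := hI.regG c h.2.2
  have h6 : 2 ≤ (EE s.b c (s.rg c)).card := by
    obtain ⟨k, hk⟩ := h1
    omega
  refine h6.trans (Finset.card_le_card ?_)
  intro z hz
  unfold EE at hz
  rw [Finset.mem_filter, Finset.mem_Ioo] at hz
  rw [Finset.mem_filter, Finset.mem_Icc]
  exact ⟨by omega, hz.2⟩

/-- new fixes of older stones: `Fx`, mirror older than the marking: at most `b0` (inject by the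
mirror). -/
theorem cnt_fold {s : St} (hC : Core s) (c : ℤ) :
    ((Finset.Icc (c - (10000000 : ℤ)) (c + (10000000 : ℤ))).filter (fun y => Fx s c y ∧
      s.tm (2 * c - y) < s.mt c)).card ≤ b0 s c := by
  have _h := hC
  unfold b0
  refine Finset.card_le_card_of_injOn (fun y => 2 * c - y) ?_ ?_
  · intro y hy
    simp only [Finset.coe_filter, Set.mem_ofPred_eq, Finset.mem_Icc] at hy ⊢
    obtain ⟨h1, ⟨h2, h3, h4, h5, h6⟩, h7⟩ := hy
    refine ⟨by omega, by omega, h5, h7, Or.inr ?_⟩
    rw [show 2 * c - (2 * c - y) = y by ring]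
    exact h4
  · intro y _ z _ h
    simp only at h
    omega

/-- new fixes of newer Alice stones: at most `nn` (the mirror is an Alice stone, new, whose mirror
`y` is younger). -/
theorem cnt_faa {s : St} (hC : Core s) (c : ℤ) :
    ((Finset.Icc (c - (10000000 : ℤ)) (c + (10000000 : ℤ))).filter (fun y => Fx s c y ∧ stA s.b (2 * c - y) ∧
      s.mt c ≤ s.tm (2 * c - y))).card ≤ nn s c := by
  have _h := hC
  unfold nn
  refine Finset.card_le_card_of_injOn (fun y => 2 * c - y) ?_ ?_
  · intro y hy
    simp only [Finset.coe_filter, Set.mem_ofPred_eq, Finset.mem_Icc] at hy ⊢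
    obtain ⟨h1, ⟨h2, h3, h4, h5, h6⟩, h7, h8⟩ := hy
    refine ⟨by omega, by omega, h7, h8, Or.inr ?_⟩
    rw [show 2 * c - (2 * c - y) = y by ring]
    exact h6
  · intro y _ z _ h
    simp only at h
    omega

end MP583455
end

section

namespace MP583455

open Classical

/-- new Bob stones of the window: the centre, or the mirror is empty (then a half-cell, `≤ bb`), or
the mirror is coloured and younger, an Alice stone, which is a fix of a new Bob stone.
(If the mirror `q` of the new Bob stone `w` is coloured: same colour since `c` is alive, so by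
`hC.fresh` it is an Alice stone and younger.) -/
theorem cnt_newB {s : St} (hC : Core s) {c : ℤ} (h0 : Hot0 s c) :
    ((Finset.Icc (c - (10000000 : ℤ)) (c + (10000000 : ℤ))).filter (fun w => stB s.b w ∧ s.mt c ≤ s.tm w)).card ≤
      1 + bb s.b c + ((Finset.Icc (c - (10000000 : ℤ)) (c + (10000000 : ℤ))).filter (fun y => Fx s c y ∧
        stB s.b (2 * c - y) ∧ s.mt c ≤ s.tm (2 * c - y))).card := by
  have hinj : Function.Injective (fun w : ℤ => 2 * c - w) := fun a b h => by
    have h' : 2 * c - a = 2 * c - b := h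
    omega
  rw [← Finset.card_image_of_injective _ hinj]
  have hsub : ((Finset.Icc (c - (10000000 : ℤ)) (c + (10000000 : ℤ))).filter
      (fun w => stB s.b w ∧ s.mt c ≤ s.tm w)).image (fun w : ℤ => 2 * c - w) ⊆
      ({c} ∪ (Finset.Icc (c - (10000000 : ℤ)) (c + (10000000 : ℤ))).filter (fun z => Half s.b c z)) ∪
        (Finset.Icc (c - (10000000 : ℤ)) (c + (10000000 : ℤ))).filter (fun y => Fx s c y ∧
          stB s.b (2 * c - y) ∧ s.mt c ≤ s.tm (2 * c - y)) := by
    intro q hq
    rw [Finset.mem_image] at hq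
    obtain ⟨w, hw, rfl⟩ := hq
    rw [Finset.mem_filter, Finset.mem_Icc] at hw
    obtain ⟨⟨hw1, hw2⟩, hw3, hw4⟩ := hw
    rw [Finset.mem_union, Finset.mem_union, Finset.mem_singleton, Finset.mem_filter,
      Finset.mem_filter, Finset.mem_Icc]
    have hb : c - (10000000 : ℤ) ≤ 2 * c - w ∧ 2 * c - w ≤ c + (10000000 : ℤ) := ⟨by omega, by omega⟩
    have hww : 2 * c - (2 * c - w) = w := by ring
    by_cases hwc : w = c
    · left; left; omega
    · by_cases hq : s.b.col (2 * c - w) = 0
      · left; right
        refine ⟨hb, by omega, hb.1, hb.2, hq, ?_⟩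
        rw [hww]
        exact hw3.1
      · right
        have h1 := h0.2.1 w hw1 hw2 hw3.1 hq
        have h2 := hC.fresh w (2 * c - w) hw3 (by omega) h1.symm
          (near_of_close (by omega) (by omega))
        refine ⟨hb, ⟨by omega, ⟨hq, h2.1⟩, le_trans hw4 h2.2.le, ?_, ?_⟩, ?_, ?_⟩
        · rw [hww]; exact hw3.1
        · rw [hww]; exact h2.2
        · rw [hww]; exact hw3
        · rw [hww]; exact hw4
  refine le_trans (Finset.card_le_card hsub) ?_
  refine le_trans (Finset.card_union_le _ _) ?_
  refine Nat.add_le_add_right ?_ _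
  refine le_trans (Finset.card_union_le _ _) ?_
  rw [Finset.card_singleton]
  exact le_rfl

/-- new Alice stones: `c`, counted by `nn`, or a fix of an older stone, of a new Alice stone, of
a new Bob stone -/
theorem cnt_newA {s : St} (hC : Core s) (c : ℤ) :
    ((Finset.Icc (c - (10000000 : ℤ)) (c + (10000000 : ℤ))).filter (fun y => stA s.b y ∧ s.mt c ≤ s.tm y)).card ≤
      1 + nn s c + b0 s c + nn s c +
        ((Finset.Icc (c - (10000000 : ℤ)) (c + (10000000 : ℤ))).filter (fun y => Fx s c y ∧
          stB s.b (2 * c - y) ∧ s.mt c ≤ s.tm (2 * c - y))).card := by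
  have hsub : (Finset.Icc (c - (10000000 : ℤ)) (c + (10000000 : ℤ))).filter (fun y => stA s.b y ∧ s.mt c ≤ s.tm y) ⊆
      ((({c} ∪ (Finset.Icc (c - (10000000 : ℤ)) (c + (10000000 : ℤ))).filter (fun y => y ≠ c ∧ stA s.b y ∧
        s.mt c ≤ s.tm y ∧ (s.b.col (2 * c - y) = 0 ∨ s.tm y < s.tm (2 * c - y)))) ∪
        (Finset.Icc (c - (10000000 : ℤ)) (c + (10000000 : ℤ))).filter (fun y => Fx s c y ∧
          s.tm (2 * c - y) < s.mt c)) ∪
        (Finset.Icc (c - (10000000 : ℤ)) (c + (10000000 : ℤ))).filter (fun y => Fx s c y ∧ stA s.b (2 * c - y) ∧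
          s.mt c ≤ s.tm (2 * c - y))) ∪
        (Finset.Icc (c - (10000000 : ℤ)) (c + (10000000 : ℤ))).filter (fun y => Fx s c y ∧
          stB s.b (2 * c - y) ∧ s.mt c ≤ s.tm (2 * c - y)) := by
    intro y hy
    rw [Finset.mem_filter] at hy
    obtain ⟨hy1, hy2, hy3⟩ := hy
    rw [Finset.mem_union, Finset.mem_union, Finset.mem_union, Finset.mem_union,
      Finset.mem_singleton, Finset.mem_filter, Finset.mem_filter, Finset.mem_filter,
      Finset.mem_filter]
    by_cases hyc : y = c
    · left; left; left; left; exact hyc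
    · by_cases hm : s.b.col (2 * c - y) = 0 ∨ s.tm y < s.tm (2 * c - y)
      · left; left; left; right
        exact ⟨hy1, hyc, hy2, hy3, hm⟩
      · rw [not_or, not_lt] at hm
        have hne : s.tm (2 * c - y) ≠ s.tm y := by
          intro h
          have := hC.time.2.2.1 (2 * c - y) y hm.1 hy2.1 h
          omega
        have hF : Fx s c y := ⟨hyc, hy2, hy3, hm.1, lt_of_le_of_ne hm.2 hne⟩
        by_cases ho : s.tm (2 * c - y) < s.mt c
        · left; left; right
          exact ⟨hy1, hF, ho⟩
        · rw [not_lt] at ho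
          cases hown : s.b.own (2 * c - y) with
          | false => left; right; exact ⟨hy1, hF, ⟨hm.1, hown⟩, ho⟩
          | true => right; exact ⟨hy1, hF, ⟨hm.1, hown⟩, ho⟩
  refine le_trans (Finset.card_le_card hsub) ?_
  refine le_trans (Finset.card_union_le _ _) ?_
  refine Nat.add_le_add_right ?_ _
  refine le_trans (Finset.card_union_le _ _) ?_
  refine Nat.add_le_add ?_ (cnt_faa hC c)
  refine le_trans (Finset.card_union_le _ _) ?_
  refine Nat.add_le_add ?_ (cnt_fold hC c)
  refine le_trans (Finset.card_union_le _ _) ?_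
  rw [Finset.card_singleton]
  exact le_rfl

end MP583455
end

section

namespace MP583455

open Classical

/-- F-EVENT: `FEv s y a c`; say `c < y` (`y ≠ c` as `y ∉ Zone`). Reply `v = y - 1` (empty by `Vis`,
`|y-c| ≥ 204`). `SafeR`: if `y+1` coloured `safeR_adjL`; otherwise `safeR_isoL`: an `e > y` of colour
`a` at even distance with empty cells between `y` and `e` would together with `w = 2c - y` (colour
`a`, `y - w` even) be a `par` violation of `s.b`.  `rg'` as in `Good.rgs`, `tag = loc`.
`xb`: if `c' ≠ c` is `Hot0`, `y ∈ W(c')` and `2c'-y` is a Bob stone of colour `a`, then it is near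
`2c - y` (distance `≤ 2*(10000000 : ℤ) + 2*(10000000 : ℤ)`), so `2c'-y = 2c-y`, contradiction; for `c' = c`: `rg' c ≠ 0`. -/
theorem good_F {s : St} (hC : Core s) {y : ℤ} {a N : ℕ} (hy : s.b.col y = 0) (ha : a ≠ 0)
    (hF : ∀ v, (s.b.put y a false).col v = 0 → ∃ κ, κ ≤ N ∧ Fr (s.b.put y a false) v κ)
    (hno : ∀ c, HotR s c → ¬ InI s c y) (hnd : ∀ c w, ¬ Demand s y a c w)
    {c : ℤ} (hk : FEv s y a c) :
    ∃ v κ rg', κ ≤ N ∧ Good s y a (some (v, κ)) Tag.loc rg' := by
  obtain ⟨h0, hz, hW, hwB, hwa, hvis⟩ := hk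
  have hzb : 204 ≤ (y - c).natAbs := by
    by_contra h
    exact hz (Or.inl (by omega))
  have hsafe : Safe s.b := hC.safe
  -- uniqueness of the centre
  have huniq : ∀ c', InW c' y → stB s.b (2 * c' - y) → s.b.col (2 * c' - y) = a → c' = c := by
    intro c' hW' hB' ha'
    have h1 : 2 * c' - y = 2 * c - y := by
      refine bob_unique hC hB' hwB (by rw [ha', hwa]) ?_
      obtain ⟨h1, h2⟩ := hW
      obtain ⟨h3, h4⟩ := hW'
      exact near_of_close (by omega) (by omega)
    omega
  rcases lt_trichotomy c y with hcy | hcy | hcy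
  · -- `c < y`, reply `y - 1`
    have hvis' : ∀ z, 2 * c - y < z → z < y → s.b.col z = 0 := by
      intro z h1 h2
      exact hvis z (by rw [min_eq_right (by omega)]; exact h1) (by rw [max_eq_left (by omega)]; exact h2)
    have hv : s.b.col (y - 1) = 0 := hvis' _ (by omega) (by omega)
    have hv1 : (s.b.put y a false).col (y - 1) = 0 := by
      rw [put_col, if_neg (by omega)]
      exact hv
    have hsr : SafeR (s.b.put y a false) (y - 1) := by
      by_cases h1 : s.b.col (y + 1) = 0
      · refine safeR_isoL hsafe hy ha hv h1 ?_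
        intro e he hea hpar hemp
        refine hsafe.par (2 * c - y) e (by omega) hwB.1 (by rw [hwa, hea]) (by omega) ?_
        intro z hz1 hz2
        rcases lt_trichotomy z y with h | h | h
        · exact hvis' z hz1 h
        · rw [h]; exact hy
        · exact hemp z h hz2
      · exact safeR_adjL hsafe hy ha h1 hv
    obtain ⟨κ, hκ, hfr⟩ := hF _ hv1
    refine ⟨y - 1, κ, fun c' => if c' = c then ((y - c).natAbs : ℤ) else s.rg c', hκ, ?_⟩
    refine
      { hy := hy
        ha := ha
        safe := hsr κ hfr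
        rep := ?_
        nbr := ?_
        inreg := ?_
        outreg := ?_
        rgs := ?_
        tag := ?_
        kind := ?_
        fixpass := ?_
        xb := ?_
        shield := ?_ }
    · rintro v κ' h
      simp only [Option.some.injEq, Prod.mk.injEq] at h
      obtain ⟨rfl, rfl⟩ := h
      exact ⟨hv1, hfr⟩
    · rintro v κ' h
      simp only [Option.some.injEq, Prod.mk.injEq] at h
      obtain ⟨rfl, rfl⟩ := h
      right; left
      rw [put_col, if_pos (by omega)]
      exact ha
    · intro c' h1 h2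
      exact absurd h2 (hno c' h1)
    · rintro c' h1 h2 v κ' h
      simp only [Option.some.injEq, Prod.mk.injEq] at h
      obtain ⟨rfl, rfl⟩ := h
      rwa [← reply_reg hC h1 hy hv (Or.inr (Or.inl rfl))]
    · right
      exact ⟨c, y - 1, κ, ⟨h0, hz, hW, hwB, hwa, hvis⟩, rfl, Or.inr ⟨hcy, rfl⟩, rfl⟩
    · exact ⟨y - 1, κ, rfl, by omega, by omega⟩
    · intro c' _ _
      right; right; left
      refine ⟨y - 1, κ, rfl, by omega, by omega, by omega, ?_⟩
      intro z h1 h2 h3
      have : z = y := by
        rw [min_eq_right (by omega)] at h1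
        rw [max_eq_left (by omega)] at h2
        omega
      rw [this, put_col, if_pos rfl]
      exact ha
    · intro h
      exact absurd h (by simp)
    · intro c' h1 h2 h3 h4 h5 _
      left
      have h6 := huniq c' h3 h4 h5
      rw [h6, if_pos rfl]
      omega
    · intro c' w h1 h2 h3 h4 h5 h6 h7 h8 h9
      exact absurd ⟨h1, h2, h3, h4, h5, h6, h7, h8, h9⟩ (hnd c' w)
  · exfalso
    rw [hcy, sub_self] at hzb
    omega
  · -- `y < c`, reply `y + 1`
    have hvis' : ∀ z, y < z → z < 2 * c - y → s.b.col z = 0 := by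
      intro z h1 h2
      exact hvis z (by rw [min_eq_left (by omega)]; exact h1) (by rw [max_eq_right (by omega)]; exact h2)
    have hv : s.b.col (y + 1) = 0 := hvis' _ (by omega) (by omega)
    have hv1 : (s.b.put y a false).col (y + 1) = 0 := by
      rw [put_col, if_neg (by omega)]
      exact hv
    have hsr : SafeR (s.b.put y a false) (y + 1) := by
      by_cases h1 : s.b.col (y - 1) = 0
      · refine safeR_isoR hsafe hy ha h1 hv ?_
        intro e he hea hpar hemp
        refine hsafe.par e (2 * c - y) (by omega) (by rw [hea]; exact ha) (by rw [hwa, hea])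
          (by omega) ?_
        intro z hz1 hz2
        rcases lt_trichotomy z y with h | h | h
        · exact hemp z hz1 h
        · rw [h]; exact hy
        · exact hvis' z h hz2
      · exact safeR_adjR hsafe hy ha h1 hv
    obtain ⟨κ, hκ, hfr⟩ := hF _ hv1
    refine ⟨y + 1, κ, fun c' => if c' = c then ((y - c).natAbs : ℤ) else s.rg c', hκ, ?_⟩
    refine
      { hy := hy
        ha := ha
        safe := hsr κ hfr
        rep := ?_
        nbr := ?_
        inreg := ?_
        outreg := ?_
        rgs := ?_
        tag := ?_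
        kind := ?_
        fixpass := ?_
        xb := ?_
        shield := ?_ }
    · rintro v κ' h
      simp only [Option.some.injEq, Prod.mk.injEq] at h
      obtain ⟨rfl, rfl⟩ := h
      exact ⟨hv1, hfr⟩
    · rintro v κ' h
      simp only [Option.some.injEq, Prod.mk.injEq] at h
      obtain ⟨rfl, rfl⟩ := h
      left
      rw [put_col, if_pos (by omega)]
      exact ha
    · intro c' h1 h2
      exact absurd h2 (hno c' h1)
    · rintro c' h1 h2 v κ' h
      simp only [Option.some.injEq, Prod.mk.injEq] at h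
      obtain ⟨rfl, rfl⟩ := h
      rwa [← reply_reg hC h1 hy hv (Or.inl rfl)]
    · right
      exact ⟨c, y + 1, κ, ⟨h0, hz, hW, hwB, hwa, hvis⟩, rfl, Or.inl ⟨hcy, rfl⟩, rfl⟩
    · exact ⟨y + 1, κ, rfl, by omega, by omega⟩
    · intro c' _ _
      right; right; left
      refine ⟨y + 1, κ, rfl, by omega, by omega, by omega, ?_⟩
      intro z h1 h2 h3
      have : z = y := by
        rw [min_eq_left (by omega)] at h1
        rw [max_eq_right (by omega)] at h2
        omega
      rw [this, put_col, if_pos rfl]
      exact ha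
    · intro h
      exact absurd h (by simp)
    · intro c' h1 h2 h3 h4 h5 _
      left
      have h6 := huniq c' h3 h4 h5
      rw [h6, if_pos rfl]
      omega
    · intro c' w h1 h2 h3 h4 h5 h6 h7 h8 h9
      exact absurd ⟨h1, h2, h3, h4, h5, h6, h7, h8, h9⟩ (hnd c' w)

end MP583455
end
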