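import Pool.Agent.Lib.MP_583455_co.Mg.G001

section

namespace MP583455

open Classical

theorem exc_le {s : St} (hsep : ISep s) {c : ℤ} (hc : s.mt c ≠ 0) : exc s c ≤ 1223 := by
  have h1 := zc_le s.b c
  have h2 := dc_le hsep hc
  unfold exc
  omega

end MP583455
end

section

namespace MP583455

open Classical

/-- PROOF: `y ↦ v` (partner with `tm v = tm y + 1`) is injective (`hC.time`), and `v ∈ [l, r]` unless
`y` is within `(200 : ℤ) = 200` of an end. -/
theorem cnt_loc {s : St} (hC : Core s) (l r : ℤ) (hlr : l ≤ r) :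
    ((Finset.Icc l r).filter (fun z => stA s.b z ∧ s.tag z = Tag.loc)).card ≤
      cB s.b l r + 400 := by
  have hex : ∀ y : ℤ, ∃ v : ℤ, stA s.b y → s.tag y = Tag.loc →
      stB s.b v ∧ s.tm v = s.tm y + 1 ∧ v - y ≤ (200 : ℤ) ∧ y - v ≤ (200 : ℤ) := by
    intro y
    by_cases h1 : stA s.b y
    · by_cases h2 : s.tag y = Tag.loc
      · obtain ⟨v, hv⟩ := hC.loc y h1 h2
        exact ⟨v, fun _ _ => hv⟩
      · exact ⟨0, fun _ h => absurd h h2⟩
    · exact ⟨0, fun h => absurd h h1⟩
  choose v hv using hex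
  have hsub : (Finset.Icc l r).filter (fun z => stA s.b z ∧ s.tag z = Tag.loc) ⊆
      (((Finset.Icc l r).filter (fun z => stA s.b z ∧ s.tag z = Tag.loc)).filter
        (fun y => l ≤ v y ∧ v y ≤ r)) ∪ (Finset.Icc l (l + 199) ∪ Finset.Icc (r - 199) r) := by
    intro y hy
    rw [Finset.mem_union, Finset.mem_union, Finset.mem_Icc, Finset.mem_Icc]
    by_cases h : l ≤ v y ∧ v y ≤ r
    · left
      rw [Finset.mem_filter]
      exact ⟨hy, h⟩
    · right
      rw [Finset.mem_filter, Finset.mem_Icc] at hy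
      have h1 := hv y hy.2.1 hy.2.2
      have h2 := h1.2.2.1
      have h3 := h1.2.2.2
      have h4 := hy.1
      by_cases h5 : l ≤ v y
      · have h6 : ¬ v y ≤ r := fun h6 => h ⟨h5, h6⟩
        right; omega
      · left; omega
  have h1 := Finset.card_le_card hsub
  have h2 := Finset.card_union_le
    (((Finset.Icc l r).filter (fun z => stA s.b z ∧ s.tag z = Tag.loc)).filter
        (fun y => l ≤ v y ∧ v y ≤ r)) (Finset.Icc l (l + 199) ∪ Finset.Icc (r - 199) r)
  have h3 := Finset.card_union_le (Finset.Icc l (l + 199)) (Finset.Icc (r - 199) r)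
  rw [Int.card_Icc, Int.card_Icc] at h3
  have h4 : (((Finset.Icc l r).filter (fun z => stA s.b z ∧ s.tag z = Tag.loc)).filter
        (fun y => l ≤ v y ∧ v y ≤ r)).card ≤ cB s.b l r := by
    unfold cB
    refine Finset.card_le_card_of_injOn v ?_ ?_
    · intro y hy
      rw [Finset.mem_coe, Finset.mem_filter, Finset.mem_filter] at hy
      rw [Finset.mem_coe, Finset.mem_filter, Finset.mem_Icc]
      exact ⟨hy.2, (hv y hy.1.2.1 hy.1.2.2).1⟩
    · intro y hy y' hy' hyy
      rw [Finset.mem_coe, Finset.mem_filter, Finset.mem_filter] at hy hy'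
      have e1 := (hv y hy.1.2.1 hy.1.2.2).2.1
      have e2 := (hv y' hy'.1.2.1 hy'.1.2.2).2.1
      rw [hyy] at e1
      exact hC.time.2.2.1 y y' hy.1.2.1.1 hy'.1.2.1.1 (by omega)
  omega

end MP583455
end

section

namespace MP583455

open Classical

/-- PROOF: two different `far` stones are at distance `> (200 : ℤ)`: otherwise `hC.far` gives
`tm y1 ≤ tm y2 ≤ tm y1`, so `y1 = y2`.  Then `card_sep` with `g = 201`. -/
theorem cnt_far {s : St} (hC : Core s) (l r : ℤ) (hlr : l ≤ r) (h : r - l ≤ 40000000) :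
    ((Finset.Icc l r).filter (fun z => stA s.b z ∧ s.tag z = Tag.far)).card ≤ 199006 := by
  have key := card_sep ((Finset.Icc l r).filter (fun z => stA s.b z ∧ s.tag z = Tag.far)) l r 201
    (by norm_num) hlr (by
      intro x hx
      rw [Finset.mem_filter, Finset.mem_Icc] at hx
      exact hx.1) (by
      intro x hx y hy hxy
      rw [Finset.mem_filter] at hx hy
      by_contra hlt
      have h1 := hC.far x hx.2.1 hx.2.2 y (by omega) (by omega)
      have h2 := hC.far y hy.2.1 hy.2.2 x (by omega) (by omega)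
      have h3 := hC.time.2.2.1 x y hx.2.1.1 hy.2.1.1 (le_antisymm h2.2 h1.2)
      omega)
  omega

end MP583455
end

section

namespace MP583455

open Classical

/-- PROOF: `nreg c`: at most `802` (`NearEnd`, `hC.nreg`); `ctr c`: at most 1 (`hC.ctr`: all have
`tm y + 1 = tm c`; `hC.time`); `kill c`: at most 1 (`hC.kill.2`); `fixp c`: at most 2445
(`hC.fixp.2`, all such `y` are in the window of `c` by `hC.fixp.1`). -/
theorem cnt_spc {s : St} (hC : Core s) (l r c : ℤ) :
    ((Finset.Icc l r).filter (fun z => stA s.b z ∧ spc (s.tag z) c)).card ≤ 3249 := by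
  have hsub : (Finset.Icc l r).filter (fun z => stA s.b z ∧ spc (s.tag z) c) ⊆
      (((Finset.Icc (c + s.rg c - 200) (c + s.rg c + 200) ∪
        Finset.Icc (c - s.rg c - 200) (c - s.rg c + 200)) ∪
        (Finset.Icc l r).filter (fun z => stA s.b z ∧ s.tag z = Tag.ctr c)) ∪
        (Finset.Icc l r).filter (fun z => stA s.b z ∧ s.tag z = Tag.kill c)) ∪
        (Finset.Icc (c - (10000000 : ℤ)) (c + (10000000 : ℤ))).filter (fun z => stA s.b z ∧ s.tag z = Tag.fixp c) := by
    intro z hz
    rw [Finset.mem_filter] at hz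
    rw [Finset.mem_union, Finset.mem_union, Finset.mem_union, Finset.mem_union, Finset.mem_Icc,
      Finset.mem_Icc, Finset.mem_filter, Finset.mem_filter, Finset.mem_filter]
    obtain ⟨h1, h2, h3⟩ := hz
    rcases h3 with h3 | h3 | h3 | h3
    · have h4 := (hC.nreg z c h2 h3).2.2
      unfold NearEnd at h4
      left; left; left
      rcases h4 with h4 | h4
      · left; constructor <;> omega
      · right; constructor <;> omega
    · left; left; right
      exact ⟨h1, h2, h3⟩
    · left; right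
      exact ⟨h1, h2, h3⟩
    · right
      have h4 := (hC.fixp.1 z c h2 h3).2.1
      exact ⟨Finset.mem_Icc.2 h4, h2, h3⟩
  have h1 := Finset.card_le_card hsub
  have h2 := Finset.card_union_le (((Finset.Icc (c + s.rg c - 200) (c + s.rg c + 200) ∪
        Finset.Icc (c - s.rg c - 200) (c - s.rg c + 200)) ∪
        (Finset.Icc l r).filter (fun z => stA s.b z ∧ s.tag z = Tag.ctr c)) ∪
        (Finset.Icc l r).filter (fun z => stA s.b z ∧ s.tag z = Tag.kill c))
        ((Finset.Icc (c - (10000000 : ℤ)) (c + (10000000 : ℤ))).filter (fun z => stA s.b z ∧ s.tag z = Tag.fixp c))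
  have h3 := Finset.card_union_le ((Finset.Icc (c + s.rg c - 200) (c + s.rg c + 200) ∪
        Finset.Icc (c - s.rg c - 200) (c - s.rg c + 200)) ∪
        (Finset.Icc l r).filter (fun z => stA s.b z ∧ s.tag z = Tag.ctr c))
        ((Finset.Icc l r).filter (fun z => stA s.b z ∧ s.tag z = Tag.kill c))
  have h4 := Finset.card_union_le (Finset.Icc (c + s.rg c - 200) (c + s.rg c + 200) ∪
        Finset.Icc (c - s.rg c - 200) (c - s.rg c + 200))
        ((Finset.Icc l r).filter (fun z => stA s.b z ∧ s.tag z = Tag.ctr c))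
  have h5 := Finset.card_union_le (Finset.Icc (c + s.rg c - 200) (c + s.rg c + 200))
        (Finset.Icc (c - s.rg c - 200) (c - s.rg c + 200))
  have h6 : (Finset.Icc (c + s.rg c - 200) (c + s.rg c + 200)).card = 401 := by
    rw [Int.card_Icc]; omega
  have h7 : (Finset.Icc (c - s.rg c - 200) (c - s.rg c + 200)).card = 401 := by
    rw [Int.card_Icc]; omega
  have h8 : ((Finset.Icc l r).filter (fun z => stA s.b z ∧ s.tag z = Tag.ctr c)).card ≤ 1 := by
    rw [Finset.card_le_one]
    intro z hz w hw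
    rw [Finset.mem_filter] at hz hw
    have e1 := (hC.ctr z c hz.2.1 hz.2.2).2.2.2
    have e2 := (hC.ctr w c hw.2.1 hw.2.2).2.2.2
    exact hC.time.2.2.1 z w hz.2.1.1 hw.2.1.1 (by omega)
  have h9 : ((Finset.Icc l r).filter (fun z => stA s.b z ∧ s.tag z = Tag.kill c)).card ≤ 1 := by
    rw [Finset.card_le_one]
    intro z hz w hw
    rw [Finset.mem_filter] at hz hw
    exact hC.kill.2 z w c hz.2.1 hw.2.1 hz.2.2 hw.2.2
  have h10 := hC.fixp.2 c
  omega

/-- a special tag of `c` on a stone of `[l,r]`: `c` is marked and within `(10000000 : ℤ) + 200` of `[l,r]` -/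
theorem spc_near {s : St} (hC : Core s) {z c : ℤ} (h1 : stA s.b z) (h2 : spc (s.tag z) c) :
    s.mt c ≠ 0 ∧ z - c ≤ (10000000 : ℤ) + 200 ∧ c - z ≤ (10000000 : ℤ) + 200 := by
  rcases h2 with h2 | h2 | h2 | h2
  · obtain ⟨h3, h4, h5⟩ := hC.nreg z c h1 h2
    obtain ⟨-, h6, h7, -⟩ := hC.regG c h4
    unfold NearEnd at h5
    refine ⟨h3, ?_, ?_⟩ <;> omega
  · obtain ⟨h3, h4, -⟩ := hC.ctr z c h1 h2
    unfold InW at h4
    refine ⟨h3, ?_, ?_⟩ <;> omega
  · obtain ⟨h3, -, h4⟩ := hC.kill.1 z c h1 h2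
    unfold InW at h4
    refine ⟨h3, ?_, ?_⟩ <;> omega
  · obtain ⟨h3, h4, -⟩ := hC.fixp.1 z c h1 h2
    unfold InW at h4
    refine ⟨h3, ?_, ?_⟩ <;> omega

end MP583455
end

section

namespace MP583455

open Classical

/-- PROOF: every Alice stone of `[l,r]` has tag `loc`, `far` or a special tag of a marked centre in
`[l-(10000000 : ℤ)-200, r+(10000000 : ℤ)+200]` (length `≤ 6*(10000000 : ℤ)+400`, at most 5 such centres, `marked_le`):
`cA ≤ (cB + 400) + 199006 + 5 * 3249`. -/
theorem delta {s : St} (hC : Core s) (l r : ℤ) (hlr : l ≤ r) (h : r - l ≤ 40000000) :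
    cA s.b l r ≤ cB s.b l r + 220000 := by
  have hloc := cnt_loc hC l r hlr
  have hfar := cnt_far hC l r hlr h
  have hmk := marked_le hC.sep (l - 10000200) (r + 10000200) (by omega) (by omega)
  have hsub : (Finset.Icc l r).filter (fun z => stA s.b z) ⊆
      ((Finset.Icc l r).filter (fun z => stA s.b z ∧ s.tag z = Tag.loc) ∪
        (Finset.Icc l r).filter (fun z => stA s.b z ∧ s.tag z = Tag.far)) ∪
      ((Finset.Icc (l - 10000200) (r + 10000200)).filter (fun c => s.mt c ≠ 0)).biUnion
        (fun c => (Finset.Icc l r).filter (fun z => stA s.b z ∧ spc (s.tag z) c)) := by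
    intro z hz
    rw [Finset.mem_filter, Finset.mem_Icc] at hz
    have hspc : ∀ c, spc (s.tag z) c →
        z ∈ ((Finset.Icc (l - 10000200) (r + 10000200)).filter (fun c => s.mt c ≠ 0)).biUnion
        (fun c => (Finset.Icc l r).filter (fun z => stA s.b z ∧ spc (s.tag z) c)) := by
      intro c hc
      obtain ⟨h1, h2, h3⟩ := spc_near hC hz.2 hc
      rw [Finset.mem_biUnion]
      refine ⟨c, ?_, ?_⟩
      · rw [Finset.mem_filter, Finset.mem_Icc]
        exact ⟨⟨by omega, by omega⟩, h1⟩
      · rw [Finset.mem_filter, Finset.mem_Icc]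
        exact ⟨hz.1, hz.2, hc⟩
    rw [Finset.mem_union, Finset.mem_union, Finset.mem_filter, Finset.mem_filter, Finset.mem_Icc]
    cases ht : s.tag z with
    | loc => exact Or.inl (Or.inl ⟨hz.1, hz.2, rfl⟩)
    | far => exact Or.inl (Or.inr ⟨hz.1, hz.2, rfl⟩)
    | nreg c => exact Or.inr (hspc c (Or.inl ht))
    | ctr c => exact Or.inr (hspc c (Or.inr (Or.inl ht)))
    | kill c => exact Or.inr (hspc c (Or.inr (Or.inr (Or.inl ht))))
    | fixp c => exact Or.inr (hspc c (Or.inr (Or.inr (Or.inr ht))))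
  have h1 := Finset.card_le_card hsub
  have h2 := Finset.card_union_le
      ((Finset.Icc l r).filter (fun z => stA s.b z ∧ s.tag z = Tag.loc) ∪
        (Finset.Icc l r).filter (fun z => stA s.b z ∧ s.tag z = Tag.far))
      (((Finset.Icc (l - 10000200) (r + 10000200)).filter (fun c => s.mt c ≠ 0)).biUnion
        (fun c => (Finset.Icc l r).filter (fun z => stA s.b z ∧ spc (s.tag z) c)))
  have h3 := Finset.card_union_le
      ((Finset.Icc l r).filter (fun z => stA s.b z ∧ s.tag z = Tag.loc))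
      ((Finset.Icc l r).filter (fun z => stA s.b z ∧ s.tag z = Tag.far))
  have h4 := Finset.card_biUnion_le_card_mul
      ((Finset.Icc (l - 10000200) (r + 10000200)).filter (fun c => s.mt c ≠ 0))
      (fun c => (Finset.Icc l r).filter (fun z => stA s.b z ∧ spc (s.tag z) c)) 3249
      (fun c _ => cnt_spc hC l r c)
  unfold cA
  omega

end MP583455
end
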