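import Pool.Agent.Lib.MP_583455_co.Defs

section

/-!
# Basic facts about one exchange (all proved; may be cited everywhere)
-/

namespace MP583455

open Classical

variable {s : St} {y : ℤ} {a : ℕ} {ov : Option (ℤ × ℕ)} {τ : Tag} {rg' : ℤ → ℤ}

lemma Good.v_ne_y (hG : Good s y a ov τ rg') {v : ℤ} {κ : ℕ} (h : ov = some (v, κ)) : v ≠ y := by
  intro hvy
  have := (hG.rep v κ h).1
  rw [hvy] at this
  simp only [put_col, if_true] at this
  exact hG.ha this

lemma Good.v_empty (hG : Good s y a ov τ rg') {v : ℤ} {κ : ℕ} (h : ov = some (v, κ)) :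
    s.b.col v = 0 := by
  have h1 := (hG.rep v κ h).1
  have h2 := hG.v_ne_y h
  simpa only [put_col, if_neg h2] using h1

lemma Good.kpos (hG : Good s y a ov τ rg') {v : ℤ} {κ : ℕ} (h : ov = some (v, κ)) :
    κ ≠ 0 := (hG.rep v κ h).2.1

@[simp] lemma ex_b : (s.ex y a ov τ rg').b = bd2 s.b y a ov := rfl
@[simp] lemma ex_tm : (s.ex y a ov τ rg').tm = tm2 s.tm s.now y ov := rfl
@[simp] lemma ex_now : (s.ex y a ov τ rg').now = s.now + 2 := rfl
@[simp] lemma ex_mt : (s.ex y a ov τ rg').mt = s.mt := rfl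
@[simp] lemma ex_rg : (s.ex y a ov τ rg').rg = rg' := rfl
lemma ex_tag : (s.ex y a ov τ rg').tag = fun z => if z = y then τ else s.tag z := rfl

@[simp] lemma bd2_none (b : Bd) : bd2 b y a none = b.put y a false := rfl
@[simp] lemma bd2_some (b : Bd) (v : ℤ) (κ : ℕ) :
    bd2 b y a (some (v, κ)) = (b.put y a false).put v κ true := rfl

lemma Good.col_old (hG : Good s y a ov τ rg') {z : ℤ} (hz : s.b.col z ≠ 0) :
    (bd2 s.b y a ov).col z = s.b.col z := by
  have hzy : z ≠ y := by rintro rfl; exact hz hG.hy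
  cases h : ov with
  | none => simp [bd2, hzy]
  | some p =>
    obtain ⟨v, κ⟩ := p
    have hzv : z ≠ v := by rintro rfl; exact hz (hG.v_empty h)
    simp [bd2, hzy, hzv]

lemma Good.own_old (hG : Good s y a ov τ rg') {z : ℤ} (hz : s.b.col z ≠ 0) :
    (bd2 s.b y a ov).own z = s.b.own z := by
  have hzy : z ≠ y := by rintro rfl; exact hz hG.hy
  cases h : ov with
  | none => simp [bd2, hzy]
  | some p =>
    obtain ⟨v, κ⟩ := p
    have hzv : z ≠ v := by rintro rfl; exact hz (hG.v_empty h)
    simp [bd2, hzy, hzv]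

lemma Good.tm_old (hG : Good s y a ov τ rg') {z : ℤ} (hz : s.b.col z ≠ 0) :
    tm2 s.tm s.now y ov z = s.tm z := by
  have hzy : z ≠ y := by rintro rfl; exact hz hG.hy
  cases h : ov with
  | none => simp [tm2, hzy]
  | some p =>
    obtain ⟨v, κ⟩ := p
    have hzv : z ≠ v := by rintro rfl; exact hz (hG.v_empty h)
    simp [tm2, hzy, hzv]

lemma tag_old {z : ℤ} (hz : z ≠ y) : (s.ex y a ov τ rg').tag z = s.tag z := by
  simp [ex_tag, hz]

lemma tag_y : (s.ex y a ov τ rg').tag y = τ := by
  simp [ex_tag]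

lemma Good.col_y (hG : Good s y a ov τ rg') : (bd2 s.b y a ov).col y = a := by
  cases h : ov with
  | none => simp [bd2]
  | some p =>
    obtain ⟨v, κ⟩ := p
    have hzv := hG.v_ne_y h
    simp [bd2, hzv.symm]

lemma Good.own_y (hG : Good s y a ov τ rg') : (bd2 s.b y a ov).own y = false := by
  cases h : ov with
  | none => simp [bd2]
  | some p =>
    obtain ⟨v, κ⟩ := p
    have hzv := hG.v_ne_y h
    simp [bd2, hzv.symm]

lemma Good.tm_y (hG : Good s y a ov τ rg') : tm2 s.tm s.now y ov y = s.now := by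
  cases h : ov with
  | none => simp [tm2]
  | some p =>
    obtain ⟨v, κ⟩ := p
    have hzv := hG.v_ne_y h
    simp [tm2, hzv.symm]

lemma col_v {v : ℤ} {κ : ℕ} (h : ov = some (v, κ)) : (bd2 s.b y a ov).col v = κ := by
  subst h; simp [bd2]

lemma own_v {v : ℤ} {κ : ℕ} (h : ov = some (v, κ)) : (bd2 s.b y a ov).own v = true := by
  subst h; simp [bd2]

lemma tm_v {v : ℤ} {κ : ℕ} (h : ov = some (v, κ)) : tm2 s.tm s.now y ov v = s.now + 1 := by
  subst h; simp [tm2]

/-- a coloured cell after the exchange is `y`, Bob's reply or an old stone -/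
lemma col_cases {z : ℤ} (h : (bd2 s.b y a ov).col z ≠ 0) :
    z = y ∨ (∃ κ, ov = some (z, κ)) ∨ s.b.col z ≠ 0 := by
  by_cases hzy : z = y
  · exact Or.inl hzy
  · right
    cases hov : ov with
    | none => right; subst hov; simpa [bd2, hzy] using h
    | some p =>
      obtain ⟨v, κ⟩ := p
      subst hov
      by_cases hzv : z = v
      · left; exact ⟨κ, by rw [hzv]⟩
      · right; simpa [bd2, hzy, hzv] using h

lemma Good.empty_old (hG : Good s y a ov τ rg') {z : ℤ} (h : (bd2 s.b y a ov).col z = 0) :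
    s.b.col z = 0 := by
  by_contra hne
  rw [hG.col_old hne] at h
  exact hne h

lemma Good.col_ne (hG : Good s y a ov τ rg') {z : ℤ} (h : s.b.col z ≠ 0) :
    (bd2 s.b y a ov).col z ≠ 0 := by
  rw [hG.col_old h]; exact h

/-- an empty cell which is neither `y` nor Bob's reply stays empty -/
lemma empty_new {z : ℤ} (h : s.b.col z = 0) (hzy : z ≠ y) (hv : ∀ v κ, ov = some (v, κ) → z ≠ v) :
    (bd2 s.b y a ov).col z = 0 := by
  by_contra hne
  rcases col_cases hne with h1 | ⟨κ, h1⟩ | h1
  · exact hzy h1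
  · exact hv _ _ h1 rfl
  · exact h1 h

lemma Good.stA_old (hG : Good s y a ov τ rg') {z : ℤ} (h : stA s.b z) :
    stA (bd2 s.b y a ov) z :=
  ⟨hG.col_ne h.1, by rw [hG.own_old h.1]; exact h.2⟩

lemma Good.stB_old (hG : Good s y a ov τ rg') {z : ℤ} (h : stB s.b z) :
    stB (bd2 s.b y a ov) z :=
  ⟨hG.col_ne h.1, by rw [hG.own_old h.1]; exact h.2⟩

lemma Good.stA_y (hG : Good s y a ov τ rg') : stA (bd2 s.b y a ov) y :=
  ⟨by rw [hG.col_y]; exact hG.ha, hG.own_y⟩

lemma Good.stB_v (hG : Good s y a ov τ rg') {v : ℤ} {κ : ℕ} (h : ov = some (v, κ)) :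
    stB (bd2 s.b y a ov) v :=
  ⟨by rw [col_v h]; exact hG.kpos h, own_v h⟩

lemma Good.stA_cases (hG : Good s y a ov τ rg') {z : ℤ} (h : stA (bd2 s.b y a ov) z) :
    z = y ∨ stA s.b z := by
  rcases col_cases h.1 with h1 | ⟨κ, h1⟩ | h1
  · exact Or.inl h1
  · have := h.2
    rw [own_v h1] at this
    exact absurd this (by decide)
  · right
    refine ⟨h1, ?_⟩
    rw [← hG.own_old h1]; exact h.2

lemma Good.stB_cases (hG : Good s y a ov τ rg') {z : ℤ} (h : stB (bd2 s.b y a ov) z) :
    (∃ κ, ov = some (z, κ)) ∨ stB s.b z := by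
  rcases col_cases h.1 with h1 | ⟨κ, h1⟩ | h1
  · have := h.2
    rw [h1, hG.own_y] at this
    exact absurd this (by decide)
  · exact Or.inl ⟨κ, h1⟩
  · right
    refine ⟨h1, ?_⟩
    rw [← hG.own_old h1]; exact h.2

lemma Good.alive_old (hG : Good s y a ov τ rg') {c : ℤ} (h : Alive (bd2 s.b y a ov) c) :
    Alive s.b c := by
  intro z h1 h2 h3 h4
  have := h z h1 h2 (hG.col_ne h3) (hG.col_ne h4)
  rwa [hG.col_old h3, hG.col_old h4] at this

/-- the new region function is nonzero where the old one is (regions are created only for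
hot centres without region) -/
lemma Good.rg_zero (hG : Good s y a ov τ rg') {c : ℤ} (h : rg' c = 0) : s.rg c = 0 := by
  rcases hG.rgs with h1 | ⟨c0, v, κ, hF, _, _, h1⟩
  · rw [← h1]; exact h
  · rw [h1] at h
    by_cases hc : c = c0
    · rw [hc]; exact hF.1.2.2
    · simpa [hc] using h

lemma Good.hot0_old (hG : Good s y a ov τ rg') {c : ℤ} (h : Hot0 (s.ex y a ov τ rg') c) :
    Hot0 s c :=
  ⟨h.1, hG.alive_old h.2.1, hG.rg_zero h.2.2⟩

/-- a mirror pair consisting of a cell coloured `α` and a fresh stone kills the centre -/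
lemma not_alive_of_ne {b : Bd} {c z : ℤ} (h1 : InW c z) (h2 : b.col z ≠ 0)
    (h3 : b.col (2 * c - z) ≠ 0) (h4 : b.col z ≠ b.col (2 * c - z)) : ¬ Alive b c := by
  intro h
  exact h4 (h z h1.1 h1.2 h2 h3)

end MP583455
end

section

namespace MP583455

open Classical

/-- Alice stones in `[l, r]` -/
noncomputable def cA (b : Bd) (l r : ℤ) : ℕ := ((Finset.Icc l r).filter (fun z => stA b z)).card
/-- Bob stones in `[l, r]` -/
noncomputable def cB (b : Bd) (l r : ℤ) : ℕ := ((Finset.Icc l r).filter (fun z => stB b z)).card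

/-- special tags of one centre -/
def spc (t : Tag) (c : ℤ) : Prop := t = Tag.nreg c ∨ t = Tag.ctr c ∨ t = Tag.kill c ∨ t = Tag.fixp c

/-- number of coloured cells in the window -/
noncomputable def colW (b : Bd) (c : ℤ) : ℕ :=
  ((Finset.Icc (c - (10000000 : ℤ)) (c + (10000000 : ℤ))).filter (fun z => b.col z ≠ 0)).card

/-- number of empty cells in the window -/
noncomputable def empW (b : Bd) (c : ℤ) : ℕ :=
  ((Finset.Icc (c - (10000000 : ℤ)) (c + (10000000 : ℤ))).filter (fun z => b.col z = 0)).card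

/-- demand of the shield rule -/
def Demand (s : St) (y : ℤ) (a : ℕ) (c w : ℤ) : Prop :=
  Hot0 s c ∧ InW c w ∧ stB s.b w ∧ s.mt c ≤ s.tm w ∧ s.b.col (2 * c - w) = 0 ∧ ¬ InW c y ∧
    a = s.b.col w ∧ Vis s.b (2 * c - w) y ∧ (y - (2 * c - w)) % 2 = 0

/-- a safe kill -/
def KillOK (s : St) (y : ℤ) (a : ℕ) (c k : ℤ) : Prop :=
  Hot0 s c ∧ InW c y ∧ HK (s.b.put y a false) c k ∧ SafeR (s.b.put y a false) k

end MP583455
end

section

/-!
# N1: nearness
`Near b v w` : fewer than `(100000000 : ℕ) = 10^8` coloured cells strictly between `v` and `w`.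
All proofs are `Finset.card_le_card` + `Int.card_Icc`/`Int.card_Ioo` + `omega`.
-/

namespace MP583455

open Classical

theorem near_symm {b : Bd} {v w : ℤ} (h : Near b v w) : Near b w v := by
  unfold Near at *
  rwa [min_comm, max_comm]

/-- If all coloured cells strictly between `v` and `w` lie in two windows of length at most
`4*(10000000 : ℤ)`, then `v` and `w` are near. -/
theorem near_cover {b : Bd} {v w l1 r1 l2 r2 : ℤ} (h1 : r1 - l1 ≤ 40000000)
    (h2 : r2 - l2 ≤ 40000000)
    (h : ∀ z, min v w < z → z < max v w → b.col z ≠ 0 → (l1 ≤ z ∧ z ≤ r1) ∨ (l2 ≤ z ∧ z ≤ r2)) :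
    Near b v w := by
  unfold Near cnt
  have hsub : (Finset.Ioo (min v w) (max v w)).filter (fun z => b.col z ≠ 0) ⊆
      Finset.Icc l1 r1 ∪ Finset.Icc l2 r2 := by
    intro z hz
    simp only [Finset.mem_filter, Finset.mem_Ioo, Finset.mem_union, Finset.mem_Icc] at *
    exact h z hz.1.1 hz.1.2 hz.2
  have h3 := Finset.card_le_card hsub
  have h4 := Finset.card_union_le (Finset.Icc l1 r1) (Finset.Icc l2 r2)
  rw [Int.card_Icc, Int.card_Icc] at h4
  omega

theorem near_of_close {b : Bd} {v w : ℤ} (h1 : v - w ≤ 40000000) (h2 : w - v ≤ 40000000) :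
    Near b v w := by
  apply near_cover (l1 := min v w) (r1 := max v w) (l2 := 0) (r2 := 0) (by omega) (by omega)
  intro z hz1 hz2 _
  left; omega

/-- visible cells are near -/
theorem near_of_vis {b : Bd} {v w : ℤ} (h : Vis b v w) : Near b v w := by
  apply near_cover (l1 := 0) (r1 := 0) (l2 := 0) (r2 := 0) (by omega) (by omega)
  intro z hz1 hz2 h3
  exact absurd (h z hz1 hz2) h3

/-- nearness can only be lost when stones are added -/
theorem near_mono {b b' : Bd} (h : ∀ z, b.col z ≠ 0 → b'.col z ≠ 0) {v w : ℤ}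
    (hn : Near b' v w) : Near b v w := by
  unfold Near cnt at *
  refine lt_of_le_of_lt (Finset.card_le_card ?_) hn
  intro z hz
  simp only [Finset.mem_filter] at *
  exact ⟨hz.1, h z hz.2⟩

/-- a stone on the end point `v` does not count -/
theorem near_put {b : Bd} {v w : ℤ} {κ : ℕ} {o : Bool} (h : Near b v w) :
    Near (b.put v κ o) v w := by
  unfold Near cnt at *
  refine lt_of_le_of_lt (Finset.card_le_card ?_) h
  intro z hz
  rw [Finset.mem_filter, Finset.mem_Ioo] at hz ⊢
  have : z ≠ v := by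
    rintro rfl
    omega
  rw [put_col, if_neg this] at hz
  exact hz

/-- the converse: nearness after the stone on `v` (with nonzero colour, on an empty cell) -/
theorem near_of_put {b : Bd} {v w : ℤ} {κ : ℕ} {o : Bool} (h : Near (b.put v κ o) v w) :
    Near b v w := by
  unfold Near cnt at *
  refine lt_of_le_of_lt (Finset.card_le_card ?_) h
  intro z hz
  rw [Finset.mem_filter, Finset.mem_Ioo] at hz ⊢
  have : z ≠ v := by
    rintro rfl
    omega
  rw [put_col, if_neg this]
  exact hz

end MP583455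
end

section

namespace MP583455

open Classical

/-- PROOF: induction on the card (remove the maximum `M`: the rest lies in `[l, M - g]`). -/
theorem card_sep (S : Finset ℤ) (l r g : ℤ) (hg : 0 < g) (hlr : l ≤ r)
    (hS : ∀ x ∈ S, l ≤ x ∧ x ≤ r)
    (hsep : ∀ x ∈ S, ∀ y ∈ S, x < y → g ≤ y - x) : (S.card : ℤ) * g ≤ (r - l) + g := by
  induction S using Finset.induction_on_max generalizing r with
  | empty =>
    simp only [Finset.card_empty, Nat.cast_zero, zero_mul]
    omega
  | insert M S hM ih =>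
    have hnot : M ∉ S := fun h => lt_irrefl _ (hM M h)
    rw [Finset.card_insert_of_notMem hnot]
    have hMr := hS M (Finset.mem_insert_self _ _)
    push_cast
    rw [add_mul, one_mul]
    rcases S.eq_empty_or_nonempty with he | ⟨x, hx⟩
    · rw [he]
      simp only [Finset.card_empty, Nat.cast_zero, zero_mul]
      omega
    · have h1 := hsep x (Finset.mem_insert_of_mem hx) M (Finset.mem_insert_self _ _) (hM x hx)
      have h2 := hS x (Finset.mem_insert_of_mem hx)
      have h3 := ih (M - g) (by omega) (fun z hz => ?_)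
        (fun u hu v hv huv => hsep u (Finset.mem_insert_of_mem hu) v
          (Finset.mem_insert_of_mem hv) huv)
      · omega
      · have h4 := hsep z (Finset.mem_insert_of_mem hz) M (Finset.mem_insert_self _ _) (hM z hz)
        have h5 := hS z (Finset.mem_insert_of_mem hz)
        constructor
        · exact h5.1
        · omega

/-- at most two other marked centres within `2*(10000000 : ℤ)+1` of a marked centre -/
theorem dc_le {s : St} (hsep : ISep s) {c : ℤ} (hc : s.mt c ≠ 0) : dc s c ≤ 2 := by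
  unfold dc
  have hsub : (Finset.Icc (c - 2 * (10000000 : ℤ) - 1) (c + 2 * (10000000 : ℤ) + 1)).filter
      (fun c1 => c1 ≠ c ∧ s.mt c1 ≠ 0 ∧ ¬ Alive s.b c1) ⊆
      ((Finset.Icc (c - 2 * (10000000 : ℤ) - 1) (c + 2 * (10000000 : ℤ) + 1)).filter
        (fun c1 => c1 < c ∧ s.mt c1 ≠ 0)) ∪
      ((Finset.Icc (c - 2 * (10000000 : ℤ) - 1) (c + 2 * (10000000 : ℤ) + 1)).filter
        (fun c1 => c < c1 ∧ s.mt c1 ≠ 0)) := by
    intro z hz
    rw [Finset.mem_filter] at hz
    rw [Finset.mem_union, Finset.mem_filter, Finset.mem_filter]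
    rcases lt_or_gt_of_ne hz.2.1 with h | h
    · exact Or.inl ⟨hz.1, h, hz.2.2.1⟩
    · exact Or.inr ⟨hz.1, h, hz.2.2.1⟩
  have h1 : ((Finset.Icc (c - 2 * (10000000 : ℤ) - 1) (c + 2 * (10000000 : ℤ) + 1)).filter
        (fun c1 => c1 < c ∧ s.mt c1 ≠ 0)).card ≤ 1 := by
    rw [Finset.card_le_one]
    intro z hz w hw
    rw [Finset.mem_filter, Finset.mem_Icc] at hz hw
    by_contra hne
    rcases lt_or_gt_of_ne hne with h | h
    · have h3 := hsep z w hz.2.2 hw.2.2 h
      have h4 := hsep w c hw.2.2 hc hw.2.1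
      omega
    · have h3 := hsep w z hw.2.2 hz.2.2 h
      have h4 := hsep z c hz.2.2 hc hz.2.1
      omega
  have h2 : ((Finset.Icc (c - 2 * (10000000 : ℤ) - 1) (c + 2 * (10000000 : ℤ) + 1)).filter
        (fun c1 => c < c1 ∧ s.mt c1 ≠ 0)).card ≤ 1 := by
    rw [Finset.card_le_one]
    intro z hz w hw
    rw [Finset.mem_filter, Finset.mem_Icc] at hz hw
    by_contra hne
    rcases lt_or_gt_of_ne hne with h | h
    · have h3 := hsep z w hz.2.2 hw.2.2 h
      have h4 := hsep c z hc hz.2.2 hz.2.1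
      omega
    · have h3 := hsep w z hw.2.2 hz.2.2 h
      have h4 := hsep c w hc hw.2.2 hw.2.1
      omega
  have h3 := (Finset.card_le_card hsub).trans (Finset.card_union_le _ _)
  omega

/-- marked centres in an interval of length at most `6*(10000000 : ℤ)+400`: at most 5 -/
theorem marked_le {s : St} (hsep : ISep s) (l r : ℤ) (hlr : l ≤ r) (h : r - l ≤ 60000400) :
    ((Finset.Icc l r).filter (fun c => s.mt c ≠ 0)).card ≤ 5 := by
  have h1 := card_sep ((Finset.Icc l r).filter (fun c => s.mt c ≠ 0)) l r 15000000 (by norm_num)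
    hlr (fun x hx => by
      rw [Finset.mem_filter, Finset.mem_Icc] at hx
      exact hx.1) (fun x hx y hy hxy => by
      rw [Finset.mem_filter] at hx hy
      have := hsep x y hx.2 hy.2 hxy
      omega)
  omega

end MP583455
end

section

namespace MP583455

open Classical

/-- all cells of the zone: at most `1221` -/
theorem zc_le (b : Bd) (c : ℤ) : zc b c ≤ 1221 := by
  unfold zc
  have hsub : (Finset.Icc (c - (10000000 : ℤ) - 203) (c + (10000000 : ℤ) + 203)).filter (fun z => Zone c z ∧ b.col z ≠ 0) ⊆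
      Finset.Icc (c - 203) (c + 203) ∪ (Finset.Icc (c - 10000203) (c - 9999797) ∪
        Finset.Icc (c + 9999797) (c + 10000203)) := by
    intro z hz
    rw [Finset.mem_filter, Finset.mem_Icc] at hz
    rw [Finset.mem_union, Finset.mem_union, Finset.mem_Icc, Finset.mem_Icc, Finset.mem_Icc]
    have := hz.2.1
    unfold Zone at this
    omega
  have h1 := Finset.card_le_card hsub
  have h2 := Finset.card_union_le (Finset.Icc (c - 203) (c + 203))
    (Finset.Icc (c - 10000203) (c - 9999797) ∪ Finset.Icc (c + 9999797) (c + 10000203))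
  have h3 := Finset.card_union_le (Finset.Icc (c - 10000203) (c - 9999797))
    (Finset.Icc (c + 9999797) (c + 10000203))
  rw [Int.card_Icc] at h2
  rw [Int.card_Icc, Int.card_Icc] at h3
  omega

/-- zone cells inside the window: at most `1221` -/
theorem zoneW_le (c : ℤ) :
    ((Finset.Icc (c - (10000000 : ℤ)) (c + (10000000 : ℤ))).filter (fun z => Zone c z)).card ≤ 1221 := by
  have hsub : (Finset.Icc (c - (10000000 : ℤ)) (c + (10000000 : ℤ))).filter (fun z => Zone c z) ⊆
      Finset.Icc (c - 203) (c + 203) ∪ (Finset.Icc (c - 10000203) (c - 9999797) ∪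
        Finset.Icc (c + 9999797) (c + 10000203)) := by
    intro z hz
    rw [Finset.mem_filter, Finset.mem_Icc] at hz
    rw [Finset.mem_union, Finset.mem_union, Finset.mem_Icc, Finset.mem_Icc, Finset.mem_Icc]
    have := hz.2
    unfold Zone at this
    omega
  have h1 := Finset.card_le_card hsub
  have h2 := Finset.card_union_le (Finset.Icc (c - 203) (c + 203))
    (Finset.Icc (c - 10000203) (c - 9999797) ∪ Finset.Icc (c + 9999797) (c + 10000203))
  have h3 := Finset.card_union_le (Finset.Icc (c - 10000203) (c - 9999797))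
    (Finset.Icc (c + 9999797) (c + 10000203))
  rw [Int.card_Icc] at h2
  rw [Int.card_Icc, Int.card_Icc] at h3
  omega

end MP583455
end

section

namespace MP583455

open Classical

/-- If nothing changes on `[c-(10000000 : ℤ)-1, c+(10000000 : ℤ)+1]`, the half-cell structure does not change. -/
theorem half_congr {b b' : Bd} {c : ℤ}
    (h : ∀ z, c - (10000000 : ℤ) - 1 ≤ z → z ≤ c + (10000000 : ℤ) + 1 → b'.col z = b.col z) :
    (∀ z, Half b' c z ↔ Half b c z) ∧ (∀ z, HK b' c z ↔ HK b c z) ∧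
    (∀ z, Acc b' c z ↔ Acc b c z) ∧ (One b' c ↔ One b c) ∧ bb b' c = bb b c := by
  have h1 : ∀ z, Half b' c z ↔ Half b c z := by
    intro z
    unfold Half
    constructor
    · rintro ⟨h1, h2, h3, h4, h5⟩
      rw [h z (by omega) (by omega)] at h4
      rw [h (2 * c - z) (by omega) (by omega)] at h5
      exact ⟨h1, h2, h3, h4, h5⟩
    · rintro ⟨h1, h2, h3, h4, h5⟩
      rw [← h z (by omega) (by omega)] at h4
      rw [← h (2 * c - z) (by omega) (by omega)] at h5
      exact ⟨h1, h2, h3, h4, h5⟩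
  have h2 : ∀ z, HK b' c z ↔ HK b c z := by
    intro z
    unfold HK
    rw [h1 z]
    constructor
    · rintro ⟨h3, h4⟩
      have h5 := h3.2.1
      have h6 := h3.2.2.1
      rw [h (z - 1) (by omega) (by omega), h (z + 1) (by omega) (by omega)] at h4
      exact ⟨h3, h4⟩
    · rintro ⟨h3, h4⟩
      have h5 := h3.2.1
      have h6 := h3.2.2.1
      rw [← h (z - 1) (by omega) (by omega), ← h (z + 1) (by omega) (by omega)] at h4
      exact ⟨h3, h4⟩
  have h3 : ∀ z, Acc b' c z ↔ Acc b c z := by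
    intro z
    unfold Acc
    simp only [h1, h2]
  refine ⟨h1, h2, h3, ?_, ?_⟩
  · unfold One
    simp only [h3]
  · unfold bb
    simp only [h1]

end MP583455
end
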