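import Pool.Agent.Lib.MP_583455_co.Mg.G006
import Pool.Agent.Lib.MP_583455_co.Mg.G001

section

namespace MP583455

open Classical

variable {s : St} {y : ℤ} {a : ℕ} {ov : Option (ℤ × ℕ)} {τ : Tag} {rg' : ℤ → ℤ}

private lemma D3b_mem_old (hG : Good s y a ov τ rg') {c z : ℤ}
    (h : ¬ Zone c z ∧ Fx s c z ∧ isFixp (s.tag z)) :
    ¬ Zone c z ∧ Fx (s.ex y a ov τ rg') c z ∧ isFixp ((s.ex y a ov τ rg').tag z) := by
  obtain ⟨h1, ⟨h2, h3, h4, h5, h6⟩, h7⟩ := h
  have hzy : z ≠ y := by
    rintro rfl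
    exact h3.1 hG.hy
  refine ⟨h1, ⟨h2, hG.stA_old h3, ?_, hG.col_ne h5, ?_⟩, ?_⟩
  · rw [ex_mt, ex_tm, hG.tm_old h3.1]; exact h4
  · rw [ex_tm, hG.tm_old h3.1, hG.tm_old h5]; exact h6
  · rw [tag_old hzy]; exact h7

private lemma D3b_mem_new (hC : Core s) (hG : Good s y a ov τ rg') {c z : ℤ}
    (h : ¬ Zone c z ∧ Fx (s.ex y a ov τ rg') c z ∧ isFixp ((s.ex y a ov τ rg').tag z))
    (hzy : z ≠ y) : ¬ Zone c z ∧ Fx s c z ∧ isFixp (s.tag z) := by
  obtain ⟨h1, ⟨h2, h3, h4, h5, h6⟩, h7⟩ := h
  rw [ex_b] at h3 h5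
  rcases hG.stA_cases h3 with h | h3
  · exact absurd h hzy
  have htz := hC.time.2.1 z h3.1
  rw [ex_mt, ex_tm, hG.tm_old h3.1] at h4
  rw [ex_tm, hG.tm_old h3.1] at h6
  rw [tag_old hzy] at h7
  have h5' : s.b.col (2 * c - z) ≠ 0 := by
    rcases col_cases h5 with h | ⟨κ, h⟩ | h
    · rw [h, hG.tm_y] at h6; omega
    · rw [tm_v h] at h6; omega
    · exact h
  rw [hG.tm_old h5'] at h6
  exact ⟨h1, ⟨h2, h3, h4, h5', h6⟩, h7⟩

theorem fpr_ex_le (hC : Core s) (hG : Good s y a ov τ rg') (c : ℤ) :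
    fpr (s.ex y a ov τ rg') c ≤ fpr s c +
      (if ¬ Zone c y ∧ InW c y ∧ y ≠ c ∧ s.b.col (2 * c - y) ≠ 0 ∧ isFixp τ then 1 else 0) := by
  have hsub : (Finset.Icc (c - (10000000 : ℤ)) (c + (10000000 : ℤ))).filter (fun z => ¬ Zone c z ∧
      Fx (s.ex y a ov τ rg') c z ∧ isFixp ((s.ex y a ov τ rg').tag z)) ⊆
      (Finset.Icc (c - (10000000 : ℤ)) (c + (10000000 : ℤ))).filter (fun z => ¬ Zone c z ∧ Fx s c z ∧
        isFixp (s.tag z)) ∪
      (if ¬ Zone c y ∧ InW c y ∧ y ≠ c ∧ s.b.col (2 * c - y) ≠ 0 ∧ isFixp τ then {y} else ∅) := by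
    intro z hz
    rw [Finset.mem_filter, Finset.mem_Icc] at hz
    rw [Finset.mem_union, Finset.mem_filter, Finset.mem_Icc]
    by_cases hzy : z = y
    · right
      subst hzy
      obtain ⟨h0, h1, ⟨h2, h3, h4, h5, h6⟩, h7⟩ := hz
      rw [ex_b] at h5
      rw [ex_tm, hG.tm_y] at h6
      rw [tag_y] at h7
      have h5' : s.b.col (2 * c - z) ≠ 0 := by
        rcases col_cases h5 with h | ⟨κ, h⟩ | h
        · exact absurd h (by omega)
        · rw [tm_v h] at h6; omega
        · exact h
      rw [if_pos ⟨h1, h0, h2, h5', h7⟩]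
      exact Finset.mem_singleton_self _
    · left
      exact ⟨hz.1, D3b_mem_new hC hG hz.2 hzy⟩
  have h1 := (Finset.card_le_card hsub).trans (Finset.card_union_le _ _)
  refine h1.trans (Nat.add_le_add_left ?_ _)
  split_ifs <;> simp

theorem fpr_ex_ge (hC : Core s) (hG : Good s y a ov τ rg') (c : ℤ) :
    fpr s c + (if ¬ Zone c y ∧ InW c y ∧ y ≠ c ∧ s.b.col (2 * c - y) ≠ 0 ∧ isFixp τ
      then 1 else 0) ≤ fpr (s.ex y a ov τ rg') c := by
  by_cases hc : ¬ Zone c y ∧ InW c y ∧ y ≠ c ∧ s.b.col (2 * c - y) ≠ 0 ∧ isFixp τ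
  · rw [if_pos hc]
    have hny : y ∉ (Finset.Icc (c - (10000000 : ℤ)) (c + (10000000 : ℤ))).filter (fun z => ¬ Zone c z ∧ Fx s c z ∧
        isFixp (s.tag z)) := by
      rw [Finset.mem_filter]
      rintro ⟨_, _, h, _⟩
      exact h.2.1.1 hG.hy
    have hsub : insert y ((Finset.Icc (c - (10000000 : ℤ)) (c + (10000000 : ℤ))).filter (fun z => ¬ Zone c z ∧
        Fx s c z ∧ isFixp (s.tag z))) ⊆
        (Finset.Icc (c - (10000000 : ℤ)) (c + (10000000 : ℤ))).filter (fun z => ¬ Zone c z ∧
          Fx (s.ex y a ov τ rg') c z ∧ isFixp ((s.ex y a ov τ rg').tag z)) := by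
      intro z hz
      rw [Finset.mem_insert, Finset.mem_filter] at hz
      rw [Finset.mem_filter]
      rcases hz with rfl | hz
      · obtain ⟨h1, h2, h3, h4, h5⟩ := hc
        refine ⟨Finset.mem_Icc.2 h2, h1, ⟨h3, hG.stA_y, ?_, hG.col_ne h4, ?_⟩, ?_⟩
        · rw [ex_mt, ex_tm, hG.tm_y]; exact hC.time.2.2.2 c
        · rw [ex_tm, hG.tm_y, hG.tm_old h4]; exact hC.time.2.1 _ h4
        · rw [tag_y]; exact h5
      · exact ⟨hz.1, D3b_mem_old hG hz.2⟩
    have h1 := Finset.card_le_card hsub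
    rw [Finset.card_insert_of_notMem hny] at h1
    exact h1
  · rw [if_neg hc, Nat.add_zero]
    apply Finset.card_le_card
    intro z hz
    rw [Finset.mem_filter] at hz ⊢
    exact ⟨hz.1, D3b_mem_old hG hz.2⟩

end MP583455
end

section

namespace MP583455

open Classical

variable {s : St} {y : ℤ} {a : ℕ} {ov : Option (ℤ × ℕ)} {τ : Tag} {rg' : ℤ → ℤ}

theorem D3c_zc (hG : Good s y a ov τ rg') (c : ℤ) :
    zc s.b c ≤ zc (s.ex y a ov τ rg').b c := by
  unfold zc
  refine Finset.card_le_card fun z hz => ?_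
  rw [Finset.mem_filter] at hz ⊢
  exact ⟨hz.1, hz.2.1, hG.col_ne hz.2.2⟩

theorem D3c_dc (hG : Good s y a ov τ rg') (c : ℤ) :
    dc s c ≤ dc (s.ex y a ov τ rg') c := by
  unfold dc
  refine Finset.card_le_card fun z hz => ?_
  rw [Finset.mem_filter] at hz ⊢
  exact ⟨hz.1, hz.2.1, hz.2.2.1, fun h => hz.2.2.2 (hG.alive_old h)⟩

theorem exc_mono (hC : Core s) (hG : Good s y a ov τ rg') (c : ℤ) :
    exc s c ≤ exc (s.ex y a ov τ rg') c := by
  unfold exc
  exact Nat.add_le_add (D3c_zc hG c) (D3c_dc hG c)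

theorem exc_zone (hC : Core s) (hG : Good s y a ov τ rg') {c : ℤ} (hz : Zone c y) :
    exc s c + 1 ≤ exc (s.ex y a ov τ rg') c := by
  have h1 : zc s.b c + 1 ≤ zc (s.ex y a ov τ rg').b c := by
    unfold zc
    refine Nat.succ_le_of_lt (Finset.card_lt_card ?_)
    rw [Finset.ssubset_iff_of_subset]
    · refine ⟨y, ?_, ?_⟩
      · rw [Finset.mem_filter, Finset.mem_Icc]
        refine ⟨?_, hz, hG.stA_y.1⟩
        unfold Zone at hz
        omega
      · rw [Finset.mem_filter]
        rintro ⟨-, -, h⟩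
        exact h hG.hy
    · intro z hz'
      rw [Finset.mem_filter] at hz' ⊢
      exact ⟨hz'.1, hz'.2.1, hG.col_ne hz'.2.2⟩
  have h2 := D3c_dc hG c
  unfold exc
  omega

/-- a kill of another centre nearby: that centre was alive and marked, now it is dead -/
theorem exc_kill (hC : Core s) (hG : Good s y a ov τ rg') {c c1 : ℤ} (hne : c1 ≠ c)
    (hτ : τ = Tag.kill c1) (h1 : c1 - c ≤ 2 * (10000000 : ℤ) + 1) (h2 : c - c1 ≤ 2 * (10000000 : ℤ) + 1) :
    exc s c + 1 ≤ exc (s.ex y a ov τ rg') c := by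
  have ht := hG.tag
  rw [hτ] at ht
  obtain ⟨h3, -, v, κ, hov, hh⟩ := ht
  have hdead : ¬ Alive (bd2 s.b y a ov) c1 := kill_dead hG hov hh
  have h5 : dc s c + 1 ≤ dc (s.ex y a ov τ rg') c := by
    unfold dc
    refine Nat.succ_le_of_lt (Finset.card_lt_card ?_)
    rw [Finset.ssubset_iff_of_subset]
    · refine ⟨c1, ?_, ?_⟩
      · rw [Finset.mem_filter, Finset.mem_Icc]
        exact ⟨⟨by omega, by omega⟩, hne, h3.1, hdead⟩
      · rw [Finset.mem_filter]
        rintro ⟨-, -, -, h⟩
        exact h h3.2.1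
    · intro z hz'
      rw [Finset.mem_filter] at hz' ⊢
      exact ⟨hz'.1, hz'.2.1, hz'.2.2.1, fun h => hz'.2.2.2 (hG.alive_old h)⟩
  have h6 := D3c_zc hG c
  unfold exc
  omega

end MP583455
end

section

namespace MP583455

open Classical

variable {s : St} {y : ℤ} {a : ℕ} {ov : Option (ℤ × ℕ)} {τ : Tag} {rg' : ℤ → ℤ}

/-- half-cells other than `y` stay half-cells -/
private lemma D3d_keep (hG : Good s y a ov τ rg') {c z : ℤ}
    (hal : Alive (bd2 s.b y a ov) c) (h : Half s.b c z) (hzy : z ≠ y) :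
    Half (bd2 s.b y a ov) c z := by
  refine ⟨h.1, h.2.1, h.2.2.1, ?_, hG.col_ne h.2.2.2.2⟩
  apply empty_new h.2.2.2.1 hzy
  intro v κ hov hzv
  have h1 := mirror_empty hG hov hal (c := c) (v := v) (by rw [← hzv]; exact ⟨h.2.1, h.2.2.1⟩)
    (by rw [← hzv]; exact h.1)
  apply h.2.2.2.2
  apply hG.empty_old
  rw [hzv]; exact h1

/-- half-cells other than `y` stay (Bob's stone is not on a half-cell when `c` is alive) -/
theorem bb_ge (hC : Core s) (hG : Good s y a ov τ rg') {c : ℤ}
    (hal : Alive (bd2 s.b y a ov) c) : bb s.b c ≤ bb (bd2 s.b y a ov) c + 1 := by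
  have hsub : (Finset.Icc (c - (10000000 : ℤ)) (c + (10000000 : ℤ))).filter (fun z => Half s.b c z) ⊆
      insert y ((Finset.Icc (c - (10000000 : ℤ)) (c + (10000000 : ℤ))).filter (fun z => Half (bd2 s.b y a ov) c z)) := by
    intro z hz
    rw [Finset.mem_filter] at hz
    rw [Finset.mem_insert, Finset.mem_filter]
    by_cases hzy : z = y
    · exact Or.inl hzy
    · exact Or.inr ⟨hz.1, D3d_keep hG hal hz.2 hzy⟩
  exact (Finset.card_le_card hsub).trans (Finset.card_insert_le _ _)

/-- if `y` is not a half-cell, none is lost -/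
theorem bb_ge' (hC : Core s) (hG : Good s y a ov τ rg') {c : ℤ}
    (hal : Alive (bd2 s.b y a ov) c) (hy : ¬ Half s.b c y) :
    bb s.b c ≤ bb (bd2 s.b y a ov) c := by
  apply Finset.card_le_card
  intro z hz
  rw [Finset.mem_filter] at hz ⊢
  refine ⟨hz.1, D3d_keep hG hal hz.2 ?_⟩
  rintro rfl
  exact hy hz.2

/-- `y` new: the mirror of `y` becomes a half-cell -/
theorem bb_new (hC : Core s) (hG : Good s y a ov τ rg') {c : ℤ}
    (hal : Alive (bd2 s.b y a ov) c) (hW : InW c y) (hyc : y ≠ c)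
    (hm : s.b.col (2 * c - y) = 0) :
    bb s.b c + 1 ≤ bb (bd2 s.b y a ov) c := by
  have hnot : 2 * c - y ∉ (Finset.Icc (c - (10000000 : ℤ)) (c + (10000000 : ℤ))).filter (fun z => Half s.b c z) := by
    rw [Finset.mem_filter]
    rintro ⟨_, h⟩
    apply h.2.2.2.2
    rw [show 2 * c - (2 * c - y) = y by ring]
    exact hG.hy
  have hhalf : Half (bd2 s.b y a ov) c (2 * c - y) := by
    unfold InW at hW
    refine ⟨by omega, by omega, by omega, ?_, ?_⟩
    · apply empty_new hm (by omega)
      intro v κ hov hv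
      have h1 := mirror_empty hG hov hal (c := c) (v := v) (by unfold InW; omega) (by omega)
      rw [show 2 * c - v = y by omega, hG.col_y] at h1
      exact hG.ha h1
    · rw [show 2 * c - (2 * c - y) = y by ring, hG.col_y]
      exact hG.ha
  have hsub : insert (2 * c - y) ((Finset.Icc (c - (10000000 : ℤ)) (c + (10000000 : ℤ))).filter (fun z => Half s.b c z)) ⊆
      (Finset.Icc (c - (10000000 : ℤ)) (c + (10000000 : ℤ))).filter (fun z => Half (bd2 s.b y a ov) c z) := by
    intro z hz
    rw [Finset.mem_insert, Finset.mem_filter] at hz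
    rw [Finset.mem_filter]
    rcases hz with rfl | hz
    · exact ⟨Finset.mem_Icc.2 ⟨hhalf.2.1, hhalf.2.2.1⟩, hhalf⟩
    · refine ⟨hz.1, D3d_keep hG hal hz.2 ?_⟩
      rintro rfl
      exact hz.2.2.2.2.2 hm
  have h1 := Finset.card_le_card hsub
  rw [Finset.card_insert_of_notMem hnot] at h1
  exact h1

/-- `y` a fix and Bob replies inside the window (not at the centre): the mirror of `v` is a new
half-cell -/
theorem bb_fix (hC : Core s) (hG : Good s y a ov τ rg') {c v : ℤ} {κ : ℕ}
    (hal : Alive (bd2 s.b y a ov) c) (hov : ov = some (v, κ)) (hW : InW c v) (hvc : v ≠ c) :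
    bb s.b c ≤ bb (bd2 s.b y a ov) c := by
  have hmv := mirror_empty hG hov hal hW hvc
  have hnot : 2 * c - v ∉
      ((Finset.Icc (c - (10000000 : ℤ)) (c + (10000000 : ℤ))).filter (fun z => Half s.b c z)).erase y := by
    rw [Finset.mem_erase, Finset.mem_filter]
    rintro ⟨_, _, h⟩
    apply h.2.2.2.2
    rw [show 2 * c - (2 * c - v) = v by ring]
    exact hG.v_empty hov
  have hhalf : Half (bd2 s.b y a ov) c (2 * c - v) := by
    unfold InW at hW
    refine ⟨by omega, by omega, by omega, hmv, ?_⟩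
    rw [show 2 * c - (2 * c - v) = v by ring, col_v hov]
    exact hG.kpos hov
  have hsub : insert (2 * c - v)
      (((Finset.Icc (c - (10000000 : ℤ)) (c + (10000000 : ℤ))).filter (fun z => Half s.b c z)).erase y) ⊆
      (Finset.Icc (c - (10000000 : ℤ)) (c + (10000000 : ℤ))).filter (fun z => Half (bd2 s.b y a ov) c z) := by
    intro z hz
    rw [Finset.mem_insert, Finset.mem_erase, Finset.mem_filter] at hz
    rw [Finset.mem_filter]
    rcases hz with rfl | hz
    · exact ⟨Finset.mem_Icc.2 ⟨hhalf.2.1, hhalf.2.2.1⟩, hhalf⟩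
    · exact ⟨hz.2.1, D3d_keep hG hal hz.2.2 hz.1⟩
  have h1 := Finset.card_le_card hsub
  rw [Finset.card_insert_of_notMem hnot] at h1
  have h2 := Finset.pred_card_le_card_erase (a := y)
    (s := (Finset.Icc (c - (10000000 : ℤ)) (c + (10000000 : ℤ))).filter (fun z => Half s.b c z))
  unfold bb
  omega

end MP583455
end

section

namespace MP583455

open Classical

variable {s : St} {y : ℤ} {a : ℕ} {ov : Option (ℤ × ℕ)} {τ : Tag} {rg' : ℤ → ℤ}

/-- PROOF by the cases of `hG.kind` (or `Zone c y`):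
* `Zone c y`: `exc` grows by one (`exc_zone`), `fpr` does not change, `oneI ≤ 1`.
* `τ = kill c1`: if `c1 = c` then `c` is dead (`kill_dead`), else if near `exc_kill`
  (`fpr` unchanged since `τ` is not `fixp`), else `no_change`.
* region of another centre, or `y` outside the window: `no_change`, `half_congr`.
* local reply, `y` in the window: `one_local`; `τ` is not `fixp` since `ov ≠ none` (`hG.tag`).
* pass, `y` in the window: `not_one_pass`; if `y` is a fix (`s.b.col (2c-y) ≠ 0`), use
  `one_pass_fix`: `oneI` drops from 1 to 0 and `fpr` grows by at most 1; otherwise `fpr` is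
  unchanged. -/
theorem p_aut (hC : Core s) (hG : Good s y a ov τ rg') : IAut (s.ex y a ov τ rg') := by
  intro c h0'
  have h0 := hG.hot0_old h0'
  have hal : Alive (bd2 s.b y a ov) c := h0'.2.1
  have old := hC.aut c h0
  have hf := fpr_ex_le hC hG c
  have hm := exc_mono hC hG c
  have hone : oneI (s.ex y a ov τ rg').b c ≤ 1 := by
    unfold oneI; split_ifs <;> omega
  have hnofix : ∀ v κ, ov = some (v, κ) → ¬ isFixp τ := by
    intro v κ hov hfx
    obtain ⟨c', hc'⟩ := hfx
    have := hG.tag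
    rw [hc'] at this
    obtain ⟨_, h, _⟩ := this
    rw [hov] at h
    exact absurd h (by simp)
  have hsame : (¬ InW c y) → (∀ z, c - (10000000 : ℤ) - 1 ≤ z → z ≤ c + (10000000 : ℤ) + 1 →
      (bd2 s.b y a ov).col z = s.b.col z) →
      fpr (s.ex y a ov τ rg') c + oneI (s.ex y a ov τ rg').b c ≤
        exc (s.ex y a ov τ rg') c + 1 := by
    intro hW hc
    have h1 := (half_congr hc).2.2.2.1
    have h2 : oneI (s.ex y a ov τ rg').b c = oneI s.b c := by
      rw [ex_b]
      unfold oneI
      by_cases hO : One s.b c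
      · rw [if_pos hO, if_pos (h1.mpr hO)]
      · rw [if_neg hO, if_neg (fun h => hO (h1.mp h))]
    rw [if_neg (fun h => hW h.2.1)] at hf
    rw [h2]
    omega
  by_cases hz : Zone c y
  · rw [if_neg (fun h => h.1 hz)] at hf
    have := exc_zone hC hG hz
    omega
  · rcases hG.kind c h0 hz with ⟨c1, hτ⟩ | ⟨c1, hc1, hI1⟩ | ⟨v, κ, hov, hd1, hd2, hconn⟩ |
      ⟨hov, hno⟩
    · have hP : ¬ isFixp τ := by
        rintro ⟨c', hc'⟩
        rw [hτ] at hc'
        exact absurd hc' (by simp)
      by_cases hcc : c1 = c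
      · subst hcc
        have := hG.tag
        rw [hτ] at this
        obtain ⟨_, _, v, κ, hov, hh⟩ := this
        exact absurd hal (kill_dead hG hov hh)
      · by_cases hnear : c1 - c ≤ 2 * (10000000 : ℤ) + 1 ∧ c - c1 ≤ 2 * (10000000 : ℤ) + 1
        · have := exc_kill hC hG hcc hτ hnear.1 hnear.2
          rw [if_neg (fun h => hP h.2.2.2.2)] at hf
          omega
        · obtain ⟨hW, hc⟩ := no_change hC hG h0 hz
            (Or.inl ⟨c1, hτ, by
              by_cases h : c1 - c ≤ 2 * (10000000 : ℤ) + 1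
              · right
                by_contra hle
                exact hnear ⟨h, not_lt.mp hle⟩
              · left; exact not_le.mp h⟩)
          exact hsame hW hc
    · obtain ⟨hW, hc⟩ := no_change hC hG h0 hz (Or.inr (Or.inl ⟨c1, hc1, hI1⟩))
      exact hsame hW hc
    · by_cases hW : InW c y
      · rw [if_neg (fun h => hnofix v κ hov h.2.2.2.2)] at hf
        have hol := one_local hC hG h0 hal hz hW hov hd1 hd2 hconn
        have : oneI (s.ex y a ov τ rg').b c ≤ oneI s.b c := by
          rw [ex_b]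
          unfold oneI
          by_cases hO : One (bd2 s.b y a ov) c
          · rw [if_pos hO, if_pos (hol hO)]
          · rw [if_neg hO]; exact Nat.zero_le _
        omega
      · obtain ⟨hW', hc⟩ := no_change hC hG h0 hz (Or.inr (Or.inr ⟨hW, by
          intro v' κ' h'
          rw [hov] at h'
          simp only [Option.some.injEq, Prod.mk.injEq] at h'
          rw [← h'.1]
          exact ⟨hd1, hd2⟩⟩))
        exact hsame hW' hc
    · by_cases hW : InW c y
      · have hno' := hno hW
        have hO : oneI (s.ex y a ov τ rg').b c = 0 := by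
          rw [ex_b, hov, bd2_none]
          unfold oneI
          rw [if_neg (not_one_pass hno')]
        by_cases hmc : s.b.col (2 * c - y) = 0
        · rw [if_neg (fun h => h.2.2.2.1 hmc)] at hf
          omega
        · have h1 := (one_pass_fix hC h0 hG.hy hG.ha hz hW hmc hno').1
          have h2 : oneI s.b c = 1 := by
            unfold oneI; rw [if_pos h1]
          have h3 : fpr (s.ex y a ov τ rg') c ≤ fpr s c + 1 := by
            refine le_trans hf ?_
            split_ifs <;> omega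
          omega
      · obtain ⟨hW', hc⟩ := no_change hC hG h0 hz (Or.inr (Or.inr ⟨hW, by
          intro v' κ' h'
          rw [hov] at h'
          exact absurd h' (by simp)⟩))
        exact hsame hW' hc

end MP583455
end

section

namespace MP583455

open Classical

variable {s : St} {y : ℤ} {a : ℕ} {ov : Option (ℤ × ℕ)} {τ : Tag} {rg' : ℤ → ℤ}

/-- PROOF by the same cases: `nn` grows by 1 only if `y` is new, then `bb_new`.
If `y` is a fix (in the window, mirror coloured, hence of colour `a` by `mirror_y`): zone: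
`exc_zone`, `bb_ge`; kill of another centre `c1`: if near `exc_kill` + `bb_ge`, if far `y` is not
in the window; local reply: `bb_fix`; pass: `hG.fixpass` gives `isFixp τ`, so `fpr` grows by 1,
`bb_ge`.  Otherwise `bb_ge'`. -/
theorem p_bal (hC : Core s) (hG : Good s y a ov τ rg') : IBal (s.ex y a ov τ rg') := by
  intro c h0'
  have h0 := hG.hot0_old h0'
  have hal : Alive (bd2 s.b y a ov) c := h0'.2.1
  have old := hC.bal c h0
  have hnn := nn_ex hC hG c
  have hf := fpr_ex_ge hC hG c
  have hm := exc_mono hC hG c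
  have hb := b0_ex hC hG c
  have hf0 : fpr s c ≤ fpr (s.ex y a ov τ rg') c := le_trans (Nat.le_add_right _ _) hf
  rw [ex_b, hb]
  by_cases hA : InW c y ∧ y ≠ c ∧ s.b.col (2 * c - y) = 0
  · rw [if_pos hA] at hnn
    have := bb_new hC hG hal hA.1 hA.2.1 hA.2.2
    omega
  · rw [if_neg hA] at hnn
    by_cases hH : Half s.b c y
    · have hW : InW c y := ⟨hH.2.1, hH.2.2.1⟩
      have hbb := bb_ge hC hG hal
      by_cases hz : Zone c y
      · have := exc_zone hC hG hz
        omega
      · rcases hG.kind c h0 hz with ⟨c1, hτ⟩ | ⟨c1, hc1, hI1⟩ | ⟨v, κ, hov, hd1, hd2, hconn⟩ |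
          ⟨hov, hno⟩
        · by_cases hcc : c1 = c
          · subst hcc
            have := hG.tag
            rw [hτ] at this
            obtain ⟨_, _, v, κ, hov, hh⟩ := this
            exact absurd hal (kill_dead hG hov hh)
          · by_cases hnear : c1 - c ≤ 2 * (10000000 : ℤ) + 1 ∧ c - c1 ≤ 2 * (10000000 : ℤ) + 1
            · have := exc_kill hC hG hcc hτ hnear.1 hnear.2
              omega
            · obtain ⟨hW', _⟩ := no_change hC hG h0 hz
                (Or.inl ⟨c1, hτ, by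
                  by_cases h : c1 - c ≤ 2 * (10000000 : ℤ) + 1
                  · right
                    by_contra hle
                    exact hnear ⟨h, not_lt.mp hle⟩
                  · left; exact not_le.mp h⟩)
              exact absurd hW hW'
        · obtain ⟨hW', _⟩ := no_change hC hG h0 hz (Or.inr (Or.inl ⟨c1, hc1, hI1⟩))
          exact absurd hW hW'
        · have hz' : ¬ ((y - c).natAbs ≤ 203 ∨
              (9999797 ≤ (y - c).natAbs ∧ (y - c).natAbs ≤ 10000203)) := hz
          have hW2 : c - 10000000 ≤ y ∧ y ≤ c + 10000000 := hW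
          have hvW : InW c v := by
            unfold InW
            constructor <;> omega
          have := bb_fix hC hG hal hov hvW (by omega)
          omega
        · have hmc := mirror_y hG hal hW hH.2.2.2.2
          have hfx := hG.fixpass hov c h0 hW hH.1 hmc
          rw [if_pos ⟨hz, hW, hH.1, hH.2.2.2.2, hfx⟩] at hf
          omega
    · have := bb_ge' hC hG hal hH
      omega

end MP583455
end
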