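import Pool.Agent.Lib.MP_583455_co.Mg.G001

section

namespace MP583455

open Classical

/-- Accessible cells stay accessible when `y` gets coloured.
PROOF: let `k` be the killable end of the path from `z`. If `y` is not on the path, all path
cells are still half-cells of `b'`. If `y` is on the path let `k'` be the neighbour of `y` on the
path on the side of `z`; it has the coloured neighbour `y` in `b'`. -/
theorem acc_keep {b b' : Bd} {c y z : ℤ}
    (hmono : ∀ u, b.col u ≠ 0 → b'.col u ≠ 0)
    (hhalf : ∀ u, Half b c u → u ≠ y → b'.col u = 0)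
    (hy : b'.col y ≠ 0) (hz : Acc b c z) (hzy : z ≠ y) : Acc b' c z := by
  obtain ⟨k, hk, hp⟩ := hz
  have hh : ∀ u, Half b c u → u ≠ y → Half b' c u := by
    intro u hu huy
    exact ⟨hu.1, hu.2.1, hu.2.2.1, hhalf u hu huy, hmono _ hu.2.2.2.2⟩
  by_cases hyp : min z k ≤ y ∧ y ≤ max z k
  · rcases lt_or_gt_of_ne hzy with h1 | h1
    · -- `z < y`
      refine ⟨y - 1, ⟨hh _ (hp _ (by omega) (by omega)) (by omega), Or.inr ?_⟩, ?_⟩
      · have : y - 1 + 1 = y := by ring
        rw [this]
        exact hy
      · intro j hj1 hj2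
        exact hh j (hp j (by omega) (by omega)) (by omega)
    · refine ⟨y + 1, ⟨hh _ (hp _ (by omega) (by omega)) (by omega), Or.inl ?_⟩, ?_⟩
      · have : y + 1 - 1 = y := by ring
        rw [this]
        exact hy
      · intro j hj1 hj2
        exact hh j (hp j (by omega) (by omega)) (by omega)
  · refine ⟨k, ⟨hh k hk.1 (by rintro rfl; exact hyp ⟨min_le_right _ _, le_max_right _ _⟩), ?_⟩, ?_⟩
    · rcases hk.2 with h1 | h1
      · exact Or.inl (hmono _ h1)
      · exact Or.inr (hmono _ h1)
    · intro j hj1 hj2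
      exact hh j (hp j hj1 hj2) (by rintro rfl; exact hyp ⟨hj1, hj2⟩)

/-- an accessible cell yields a killable one -/
theorem hk_of_acc {b : Bd} {c z : ℤ} (h : Acc b c z) : ∃ k, HK b c k := by
  obtain ⟨k, hk, _⟩ := h
  exact ⟨k, hk⟩

theorem half_of_acc {b : Bd} {c z : ℤ} (h : Acc b c z) : Half b c z := by
  obtain ⟨k, hk, h2⟩ := h
  exact h2 z (min_le_left _ _) (le_max_left _ _)

theorem acc_of_hk {b : Bd} {c z : ℤ} (h : HK b c z) : Acc b c z := by
  refine ⟨z, h, fun j h1 h2 => ?_⟩
  simp only [min_self, max_self] at h1 h2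
  have : j = z := le_antisymm h2 h1
  rw [this]; exact h.1

end MP583455
end

section

namespace MP583455

open Classical

/-- PROOF: let `u0` be the cell of `[u, v)` (from `u` towards `v`) closest to `v` with coloured
mirror.  Then the mirrors of the cells strictly after `u0` up to `v` are empty, hence half-cells,
and the first one has the coloured neighbour `2c - u0`. Induct on `|v - u|`. -/
theorem acc_mirror {b : Bd} {c u v : ℤ} (huv : u ≠ v)
    (hW : ∀ z, min u v ≤ z → z ≤ max u v → InW c z ∧ z ≠ c ∧ b.col z ≠ 0)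
    (hmu : b.col (2 * c - u) ≠ 0) (hmv : b.col (2 * c - v) = 0) :
    Acc b c (2 * c - v) := by
  obtain ⟨n, hn⟩ : ∃ n : ℕ, (v - u).natAbs = n := ⟨_, rfl⟩
  induction n using Nat.strong_induction_on generalizing u with
  | _ n ih =>
    -- the neighbour of `u` on the side of `v`
    obtain ⟨u', hu'⟩ : ∃ u' : ℤ, (u < v ∧ u' = u + 1) ∨ (v < u ∧ u' = u - 1) := by
      rcases lt_or_gt_of_ne huv with h | h
      · exact ⟨u + 1, Or.inl ⟨h, rfl⟩⟩
      · exact ⟨u - 1, Or.inr ⟨h, rfl⟩⟩
    by_cases hall : ∀ z, min u' v ≤ z → z ≤ max u' v → b.col (2 * c - z) = 0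
    · -- all mirrors are empty
      have hhalf : ∀ z, min u' v ≤ z → z ≤ max u' v → Half b c (2 * c - z) := by
        intro z h1 h2
        obtain ⟨h3, h4, h5⟩ := hW z (by omega) (by omega)
        unfold InW at h3
        refine ⟨by omega, by omega, by omega, hall z h1 h2, ?_⟩
        have : 2 * c - (2 * c - z) = z := by ring
        rw [this]
        exact h5
      refine ⟨2 * c - u', ⟨hhalf u' (by omega) (by omega), ?_⟩, ?_⟩
      · rcases hu' with ⟨h1, h2⟩ | ⟨h1, h2⟩
        · right
          have : 2 * c - u' + 1 = 2 * c - u := by omega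
          rw [this]
          exact hmu
        · left
          have : 2 * c - u' - 1 = 2 * c - u := by omega
          rw [this]
          exact hmu
      · intro j h1 h2
        have h3 := hhalf (2 * c - j) (by omega) (by omega)
        have : 2 * c - (2 * c - j) = j := by ring
        rwa [this] at h3
    · push Not at hall
      obtain ⟨z, h1, h2, h3⟩ := hall
      have hzv : z ≠ v := by
        rintro rfl
        exact h3 hmv
      refine ih (v - z).natAbs ?_ hzv (fun w h4 h5 => hW w (by omega) (by omega)) h3 rfl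
      omega

end MP583455
end

section

namespace MP583455

open Classical

/-- An isolated half-cell away from centre and rim has a half-cell neighbour.
PROOF: `w = 2c - z` is coloured. If both neighbours of `w` were empty, `hC.safe.finR w` gives
`Mid s.b w`, so `hC.iso` marks `w`; `hC.sep` with `|w - c| ≤ (10000000 : ℤ)` gives `w = c`, contradiction.
So `w-1` or `w+1` is coloured and `z+1` resp. `z-1` is a half-cell. -/
theorem half_run {s : St} (hC : Core s) {c z : ℤ} (h0 : Hot0 s c) (hz : Half s.b c z)
    (h1 : s.b.col (z - 1) = 0) (h2 : s.b.col (z + 1) = 0)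
    (h3 : 2 ≤ (z - c).natAbs) (h4 : (z - c).natAbs ≤ 9999999) :
    Half s.b c (z - 1) ∨ Half s.b c (z + 1) := by
  obtain ⟨hzc, hz1, hz2, hz3, hz4⟩ := hz
  have hmz : s.mt c ≠ 0 := h0.1
  -- `w = 2c - z` has a coloured neighbour
  have hkey : s.b.col (2 * c - z - 1) ≠ 0 ∨ s.b.col (2 * c - z + 1) ≠ 0 := by
    by_contra hcon
    push Not at hcon
    rcases hC.safe.finR (2 * c - z) hz4 hcon.2 with h5 | h5
    · exact h5.1 hcon.1
    · have h6 := hC.iso (2 * c - z) ⟨h5.1, h5.2.1⟩ hcon.1 hcon.2
      rcases lt_trichotomy c (2 * c - z) with h7 | h7 | h7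
      · have := hC.sep c (2 * c - z) hmz h6 h7
        omega
      · omega
      · have := hC.sep (2 * c - z) c h6 hmz h7
        omega
  rcases hkey with h5 | h5
  · right
    refine ⟨by omega, by omega, by omega, h2, ?_⟩
    have e : 2 * c - (z + 1) = 2 * c - z - 1 := by ring
    rw [e]; exact h5
  · left
    refine ⟨by omega, by omega, by omega, h1, ?_⟩
    have e : 2 * c - (z - 1) = 2 * c - z + 1 := by ring
    rw [e]; exact h5

end MP583455
end
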