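import Pool.Agent.Lib.MP_583455_co.Mg.G001
import Pool.Agent.Lib.MP_583455_co.Mg.G005

section

namespace MP583455

open Classical

variable {s : St} {y : ℤ} {a : ℕ} {ov : Option (ℤ × ℕ)} {τ : Tag} {rg' : ℤ → ℤ}

/-- a cell of the window whose mirror carries Bob's fresh reply is not alive-matching -/
theorem P2b_core (hG : Good s y a ov τ rg') {c v : ℤ} {κ : ℕ} (h : ov = some (v, κ))
    (hw : InW c v) (hvc : v ≠ c) (hm : (s.b.put y a false).col (2 * c - v) ≠ 0) :
    ¬ Alive (bd2 s.b y a ov) c := by
  have hfr := (hG.rep v κ h).2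
  have hnear : Near (s.b.put y a false) v (2 * c - v) := by
    unfold InW at hw
    exact near_of_close (by omega) (by omega)
  have h1 := hfr.2 _ hm hnear
  have h2 : (bd2 s.b y a ov).col (2 * c - v) = (s.b.put y a false).col (2 * c - v) := by
    rw [h, bd2_some, put_col, if_neg (by omega)]
  have h3 : (bd2 s.b y a ov).col v = κ := col_v h
  refine not_alive_of_ne (z := v) hw ?_ ?_ ?_
  · rw [h3]; exact hG.kpos h
  · rw [h2]; exact hm
  · rw [h3, h2]; exact h1.symm

/-- Bob's reply on a half-cell `v` of `c` with a fresh colour kills `c`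
(`not_alive_of_ne`, the mirror `2*c-v` is within distance `2*(10000000 : ℤ)`, hence near). -/
theorem kill_dead (hG : Good s y a ov τ rg') {c v : ℤ} {κ : ℕ} (h : ov = some (v, κ))
    (hh : Half (s.b.put y a false) c v) : ¬ Alive (bd2 s.b y a ov) c :=
  P2b_core hG h ⟨hh.2.1, hh.2.2.1⟩ hh.1 hh.2.2.2.2

/-- uniqueness: a new kill of `c` needs `Hot0 s c`, so `c` was alive, so no older stone has tag
`kill c`. Death persists (`Good.alive_old`). -/
theorem p_kill (hC : Core s) (hG : Good s y a ov τ rg') : IKill (s.ex y a ov τ rg') := by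
  have hnew : ∀ c, τ = Tag.kill c → Hot0 s c ∧ InW c y ∧ ¬ Alive (bd2 s.b y a ov) c := by
    intro c hc
    have h2 := hG.tag
    rw [hc] at h2
    obtain ⟨h3, h4, v, κ, h5, h6⟩ := h2
    exact ⟨h3, h4, kill_dead hG h5 h6⟩
  constructor
  · intro w c hw ht
    rw [ex_b] at hw
    rw [ex_mt, ex_b]
    rcases hG.stA_cases hw with h1 | h1
    · subst h1
      rw [tag_y] at ht
      obtain ⟨h3, h4, h5⟩ := hnew c ht
      exact ⟨h3.1, h5, h4⟩
    · have hzy : w ≠ y := by
        rintro rfl
        exact h1.1 hG.hy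
      rw [tag_old hzy] at ht
      obtain ⟨h3, h4, h5⟩ := hC.kill.1 w c h1 ht
      exact ⟨h3, fun h6 => h4 (hG.alive_old h6), h5⟩
  · intro w w' c hw hw' ht ht'
    rw [ex_b] at hw hw'
    rcases hG.stA_cases hw with h1 | h1 <;> rcases hG.stA_cases hw' with h1' | h1'
    · rw [h1, h1']
    · exfalso
      subst h1
      rw [tag_y] at ht
      have hzy : w' ≠ w := by
        rintro rfl
        exact h1'.1 hG.hy
      rw [tag_old hzy] at ht'
      exact (hC.kill.1 w' c h1' ht').2.1 (hnew c ht).1.2.1
    · exfalso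
      subst h1'
      rw [tag_y] at ht'
      have hzy : w ≠ w' := by
        rintro rfl
        exact h1.1 hG.hy
      rw [tag_old hzy] at ht
      exact (hC.kill.1 w c h1 ht).2.1 (hnew c ht').1.2.1
    · have hzy : w ≠ y := by
        rintro rfl
        exact h1.1 hG.hy
      have hzy' : w' ≠ y := by
        rintro rfl
        exact h1'.1 hG.hy
      rw [tag_old hzy] at ht
      rw [tag_old hzy'] at ht'
      exact hC.kill.2 w w' c h1 h1' ht ht'

/-- the mirror of Bob's reply is empty for every centre which is still alive -/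
theorem mirror_empty (hG : Good s y a ov τ rg') {c v : ℤ} {κ : ℕ} (h : ov = some (v, κ))
    (hal : Alive (bd2 s.b y a ov) c) (hw : InW c v) (hvc : v ≠ c) :
    (bd2 s.b y a ov).col (2 * c - v) = 0 := by
  by_contra hne
  refine P2b_core hG h hw hvc ?_ hal
  rw [h, bd2_some, put_col, if_neg (by omega)] at hne
  exact hne

/-- the mirror of `y`, if coloured (before), has colour `a` for centres still alive -/
theorem mirror_y (hG : Good s y a ov τ rg') {c : ℤ}
    (hal : Alive (bd2 s.b y a ov) c) (hw : InW c y) (hm : s.b.col (2 * c - y) ≠ 0) :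
    s.b.col (2 * c - y) = a := by
  have h1 := hal y hw.1 hw.2 (by rw [hG.col_y]; exact hG.ha) (hG.col_ne hm)
  rw [hG.col_y, hG.col_old hm] at h1
  exact h1.symm

end MP583455
end

section

namespace MP583455

open Classical

variable {s : St} {y : ℤ} {a : ℕ} {ov : Option (ℤ × ℕ)} {τ : Tag} {rg' : ℤ → ℤ}

/-- LOCAL REPLY: a regular exchange inside the window never creates exactly one accessible
half-cell out of another situation.
PROOF. Write `b = s.b`, `b1 = b.put y a false`, `b2` = new board, `m z = 2c - z`.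
`c` is alive for `b2`, so `b2.col (m v) = 0` (`mirror_empty`; note `|v-c| ≥ 4`,
`|v - c| ≤ (10000000 : ℤ) - 4`) so `m v` is a half-cell of `b2`, and `v` is not a half-cell of `b`.
Assume `One b2 c`; show `One b c`, i.e. exclude (Z) no `Acc b c` cell, (T) two different ones.
All `Half b c u` with `u ≠ y` stay half-cells of `b2` (`acc_keep` with `b' = b2` applies).
(T) `z1 ≠ z2` accessible for `b`.  If `y` is not one of them, both stay accessible for `b2` -
contradiction to `One b2 c`.  If `y = z1`: `y` is a half-cell of `b`, so `m y` is coloured;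
`z2` stays accessible; `m v` is accessible for `b2` by `acc_mirror` (with `u = y`, all cells from
`y` to `v` are coloured in `b2`); `m v ≠ z2` since `m z2` is coloured in `b` but `v` is empty in
`b`. Contradiction.
(Z) Case `m y` coloured in `b` (so `y` is a half-cell of `b`, not killable, so `y±1` are empty in
`b`): `half_run` gives a half-cell `y' = y ± 1` of `b`; `y' ≠ v` (v is not a half-cell), so
`y'` is killable in `b2`; `m v` is accessible in `b2` by `acc_mirror`; `m v ≠ y'` since
`m y'` is coloured in `b`. Contradiction to `One b2 c`.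
Case `m y` empty in `b`: `m y ≠ v` (otherwise `m v = y` coloured in `b2`), so `m y` and `m v` are
two different half-cells of `b2`.  If some cell `u` strictly between `y` and `v` has `b2.col (m u) ≠ 0`
then `acc_mirror` (applied to `u, v` and to `u, y`) makes both accessible - contradiction.
Otherwise all `m u`, `u` between `y` and `v` (inclusive), are half-cells of `b2` and `m y, m v` are
connected: if one of them is accessible, both are - contradiction.  So neither is accessible.
Let `z0` be the accessible cell of `b2` with path to the killable `k` (of `b2`). All cells of the path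
are accessible for `b2`, so they are different from `m y, m v`, hence they are half-cells of `b`
(their mirrors are coloured in `b`, since the mirror is neither `y` nor `v`).  `k` is not killable in
`b` (else `Acc b c k`), so its coloured neighbour in `b2` is `y` or `v`, so `|k - c| ≥ 3`,
`|k-c| ≤ (10000000 : ℤ)-3`, both neighbours of `k` are empty in `b`, and `half_run` gives another half-cell
`k' = k ± 1` of `b`, `k' ≠ y` (m y is empty in b), `k' ≠ v`; so `k'` is a half-cell of `b2` and
both `k`, `k'` are accessible for `b2`. Contradiction to `One b2 c`. -/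
theorem one_local (hC : Core s) (hG : Good s y a ov τ rg') {c v : ℤ} {κ : ℕ}
    (h0 : Hot0 s c) (hal : Alive (bd2 s.b y a ov) c) (hz : ¬ Zone c y) (hW : InW c y)
    (hov : ov = some (v, κ)) (hd1 : v - y ≤ (200 : ℤ)) (hd2 : y - v ≤ (200 : ℤ))
    (hconn : Conn (s.b.put y a false) y v)
    (h1 : One (bd2 s.b y a ov) c) : One s.b c := by
  have hκ := hG.kpos hov
  have hvy := hG.v_ne_y hov
  have hbv := hG.v_empty hov
  have hby := hG.hy
  have hyc : 204 ≤ (y - c).natAbs ∧ (y - c).natAbs ≤ 9999796 := by
    unfold Zone at hz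
    unfold InW at hW
    omega
  obtain ⟨hy1, hy2⟩ := hyc
  have hvW : InW c v := by
    unfold InW
    omega
  have hvc : v ≠ c := by omega
  have hmv : (bd2 s.b y a ov).col (2 * c - v) = 0 := mirror_empty hG hov hal hvW hvc
  have hBv : (bd2 s.b y a ov).col v = κ := col_v hov
  have hBy : (bd2 s.b y a ov).col y = a := hG.col_y
  have hbmv : s.b.col (2 * c - v) = 0 := hG.empty_old hmv
  have hseg : ∀ z, min y v ≤ z → z ≤ max y v →
      InW c z ∧ z ≠ c ∧ (bd2 s.b y a ov).col z ≠ 0 := by
    intro z h2 h3
    refine ⟨?_, ?_, ?_⟩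
    · unfold InW
      omega
    · omega
    · by_cases hzv : z = v
      · rw [hzv, hBv]; exact hκ
      · have h4 := hconn.2 z h2 h3 hzv
        rw [hov, bd2_some, put_col, if_neg hzv]
        exact h4
  have hkeep : ∀ u, Half s.b c u → u ≠ y → Half (bd2 s.b y a ov) c u := by
    intro u hu huy
    have huv : u ≠ v := by
      intro h
      apply hu.2.2.2.2
      rw [h]; exact hbmv
    refine ⟨hu.1, hu.2.1, hu.2.2.1, ?_, hG.col_ne hu.2.2.2.2⟩
    apply empty_new hu.2.2.2.1 huy
    intro v' κ' h
    rw [hov, Option.some.injEq, Prod.mk.injEq] at h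
    rw [← h.1]; exact huv
  have hacc : ∀ z, Acc s.b c z → z ≠ y → Acc (bd2 s.b y a ov) c z := by
    intro z hz1 hz2
    refine acc_keep (fun u hu => hG.col_ne hu) (fun u hu huy => (hkeep u hu huy).2.2.2.1) ?_ hz1 hz2
    rw [hBy]; exact hG.ha
  have hmirv : s.b.col (2 * c - y) ≠ 0 → Acc (bd2 s.b y a ov) c (2 * c - v) := by
    intro h
    exact acc_mirror (Ne.symm hvy) hseg (hG.col_ne h) hmv
  have huniq : ∀ z1 z2, Acc s.b c z1 → Acc s.b c z2 → z1 ≠ y → z1 = z2 := by
    intro z1 z2 ha1 ha2 hne
    by_cases h2 : z2 = y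
    · exfalso
      have hh := half_of_acc ha2
      rw [h2] at hh
      have h3 := hmirv hh.2.2.2.2
      have h4 := h1.2 _ _ (hacc z1 ha1 hne) h3
      have h5 := (half_of_acc ha1).2.2.2.2
      rw [h4, show 2 * c - (2 * c - v) = v by ring] at h5
      exact h5 hbv
    · exact h1.2 _ _ (hacc z1 ha1 hne) (hacc z2 ha2 h2)
  refine ⟨?_, ?_⟩
  · by_contra hno
    push Not at hno
    have hnk : ∀ k, ¬ HK s.b c k := fun k hk => hno k (acc_of_hk hk)
    by_cases hmy : s.b.col (2 * c - y) = 0
    · -- the mirror of `y` is empty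
      have hmyv : 2 * c - y ≠ v := by
        intro h
        rw [show 2 * c - v = y by omega, hBy] at hmv
        exact hG.ha hmv
      have hBmy : (bd2 s.b y a ov).col (2 * c - y) = 0 := by
        apply empty_new hmy (by omega)
        intro v' κ' h
        rw [hov, Option.some.injEq, Prod.mk.injEq] at h
        rw [← h.1]; exact hmyv
      by_cases hex : ∃ u, min y v ≤ u ∧ u ≤ max y v ∧ (bd2 s.b y a ov).col (2 * c - u) ≠ 0
      · obtain ⟨u, hu1, hu2, hu3⟩ := hex
        have huy : u ≠ y := by rintro rfl; exact hu3 hBmy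
        have huv : u ≠ v := by rintro rfl; exact hu3 hmv
        have e1 : Acc (bd2 s.b y a ov) c (2 * c - v) :=
          acc_mirror huv (fun z h2 h3 => hseg z (by omega) (by omega)) hu3 hmv
        have e2 : Acc (bd2 s.b y a ov) c (2 * c - y) :=
          acc_mirror huy (fun z h2 h3 => hseg z (by omega) (by omega)) hu3 hBmy
        have := h1.2 _ _ e1 e2
        omega
      · push Not at hex
        have hhs : ∀ j, min (2 * c - y) (2 * c - v) ≤ j → j ≤ max (2 * c - y) (2 * c - v) →
            Half (bd2 s.b y a ov) c j := by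
          intro j h2 h3
          have h4 := hseg (2 * c - j) (by omega) (by omega)
          have h5 := hex (2 * c - j) (by omega) (by omega)
          rw [show 2 * c - (2 * c - j) = j by ring] at h5
          have h6 := h4.1
          unfold InW at h6
          exact ⟨by omega, by omega, by omega, h5, h4.2.2⟩
        have htr : ∀ z z' : ℤ, (∀ j, min z z' ≤ j → j ≤ max z z' → Half (bd2 s.b y a ov) c j) →
            Acc (bd2 s.b y a ov) c z → Acc (bd2 s.b y a ov) c z' := by
          intro z z' h2 h3
          obtain ⟨k, hk, h4⟩ := h3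
          refine ⟨k, hk, ?_⟩
          intro j h5 h6
          by_cases h7 : min z z' ≤ j ∧ j ≤ max z z'
          · exact h2 j h7.1 h7.2
          · exact h4 j (by omega) (by omega)
        have hnacc : ¬ Acc (bd2 s.b y a ov) c (2 * c - y) ∧
            ¬ Acc (bd2 s.b y a ov) c (2 * c - v) := by
          constructor
          · intro h
            have h' := htr _ (2 * c - v) hhs h
            have := h1.2 _ _ h h'
            omega
          · intro h
            have h' := htr _ (2 * c - y) (fun j h2 h3 => hhs j (by omega) (by omega)) h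
            have := h1.2 _ _ h h'
            omega
        obtain ⟨z0, hz0⟩ := h1.1
        obtain ⟨k, hk⟩ := hk_of_acc hz0
        have hkacc := acc_of_hk hk
        have hk1 : k ≠ 2 * c - y := by rintro rfl; exact hnacc.1 hkacc
        have hk2 : k ≠ 2 * c - v := by rintro rfl; exact hnacc.2 hkacc
        have hkh : Half s.b c k := by
          refine ⟨hk.1.1, hk.1.2.1, hk.1.2.2.1, hG.empty_old hk.1.2.2.2.1, ?_⟩
          rcases col_cases hk.1.2.2.2.2 with h | ⟨κ', h⟩ | h
          · exact absurd h (by omega)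
          · rw [hov, Option.some.injEq, Prod.mk.injEq] at h
            have := h.1
            exact absurd this (by omega)
          · exact h
        have hkl : s.b.col (k - 1) = 0 := by
          by_contra h
          exact hnk k ⟨hkh, Or.inl h⟩
        have hkr : s.b.col (k + 1) = 0 := by
          by_contra h
          exact hnk k ⟨hkh, Or.inr h⟩
        have hnb : k - 1 = y ∨ k - 1 = v ∨ k + 1 = y ∨ k + 1 = v := by
          rcases hk.2 with h | h
          · rcases col_cases h with h | ⟨κ', h⟩ | h
            · exact Or.inl h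
            · rw [hov, Option.some.injEq, Prod.mk.injEq] at h
              exact Or.inr (Or.inl h.1.symm)
            · exact absurd hkl h
          · rcases col_cases h with h | ⟨κ', h⟩ | h
            · exact Or.inr (Or.inr (Or.inl h))
            · rw [hov, Option.some.injEq, Prod.mk.injEq] at h
              exact Or.inr (Or.inr (Or.inr h.1.symm))
            · exact absurd hkr h
        have hfin : ∀ k', Half s.b c k' → (k' = k - 1 ∨ k' = k + 1) → False := by
          intro k' h2 h3
          have hk'y : k' ≠ y := by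
            rintro rfl
            exact h2.2.2.2.2 hmy
          have h4 := hkeep k' h2 hk'y
          have h5 : Acc (bd2 s.b y a ov) c k' := by
            refine ⟨k, hk, ?_⟩
            intro j h6 h7
            rcases (by omega : j = k ∨ j = k') with rfl | rfl
            · exact hk.1
            · exact h4
          have := h1.2 _ _ hkacc h5
          omega
        rcases half_run hC h0 hkh hkl hkr (by omega) (by omega) with h | h
        · exact hfin _ h (Or.inl rfl)
        · exact hfin _ h (Or.inr rfl)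
    · -- `y` is a half-cell of the old board
      have hyh : Half s.b c y := by
        unfold InW at hW
        exact ⟨by omega, by omega, by omega, hby, hmy⟩
      have hyl : s.b.col (y - 1) = 0 := by
        by_contra h
        exact hnk y ⟨hyh, Or.inl h⟩
      have hyr : s.b.col (y + 1) = 0 := by
        by_contra h
        exact hnk y ⟨hyh, Or.inr h⟩
      have hacv := hmirv hmy
      have hfin : ∀ y', Half s.b c y' → (y' = y - 1 ∨ y' = y + 1) → False := by
        intro y' h2 h3
        have h4 := hkeep y' h2 (by omega)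
        have h5 : Acc (bd2 s.b y a ov) c y' := by
          apply acc_of_hk
          refine ⟨h4, ?_⟩
          rcases h3 with rfl | rfl
          · right
            rw [show y - 1 + 1 = y by ring, hBy]; exact hG.ha
          · left
            rw [show y + 1 - 1 = y by ring, hBy]; exact hG.ha
        have h6 := h1.2 _ _ h5 hacv
        apply h2.2.2.2.2
        rw [h6, show 2 * c - (2 * c - v) = v by ring]
        exact hbv
      rcases half_run hC h0 hyh hyl hyr (by omega) (by omega) with h | h
      · exact hfin _ h (Or.inl rfl)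
      · exact hfin _ h (Or.inr rfl)
  · intro z w hz1 hw1
    by_cases h2 : z = y
    · by_cases h3 : w = y
      · rw [h2, h3]
      · exact (huniq w z hw1 hz1 h3).symm
    · exact huniq z w hz1 hw1 h2

end MP583455
end

section

namespace MP583455

open Classical

variable {s : St} {y : ℤ} {a : ℕ} {ov : Option (ℤ × ℕ)} {τ : Tag} {rg' : ℤ → ℤ}

/-- PASS after a fix: exactly one accessible cell before, none after.
PROOF. `b1 = s.b.put y a false` has no killable half-cell of `c`. `y` is a half-cell of `b = s.b`.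
If `y±1` are both empty in `b`, `half_run` gives a half-cell `y±1` of `b` which is killable in `b1`
(neighbour `y`): contradiction. So `y` has a coloured neighbour, `HK b c y`, `Acc b c y`. If `z ≠ y` is
accessible for `b` then it is accessible for `b1` (`acc_keep`), giving a killable cell of `b1`:
contradiction. -/
theorem one_pass_fix (hC : Core s) {c : ℤ} (h0 : Hot0 s c) (hy : s.b.col y = 0) (ha : a ≠ 0)
    (hz : ¬ Zone c y) (hW : InW c y) (hm : s.b.col (2 * c - y) ≠ 0)
    (hno : ∀ k, ¬ HK (s.b.put y a false) c k) :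
    One s.b c ∧ ¬ One (s.b.put y a false) c := by
  have hzn : 204 ≤ (y - c).natAbs ∧ (y - c).natAbs ≤ 9999796 := by
    unfold Zone at hz
    unfold InW at hW
    omega
  have hyc : y ≠ c := by
    rintro rfl
    simp at hzn
  have hHy : Half s.b c y := ⟨hyc, hW.1, hW.2, hy, hm⟩
  have hby : (s.b.put y a false).col y ≠ 0 := by
    rw [put_col, if_pos rfl]
    exact ha
  have hmono : ∀ u, s.b.col u ≠ 0 → (s.b.put y a false).col u ≠ 0 := by
    intro u hu
    rw [put_col]
    split_ifs
    · exact ha
    · exact hu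
  have hhalf : ∀ u, Half s.b c u → u ≠ y → (s.b.put y a false).col u = 0 := by
    intro u hu huy
    rw [put_col, if_neg huy]
    exact hu.2.2.2.1
  have hkeep : ∀ u, Half s.b c u → u ≠ y → Half (s.b.put y a false) c u := fun u hu huy =>
    ⟨hu.1, hu.2.1, hu.2.2.1, hhalf u hu huy, hmono _ hu.2.2.2.2⟩
  have hnoAcc : ∀ z, ¬ Acc (s.b.put y a false) c z := by
    intro z hz'
    obtain ⟨k, hk⟩ := hk_of_acc hz'
    exact hno k hk
  have hHK : HK s.b c y := by
    refine ⟨hHy, ?_⟩
    by_contra hcon
    push Not at hcon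
    rcases half_run hC h0 hHy hcon.1 hcon.2 (by omega) (by omega) with h1 | h1
    · refine hno (y - 1) ⟨hkeep _ h1 (by omega), Or.inr ?_⟩
      have : y - 1 + 1 = y := by ring
      rw [this]
      exact hby
    · refine hno (y + 1) ⟨hkeep _ h1 (by omega), Or.inl ?_⟩
      have : y + 1 - 1 = y := by ring
      rw [this]
      exact hby
  have hAy : Acc s.b c y := acc_of_hk hHK
  have huniq : ∀ z, Acc s.b c z → z = y := by
    intro z hz'
    by_contra hne
    exact hnoAcc z (acc_keep hmono hhalf hby hz' hne)
  refine ⟨⟨⟨y, hAy⟩, fun z w h1 h2 => by rw [huniq z h1, huniq w h2]⟩, ?_⟩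
  rintro ⟨⟨z, hz'⟩, -⟩
  exact hnoAcc z hz'

/-- PASS: no accessible cell after. -/
theorem not_one_pass {b1 : Bd} {c : ℤ} (hno : ∀ k, ¬ HK b1 c k) : ¬ One b1 c := by
  rintro ⟨⟨z, hz⟩, -⟩
  obtain ⟨k, hk⟩ := hk_of_acc hz
  exact hno k hk

end MP583455
end

section

namespace MP583455

open Classical

variable {s : St} {y : ℤ} {a : ℕ} {ov : Option (ℤ × ℕ)} {τ : Tag} {rg' : ℤ → ℤ}

theorem P3c_new (hG : Good s y a ov τ rg') {z : ℤ} (h : (bd2 s.b y a ov).col z ≠ 0)
    (h0 : s.b.col z = 0) : s.now ≤ tm2 s.tm s.now y ov z := by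
  rcases col_cases h with h1 | ⟨κ, h1⟩ | h1
  · rw [h1, hG.tm_y]
  · rw [tm_v h1]
    omega
  · exact absurd h0 h1

/-- `b0` and `oldc` do not change (new stones have times `≥ now ≥ mt c`). -/
theorem b0_ex (hC : Core s) (hG : Good s y a ov τ rg') (c : ℤ) :
    b0 (s.ex y a ov τ rg') c = b0 s c := by
  have hmt := hC.time.2.2.2 c
  unfold b0
  congr 1
  apply Finset.filter_congr
  intro z _
  simp only [ex_b, ex_tm, ex_mt]
  constructor
  · rintro ⟨h1, h2, h3, h4⟩
    have h5 : s.b.col z ≠ 0 := by
      intro h0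
      have := P3c_new hG h2 h0
      omega
    rw [hG.tm_old h5] at h3
    refine ⟨h1, h5, h3, ?_⟩
    by_cases hm : s.b.col (2 * c - z) = 0
    · exact Or.inl hm
    · right
      rcases h4 with h4 | h4
      · exact absurd h4 (hG.col_ne hm)
      · rwa [hG.tm_old hm] at h4
  · rintro ⟨h1, h2, h3, h4⟩
    refine ⟨h1, hG.col_ne h2, by rw [hG.tm_old h2]; exact h3, ?_⟩
    by_cases hm : s.b.col (2 * c - z) = 0
    · by_cases hm' : (bd2 s.b y a ov).col (2 * c - z) = 0
      · exact Or.inl hm'
      · right
        have := P3c_new hG hm' hm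
        omega
    · right
      rcases h4 with h4 | h4
      · exact absurd h4 hm
      · rwa [hG.tm_old hm]

theorem oldc_ex (hC : Core s) (hG : Good s y a ov τ rg') (c : ℤ) :
    oldc (s.ex y a ov τ rg') c = oldc s c := by
  have hmt := hC.time.2.2.2 c
  unfold oldc
  congr 1
  apply Finset.filter_congr
  intro z _
  simp only [ex_b, ex_tm, ex_mt]
  constructor
  · rintro ⟨h2, h3⟩
    have h5 : s.b.col z ≠ 0 := by
      intro h0
      have := P3c_new hG h2 h0
      omega
    rw [hG.tm_old h5] at h3
    exact ⟨h5, h3⟩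
  · rintro ⟨h2, h3⟩
    exact ⟨hG.col_ne h2, by rw [hG.tm_old h2]; exact h3⟩

theorem p_old (hC : Core s) (hG : Good s y a ov τ rg') : IOld (s.ex y a ov τ rg') := by
  intro c h0
  rw [b0_ex hC hG, oldc_ex hC hG]
  exact hC.old c (hG.hot0_old h0)

/-- `Fx` for old stones is unchanged (the mirror of an old Alice stone, if newly coloured, is
younger). -/
theorem fx_old (hC : Core s) (hG : Good s y a ov τ rg') {c z : ℤ} (hz : s.b.col z ≠ 0) :
    Fx (s.ex y a ov τ rg') c z ↔ Fx s c z := by
  unfold Fx
  simp only [ex_b, ex_tm, ex_mt]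
  constructor
  · rintro ⟨h1, h2, h3, h4, h5⟩
    rw [hG.tm_old hz] at h3 h5
    have h6 := hC.time.2.1 z hz
    have h7 : s.b.col (2 * c - z) ≠ 0 := by
      intro h0
      have := P3c_new hG h4 h0
      omega
    rw [hG.tm_old h7] at h5
    refine ⟨h1, ⟨hz, ?_⟩, h3, h7, h5⟩
    rw [← hG.own_old hz]
    exact h2.2
  · rintro ⟨h1, h2, h3, h4, h5⟩
    refine ⟨h1, hG.stA_old h2, ?_, hG.col_ne h4, ?_⟩
    · rw [hG.tm_old hz]
      exact h3
    · rw [hG.tm_old hz, hG.tm_old h4]
      exact h5

/-- `Fx` for `y` -/
theorem fx_y (hC : Core s) (hG : Good s y a ov τ rg') {c : ℤ} :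
    Fx (s.ex y a ov τ rg') c y ↔ (y ≠ c ∧ s.b.col (2 * c - y) ≠ 0) := by
  unfold Fx
  simp only [ex_b, ex_tm, ex_mt]
  rw [hG.tm_y]
  constructor
  · rintro ⟨h1, -, -, h4, h5⟩
    refine ⟨h1, fun h0 => ?_⟩
    have := P3c_new hG h4 h0
    omega
  · rintro ⟨h1, h2⟩
    refine ⟨h1, hG.stA_y, hC.time.2.2.2 c, hG.col_ne h2, ?_⟩
    rw [hG.tm_old h2]
    exact hC.time.2.1 _ h2

end MP583455
end

section

namespace MP583455

open Classical

variable {s : St} {y : ℤ} {a : ℕ} {ov : Option (ℤ × ℕ)} {τ : Tag} {rg' : ℤ → ℤ}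

/-- `nn` grows by at most 1, and only if `y` is in the window, not the centre, with empty mirror -/
theorem nn_ex (hC : Core s) (hG : Good s y a ov τ rg') (c : ℤ) :
    nn (s.ex y a ov τ rg') c ≤
      nn s c + (if InW c y ∧ y ≠ c ∧ s.b.col (2 * c - y) = 0 then 1 else 0) := by
  have key : ∀ z, z ∈ (Finset.Icc (c - (10000000 : ℤ)) (c + (10000000 : ℤ))).filter
      (fun y' => y' ≠ c ∧ stA (s.ex y a ov τ rg').b y' ∧
        (s.ex y a ov τ rg').mt c ≤ (s.ex y a ov τ rg').tm y' ∧
        ((s.ex y a ov τ rg').b.col (2 * c - y') = 0 ∨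
          (s.ex y a ov τ rg').tm y' < (s.ex y a ov τ rg').tm (2 * c - y'))) →
      z ∈ (Finset.Icc (c - (10000000 : ℤ)) (c + (10000000 : ℤ))).filter (fun y => y ≠ c ∧ stA s.b y ∧ s.mt c ≤ s.tm y ∧
        (s.b.col (2 * c - y) = 0 ∨ s.tm y < s.tm (2 * c - y))) ∨
      (z = y ∧ InW c y ∧ y ≠ c ∧ s.b.col (2 * c - y) = 0) := by
    intro z hz
    rw [Finset.mem_filter, Finset.mem_Icc] at hz
    obtain ⟨hw, hzc, hA, hm, hor⟩ := hz
    rw [ex_b] at hA hor
    rw [ex_mt, ex_tm] at hm
    rw [ex_tm] at hor
    rcases hG.stA_cases hA with h1 | h1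
    · right
      subst h1
      refine ⟨rfl, hw, hzc, ?_⟩
      rcases hor with h2 | h2
      · exact hG.empty_old h2
      · by_contra hne
        rw [hG.tm_y, hG.tm_old hne] at h2
        have := hC.time.2.1 _ hne
        omega
    · left
      rw [Finset.mem_filter, Finset.mem_Icc]
      rw [hG.tm_old h1.1] at hm hor
      refine ⟨hw, hzc, h1, hm, ?_⟩
      rcases hor with h2 | h2
      · exact Or.inl (hG.empty_old h2)
      · by_cases hne : s.b.col (2 * c - z) = 0
        · exact Or.inl hne
        · right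
          rwa [hG.tm_old hne] at h2
  unfold nn
  split_ifs with hif
  · refine (Finset.card_le_card (t := insert y _) ?_).trans (Finset.card_insert_le _ _)
    intro z hz
    rw [Finset.mem_insert]
    rcases key z hz with h | h
    · exact Or.inr h
    · exact Or.inl h.1
  · rw [Nat.add_zero]
    apply Finset.card_le_card
    intro z hz
    rcases key z hz with h | h
    · exact h
    · exact absurd h.2 hif

end MP583455
end

section

namespace MP583455

open Classical

variable {s : St} {y : ℤ} {a : ℕ} {ov : Option (ℤ × ℕ)} {τ : Tag} {rg' : ℤ → ℤ}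

/-- Nothing changes for `c` in the cases: `y` outside the window and outside the zone with a local
reply; kill of a centre at distance `> 2RR+1`; `y` in a region of another centre.
PROOF: `y` and `v` are at distance `> (10000000 : ℤ)+1` from `c` (`hC.sep`, `hC.regG`). -/
theorem no_change (hC : Core s) (hG : Good s y a ov τ rg') {c : ℤ} (h0 : Hot0 s c)
    (hy : ¬ Zone c y) (h : (∃ c1, τ = Tag.kill c1 ∧ (2 * (10000000 : ℤ) + 1 < c1 - c ∨ 2 * (10000000 : ℤ) + 1 < c - c1)) ∨
      (∃ c1, HotR s c1 ∧ InI s c1 y) ∨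
      (¬ InW c y ∧ ∀ v κ, ov = some (v, κ) → v - y ≤ (200 : ℤ) ∧ y - v ≤ (200 : ℤ))) :
    (¬ InW c y) ∧ ∀ z, c - (10000000 : ℤ) - 1 ≤ z → z ≤ c + (10000000 : ℤ) + 1 → (bd2 s.b y a ov).col z = s.b.col z := by
  -- it suffices that `y` and `v` are far away
  have hfar : ∀ u : ℤ, (u < c - (10000000 : ℤ) - 1 ∨ c + (10000000 : ℤ) + 1 < u) → ∀ z, c - (10000000 : ℤ) - 1 ≤ z →
      z ≤ c + (10000000 : ℤ) + 1 → z ≠ u := by
    intro u hu z h1 h2 h3
    omega
  have hkey : (y < c - (10000000 : ℤ) - 1 ∨ c + (10000000 : ℤ) + 1 < y) ∧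
      ∀ v κ, ov = some (v, κ) → (v < c - (10000000 : ℤ) - 1 ∨ c + (10000000 : ℤ) + 1 < v) := by
    rcases h with ⟨c1, hτ, hd⟩ | ⟨c1, h1, h2⟩ | ⟨h1, h2⟩
    · have ht := hG.tag
      rw [hτ] at ht
      obtain ⟨_, t2, v, κ, t3, t4⟩ := ht
      obtain ⟨t5, t6⟩ := t2
      obtain ⟨_, t7, t8, _, _⟩ := t4
      refine ⟨by omega, ?_⟩
      intro v' κ' h'
      rw [t3] at h'
      simp only [Option.some.injEq, Prod.mk.injEq] at h'
      omega
    · have h3 := hC.regG c1 h1.2.2
      have hne : c ≠ c1 := by
        rintro rfl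
        exact h1.2.2 h0.2.2
      obtain ⟨v, κ, h4, h5, _⟩ := hG.inreg c1 h1 h2
      unfold InI at h2 h5
      have hsep : 3 * (10000000 : ℤ) ≤ 2 * (c1 - c) ∨ 3 * (10000000 : ℤ) ≤ 2 * (c - c1) := by
        rcases lt_or_gt_of_ne hne with h | h
        · left; exact hC.sep c c1 h0.1 h1.1 h
        · right; exact hC.sep c1 c h1.1 h0.1 h
      refine ⟨by omega, ?_⟩
      intro v' κ' h'
      rw [h4] at h'
      simp only [Option.some.injEq, Prod.mk.injEq] at h'
      omega
    · unfold InW at h1
      unfold Zone at hy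
      refine ⟨by omega, ?_⟩
      intro v κ hv
      have := h2 v κ hv
      omega
  refine ⟨?_, ?_⟩
  · unfold InW
    have := hkey.1
    omega
  · intro z h1 h2
    have hzy : z ≠ y := hfar y hkey.1 z h1 h2
    cases hov : ov with
    | none => simp [bd2, hzy]
    | some p =>
      obtain ⟨v, κ⟩ := p
      have hzv : z ≠ v := hfar v (hkey.2 v κ hov) z h1 h2
      simp [bd2, hzy, hzv]

end MP583455
end
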