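import Pool.Agent.Lib.MP_583455_co.Mg.G008
import Pool.Agent.Lib.MP_583455_co.Mg.G006

section

namespace MP583455

open Classical

/-- Let `I = (c-ρ, c+ρ)` with coloured ends, exactly 4 empty cells in `I` for `b` (Alice to
move, safe position). Alice plays `y ∈ I`, Bob plays `v ∈ I`, `c` is alive afterwards, `c` is still
empty and the mirror of `v` is still empty. Then `c` was a safe reply.

PROOF. Write `m z = 2c - z`, `b1 = b.put y a false`, `b2 = b1.put v κ true`. Empty cells of `I`:
for `b`: `{y, v, c, x}`; for `b1`: `E1 = {v, c, x}`; for `b2`: `{c, x}`.  `m v ∈ I` is empty in `b2`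
and `m v ≠ v`, `m v ≠ c`, so `m v = x`, i.e. `v = m x`, `x = m v`.  `E1` is symmetric, so
`m y` (`≠ y` since `y ≠ c`; `m y ∈ I`, `m y ∉ E1`, as `y ∉ E1`) is coloured in `b`, and
`b.col (m y) = a` by `hal`. More generally for every `z` with `c-ρ ≤ z ≤ c+ρ`, `z ∉ {y, m y}`:
`z` is coloured in `b` iff `m z` is, and then the colours are equal.
We prove `SafeR b1 c` using `safeR_of` with `v := c`:
* `hn`: if both `c-1`, `c+1` are empty in `b1` then `E1 = {c-1, c, c+1}` and `c±2` are coloured in
  `b1` (they are in `[c-ρ, c+ρ]`; note `ρ ≥ 2`, and if `ρ = 2` they are the ends).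
* `hpR`: let `e > y`, `b.col e = a`, `e-y` even, all cells strictly between empty in `b`. As the end
  `c+ρ` is coloured, `e ≤ c+ρ`. The cells strictly between `y` and `e` are in `E1`, there is an odd
  number of them, so 1 or 3. If 3: they are `c-1, c, c+1`, fine. If 1, `e = y+2` and `y+1 ∈ E1`.
  If `y+1 = c` fine. Otherwise `m (y+1) ∈ E1` too, it is empty in `b`, with neighbours
  `m y` (coloured, colour `a`) and `m e` (`e ≠ m y` since `y+1 ≠ c`; so `m e` coloured in `b` with
  colour `a`; also `m e ≠ y`): this contradicts `hs.par (m e) (m y)`.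
* `hpL` symmetric.
* `hiso`: both neighbours of `y` empty in `b`, so in `E1 = {v, c, x}` with `v = m x`: two elements of
  `E1` at distance 2 with `y ∉ E1` in the middle: either `c = y ± 1` and the other one is `y ∓ 1`,
  or `{x, v} = {y-1,y+1}` which gives `y = c`, impossible as `y ≠ c`.
  Then conclusion `c = y-1 ∨ c = y+1` holds.
* `hdR`: `b.col (y-1) = a`, `b.col (y+1) = 0`. Suppose `c ≠ y+1`. `m (y+1)` is empty in `b`
  (`y+1 ∈ E1`, symmetric; `m(y+1) ≠ y`..), `m (y+1) = m y - 1`, and `m (y-1) = m y + 1` is coloured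
  in `b` with colour `a` (`y - 1 ≠ m y` by parity, `y-1 ≠ c` since `c` is empty). So at the stone
  `m y` the left neighbour is empty and the right neighbour has the same colour `a`:
  contradiction to `hs.finL (m y)` (`Mid` would need the right neighbour empty).
* `hdL` symmetric.
* `hhR`: `Mid b (y+1)`, `b.col (y+1) = a`; `y + 2` is empty in `b`. Suppose `c ≠ y+2`.
  `z' = m (y+1)` is coloured with colour `a` (`y+1 ≠ c`), `m y = z' + 1` is coloured with colour
  `a`, `m (y+2) = z' - 1` is empty in `b` (`y+2 ∈ E1`; if `y+2 = c+ρ` is an end it would be coloured).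
  `hs.finL z'`: contradiction.
* `hhL` symmetric. -/
theorem even_lemma {b : Bd} (hs : Safe b) {c ρ y v : ℤ} {a κ : ℕ} (hy : b.col y = 0)
    (ha : a ≠ 0) (hv : b.col v = 0) (hvy : v ≠ y) (hκ : κ ≠ 0)
    (hyI : c - ρ < y ∧ y < c + ρ) (hvI : c - ρ < v ∧ v < c + ρ) (hρ : 2 ≤ ρ ∧ ρ ≤ 1000001)
    (he1 : b.col (c + ρ) ≠ 0) (he2 : b.col (c - ρ) ≠ 0)
    (hal : Alive ((b.put y a false).put v κ true) c)
    (hmv : ((b.put y a false).put v κ true).col (2 * c - v) = 0)
    (hcard : (EE b c ρ).card = 4)
    (hc : ((b.put y a false).put v κ true).col c = 0)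
    (hnot : ¬ SafeR (b.put y a false) c) : False := by
  have hcy : c ≠ y := by
    rintro rfl
    rw [put_col, if_neg (Ne.symm hvy), put_col, if_pos rfl] at hc
    exact ha hc
  have hcv : c ≠ v := by
    rintro rfl
    rw [put_col, if_pos rfl] at hc
    exact hκ hc
  have hbc : b.col c = 0 := by
    rwa [put_col, if_neg hcv, put_col, if_neg hcy] at hc
  have hxv : 2 * c - v ≠ v := by omega
  have hxy : 2 * c - v ≠ y := by
    intro h
    rw [put_col, if_neg hxv, h, put_col, if_pos rfl] at hmv
    exact ha hmv
  have hbx : b.col (2 * c - v) = 0 := by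
    rwa [put_col, if_neg hxv, put_col, if_neg hxy] at hmv
  have hE : ∀ z, c - ρ ≤ z → z ≤ c + ρ → b.col z = 0 →
      z = y ∨ z = v ∨ z = c ∨ z = 2 * c - v := by
    intro z h1 h2 h3
    have hz1 : z ≠ c - ρ := by rintro rfl; exact he2 h3
    have hz2 : z ≠ c + ρ := by rintro rfl; exact he1 h3
    by_contra hcon
    push Not at hcon
    obtain ⟨g1, g2, g3, g4⟩ := hcon
    have hsub : ({z, y, v, c, 2 * c - v} : Finset ℤ) ⊆ EE b c ρ := by
      intro w hw
      simp only [Finset.mem_insert, Finset.mem_singleton] at hw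
      unfold EE
      rw [Finset.mem_filter, Finset.mem_Ioo]
      rcases hw with rfl | rfl | rfl | rfl | rfl
      · exact ⟨⟨by omega, by omega⟩, h3⟩
      · exact ⟨⟨by omega, by omega⟩, hy⟩
      · exact ⟨⟨by omega, by omega⟩, hv⟩
      · exact ⟨⟨by omega, by omega⟩, hbc⟩
      · exact ⟨⟨by omega, by omega⟩, hbx⟩
    have h4 := Finset.card_le_card hsub
    rw [hcard] at h4
    have h5 : ({z, y, v, c, 2 * c - v} : Finset ℤ).card = 5 := by
      rw [Finset.card_insert_of_notMem, Finset.card_insert_of_notMem,
        Finset.card_insert_of_notMem, Finset.card_insert_of_notMem, Finset.card_singleton]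
      all_goals
        simp only [Finset.mem_insert, Finset.mem_singleton]
        omega
    omega
  have hM : ∀ z, c - ρ ≤ z → z ≤ c + ρ → z ≠ y → z ≠ 2 * c - y →
      b.col z = b.col (2 * c - z) := by
    intro z h1 h2 h3 h4
    by_cases hz : b.col z = 0
    · rcases hE z h1 h2 hz with h | h | h | h
      · exact absurd h h3
      · rw [h, hv, hbx]
      · rw [h, hbc, show 2 * c - c = c by ring, hbc]
      · rw [h, hbx, show 2 * c - (2 * c - v) = v by ring, hv]
    · by_cases hz' : b.col (2 * c - z) = 0
      · exfalso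
        rcases hE (2 * c - z) (by omega) (by omega) hz' with h | h | h | h
        · exact h4 (by omega)
        · apply hz; rw [show z = 2 * c - v by omega]; exact hbx
        · apply hz; rw [show z = c by omega]; exact hbc
        · apply hz; rw [show z = v by omega]; exact hv
      · have hzv : z ≠ v := by rintro rfl; exact hz hv
        have hzv' : 2 * c - z ≠ v := by intro h; rw [h] at hz'; exact hz' hv
        have hzy' : 2 * c - z ≠ y := by omega
        have e1 : ((b.put y a false).put v κ true).col z = b.col z := by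
          rw [put_col, if_neg hzv, put_col, if_neg h3]
        have e2 : ((b.put y a false).put v κ true).col (2 * c - z) = b.col (2 * c - z) := by
          rw [put_col, if_neg hzv', put_col, if_neg hzy']
        have := hal z (by omega) (by omega) (by rw [e1]; exact hz) (by rw [e2]; exact hz')
        rwa [e1, e2] at this
  have hMY : b.col (2 * c - y) = a := by
    have h1 : b.col (2 * c - y) ≠ 0 := by
      intro h
      rcases hE (2 * c - y) (by omega) (by omega) h with h | h | h | h <;> omega
    have hy1 : 2 * c - y ≠ y := by omega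
    have hy2 : 2 * c - y ≠ v := by omega
    have e1 : ((b.put y a false).put v κ true).col y = a := by
      rw [put_col, if_neg (Ne.symm hvy), put_col, if_pos rfl]
    have e2 : ((b.put y a false).put v κ true).col (2 * c - y) = b.col (2 * c - y) := by
      rw [put_col, if_neg hy2, put_col, if_neg hy1]
    have := hal y (by omega) (by omega) (by rw [e1]; exact ha) (by rw [e2]; exact h1)
    rw [e1, e2] at this
    exact this.symm
  -- the gap of `c` contains `y`
  have hgap : y = c - 1 ∨ y = c + 1 ∨
      ((y = c - 2 ∨ y = c + 2) ∧ b.col (c - 1) = 0 ∧ b.col (c + 1) = 0 ∧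
        (v = c - 1 ∨ v = c + 1)) := by
    by_cases g1 : y = c - 1
    · exact Or.inl g1
    by_cases g2 : y = c + 1
    · exact Or.inr (Or.inl g2)
    right; right
    have h1 := hM (c + 1) (by omega) (by omega) (by omega) (by omega)
    rw [show 2 * c - (c + 1) = c - 1 by ring] at h1
    have h2 : b.col (c - 1) = 0 := by
      by_contra hne
      refine hs.par (c - 1) (c + 1) (by omega) hne h1.symm (by omega) ?_
      intro z hz1 hz2
      rw [show z = c by omega]; exact hbc
    rw [h2] at h1
    have h3 : v = c - 1 ∨ v = c + 1 := by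
      rcases hE (c + 1) (by omega) (by omega) h1 with h | h | h | h <;> omega
    refine ⟨?_, h2, h1, h3⟩
    by_contra hcon
    push Not at hcon
    obtain ⟨g3, g4⟩ := hcon
    have h4 := hM (c + 2) (by omega) (by omega) (by omega) (by omega)
    rw [show 2 * c - (c + 2) = c - 2 by ring] at h4
    have h5 : b.col (c + 2) ≠ 0 := by
      intro h
      rcases hE (c + 2) (by omega) (by omega) h with h | h | h | h <;> omega
    refine hs.par (c - 2) (c + 2) (by omega) (by rw [← h4]; exact h5) h4.symm (by omega) ?_
    intro z hz1 hz2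
    rcases (by omega : z = c - 1 ∨ z = c ∨ z = c + 1) with rfl | rfl | rfl
    · exact h2
    · exact hbc
    · exact h1
  apply hnot
  rcases hgap with rfl | rfl | ⟨hg | hg, hl, hr, hv'⟩
  · -- `y = c - 1`
    rw [show 2 * c - (c - 1) = c + 1 by ring] at hMY
    refine safeR_of hs hy ha hbc hcy ?_ ?_ ?_ ?_ ?_ ?_ ?_ ?_
    · right; left
      rw [put_col, if_neg (by omega), hMY]; exact ha
    · intro e h1 h2 h3 h4
      refine ⟨by omega, ?_⟩
      by_contra hcon
      rw [show e = c by omega, hbc] at h2
      exact ha h2.symm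
    · intro e h1 h2 h3 h4
      exfalso
      refine hs.par e (c + 1) (by omega) (by rw [h2]; exact ha) (by rw [h2, hMY]) (by omega) ?_
      intro z hz1 hz2
      rcases (by omega : z < c - 1 ∨ z = c - 1 ∨ z = c) with h | rfl | rfl
      · exact h4 z hz1 h
      · exact hy
      · exact hbc
    · intro _ _; right; omega
    · intro _ _; omega
    · intro h _
      rw [show c - 1 + 1 = c by ring, hbc] at h
      exact absurd h.symm ha
    · intro h _
      have := h.1
      rw [show c - 1 + 1 = c by ring] at this
      exact absurd hbc this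
    · intro h _
      have := h.2.2.2.2.2
      rw [show c - 1 - 1 + 2 = c by ring] at this
      exact absurd hbc this
  · -- `y = c + 1`
    rw [show 2 * c - (c + 1) = c - 1 by ring] at hMY
    refine safeR_of hs hy ha hbc hcy ?_ ?_ ?_ ?_ ?_ ?_ ?_ ?_
    · left
      rw [put_col, if_neg (by omega), hMY]; exact ha
    · intro e h1 h2 h3 h4
      exfalso
      refine hs.par (c - 1) e (by omega) (by rw [hMY]; exact ha) (by rw [h2, hMY]) (by omega) ?_
      intro z hz1 hz2
      rcases (by omega : z = c ∨ z = c + 1 ∨ c + 1 < z) with rfl | rfl | h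
      · exact hbc
      · exact hy
      · exact h4 z h hz2
    · intro e h1 h2 h3 h4
      refine ⟨?_, by omega⟩
      by_contra hcon
      rw [show e = c by omega, hbc] at h2
      exact ha h2.symm
    · intro _ _; left; omega
    · intro h _
      rw [show c + 1 - 1 = c by ring, hbc] at h
      exact absurd h.symm ha
    · intro _ _; omega
    · intro h _
      have := h.2.2.2.2.1
      rw [show c + 1 + 1 - 2 = c by ring] at this
      exact absurd hbc this
    · intro h _
      have := h.1
      rw [show c + 1 - 1 = c by ring] at this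
      exact absurd hbc this
  · -- `y = c - 2`
    subst hg
    rw [show 2 * c - (c - 2) = c + 2 by ring] at hMY
    have hout : b.col (c - 3) ≠ 0 := by
      intro h
      rcases hE (c - 3) (by omega) (by omega) h with h | h | h | h <;> omega
    refine safeR_of hs hy ha hbc hcy ?_ ?_ ?_ ?_ ?_ ?_ ?_ ?_
    · right; right
      rw [put_col, if_pos rfl, put_col, if_neg (by omega), hMY]
      exact ⟨ha, ha⟩
    · intro e h1 h2 h3 h4
      refine ⟨by omega, ?_⟩
      by_contra hcon
      rw [show e = c by omega, hbc] at h2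
      exact ha h2.symm
    · intro e h1 h2 h3 h4
      exfalso
      refine hs.par e (c + 2) (by omega) (by rw [h2]; exact ha) (by rw [h2, hMY]) (by omega) ?_
      intro z hz1 hz2
      rcases (by omega : z < c - 2 ∨ z = c - 2 ∨ z = c - 1 ∨ z = c ∨ z = c + 1) with
        h | rfl | rfl | rfl | rfl
      · exact h4 z hz1 h
      · exact hy
      · exact hl
      · exact hbc
      · exact hr
    · intro h _
      rw [show c - 2 - 1 = c - 3 by ring] at h
      exact absurd h hout
    · intro h _
      exfalso
      rw [show c - 2 - 1 = c - 3 by ring] at h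
      have h5 := hM (c - 3) (by omega) (by omega) (by omega) (by omega)
      rw [show 2 * c - (c - 3) = c + 3 by ring, h] at h5
      have h6 := hs.finL (c + 2) (by rw [hMY]; exact ha)
        (by rw [show c + 2 - 1 = c + 1 by ring]; exact hr)
      rw [show c + 2 + 1 = c + 3 by ring] at h6
      rcases h6 with h6 | h6
      · exact h6.2 (by rw [← h5, hMY])
      · have := h6.2.2.2.1
        rw [show c + 2 + 1 = c + 3 by ring, ← h5] at this
        exact ha this
    · intro h _
      rw [show c - 2 + 1 = c - 1 by ring, hl] at h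
      exact absurd h.symm ha
    · intro h _
      have := h.1
      rw [show c - 2 + 1 = c - 1 by ring] at this
      exact absurd hl this
    · intro h _
      have := h.2.2.2.2.2
      rw [show c - 2 - 1 + 2 = c - 1 by ring] at this
      exact absurd hl this
  · -- `y = c + 2`
    subst hg
    rw [show 2 * c - (c + 2) = c - 2 by ring] at hMY
    have hout : b.col (c + 3) ≠ 0 := by
      intro h
      rcases hE (c + 3) (by omega) (by omega) h with h | h | h | h <;> omega
    refine safeR_of hs hy ha hbc hcy ?_ ?_ ?_ ?_ ?_ ?_ ?_ ?_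
    · right; right
      rw [put_col, if_neg (by omega), put_col, if_pos rfl, hMY]
      exact ⟨ha, ha⟩
    · intro e h1 h2 h3 h4
      exfalso
      refine hs.par (c - 2) e (by omega) (by rw [hMY]; exact ha) (by rw [h2, hMY]) (by omega) ?_
      intro z hz1 hz2
      rcases (by omega : z = c - 1 ∨ z = c ∨ z = c + 1 ∨ z = c + 2 ∨ c + 2 < z) with
        rfl | rfl | rfl | rfl | h
      · exact hl
      · exact hbc
      · exact hr
      · exact hy
      · exact h4 z h hz2
    · intro e h1 h2 h3 h4
      refine ⟨?_, by omega⟩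
      by_contra hcon
      rw [show e = c by omega, hbc] at h2
      exact ha h2.symm
    · intro _ h
      rw [show c + 2 + 1 = c + 3 by ring] at h
      exact absurd h hout
    · intro h _
      rw [show c + 2 - 1 = c + 1 by ring, hr] at h
      exact absurd h.symm ha
    · intro h _
      exfalso
      rw [show c + 2 + 1 = c + 3 by ring] at h
      have h5 := hM (c + 3) (by omega) (by omega) (by omega) (by omega)
      rw [show 2 * c - (c + 3) = c - 3 by ring, h] at h5
      have h6 := hs.finR (c - 2) (by rw [hMY]; exact ha)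
        (by rw [show c - 2 + 1 = c - 1 by ring]; exact hl)
      rw [show c - 2 - 1 = c - 3 by ring] at h6
      rcases h6 with h6 | h6
      · exact h6.2 (by rw [← h5, hMY])
      · have := h6.2.2.1
        rw [show c - 2 - 1 = c - 3 by ring, ← h5] at this
        exact ha this
    · intro h _
      have := h.2.2.2.2.1
      rw [show c + 2 + 1 - 2 = c + 1 by ring] at this
      exact absurd hr this
    · intro h _
      have := h.1
      rw [show c + 2 - 1 = c + 1 by ring] at this
      exact absurd hr this

end MP583455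
end

section

namespace MP583455

open Classical

variable {s : St} {y : ℤ} {a : ℕ} {ov : Option (ℤ × ℕ)} {τ : Tag} {rg' : ℤ → ℤ}

private lemma E2_ee_some (hG : Good s y a ov τ rg') {v : ℤ} {κ : ℕ} (h : ov = some (v, κ))
    (c ρ : ℤ) : EE (bd2 s.b y a ov) c ρ = ((EE s.b c ρ).erase y).erase v := by
  ext z
  unfold EE
  rw [Finset.mem_filter, Finset.mem_erase, Finset.mem_erase, Finset.mem_filter]
  constructor
  · rintro ⟨h1, h2⟩
    refine ⟨?_, ?_, h1, hG.empty_old h2⟩
    · rintro rfl
      rw [col_v h] at h2
      exact hG.kpos h h2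
    · rintro rfl
      rw [hG.col_y] at h2
      exact hG.ha h2
  · rintro ⟨h1, h2, h3, h4⟩
    refine ⟨h3, empty_new h4 h2 ?_⟩
    intro v' κ' h'
    rw [h] at h'
    simp only [Option.some.injEq, Prod.mk.injEq] at h'
    rw [← h'.1]; exact h1

private lemma E2_ee_out {c ρ : ℤ} (hy : ¬ (c - ρ < y ∧ y < c + ρ))
    (hv : ∀ v κ, ov = some (v, κ) → ¬ (c - ρ < v ∧ v < c + ρ)) (hG : Good s y a ov τ rg') :
    EE (bd2 s.b y a ov) c ρ = EE s.b c ρ := by
  ext z
  unfold EE
  rw [Finset.mem_filter, Finset.mem_filter, Finset.mem_Ioo]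
  constructor
  · rintro ⟨h1, h2⟩
    exact ⟨h1, hG.empty_old h2⟩
  · rintro ⟨h1, h2⟩
    refine ⟨h1, empty_new h2 ?_ ?_⟩
    · rintro rfl; exact hy h1
    · rintro v κ h rfl; exact hv _ _ h h1

private lemma E2_old (hC : Core s) (hG : Good s y a ov τ rg') {c : ℤ} (hH : HotR s c)
    (hal : Alive (bd2 s.b y a ov) c) :
    Even (EE (bd2 s.b y a ov) c (s.rg c)).card ∧ (EE (bd2 s.b y a ov) c (s.rg c)).card ≠ 0 ∧
      ((EE (bd2 s.b y a ov) c (s.rg c)).card = 2 → (bd2 s.b y a ov).col c ≠ 0) := by
  obtain ⟨g1, g2, g3, g4, g5, g6, g7⟩ := hC.regG c hH.2.2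
  obtain ⟨p1, p2, p3⟩ := hC.regP c hH
  by_cases hI : InI s c y
  · obtain ⟨v, κ, hov, hvI, hsafe⟩ := hG.inreg c hH hI
    have hee := E2_ee_some hG hov c (s.rg c)
    have hvy := hG.v_ne_y hov
    have hve := hG.v_empty hov
    have hymem : y ∈ EE s.b c (s.rg c) := by
      unfold EE
      rw [Finset.mem_filter, Finset.mem_Ioo]
      exact ⟨hI, hG.hy⟩
    have hvmem : v ∈ (EE s.b c (s.rg c)).erase y := by
      rw [Finset.mem_erase]
      refine ⟨hvy, ?_⟩
      unfold EE
      rw [Finset.mem_filter, Finset.mem_Ioo]
      exact ⟨hvI, hve⟩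
    have hcard : (EE (bd2 s.b y a ov) c (s.rg c)).card + 2 = (EE s.b c (s.rg c)).card := by
      rw [hee]
      have e1 := Finset.card_erase_add_one hvmem
      have e2 := Finset.card_erase_add_one hymem
      omega
    unfold InI at hI hvI
    have hmir : v ≠ c → (bd2 s.b y a ov).col (2 * c - v) = 0 := fun hvc =>
      mirror_empty hG hov hal ⟨by omega, by omega⟩ hvc
    have hn2 : (EE s.b c (s.rg c)).card ≠ 2 := by
      intro h2
      have hcc := p3 h2
      have hvc : v ≠ c := by rintro rfl; exact hcc hve
      have hmem : 2 * c - v ∈ EE (bd2 s.b y a ov) c (s.rg c) := by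
        unfold EE
        rw [Finset.mem_filter, Finset.mem_Ioo]
        exact ⟨by omega, hmir hvc⟩
      have := Finset.card_pos.mpr ⟨_, hmem⟩
      omega
    obtain ⟨k, hk⟩ := p1
    refine ⟨⟨k - 1, by omega⟩, by omega, ?_⟩
    intro h2 hc0
    have h4 : (EE s.b c (s.rg c)).card = 4 := by omega
    have hvc : v ≠ c := by
      rintro rfl
      rw [col_v hov] at hc0
      exact hG.kpos hov hc0
    have hyc : c ≠ y := by
      rintro rfl
      rw [hG.col_y] at hc0
      exact hG.ha hc0
    have hb1 : (s.b.put y a false).col c = 0 := by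
      rw [put_col, if_neg hyc]
      exact hG.empty_old hc0
    have hnot : ¬ SafeR (s.b.put y a false) c := fun hs => hvc (hsafe hb1 hs)
    have hmv := hmir hvc
    subst hov
    exact even_lemma hC.safe hG.hy hG.ha hve hvy (hG.kpos rfl) hI hvI ⟨by omega, by omega⟩ g4 g5
      hal hmv h4 hc0 hnot
  · have hee := E2_ee_out (c := c) (ρ := s.rg c) hI (fun v κ h => hG.outreg c hH hI v κ h) hG
    rw [hee]
    exact ⟨p1, p2, fun h => hG.col_ne (p3 h)⟩

/-- PROOF. Let `c` be `HotR` in the new state, `ρ = rg' c`.
(1) New region: `hG.rgs` second alternative with this `c`: `ρ = |y - c|`, all cells strictly between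
`y` and `2c-y` are empty in `s.b`, Bob's reply `v` is one of them, so `(EE new).card = 2ρ-2`,
with `ρ ≥ 204`.
(2) Old region (`s.rg c = rg' c ≠ 0`; if the second alternative of `rgs` holds for some
other `c0`). `HotR s c`. If `y` is not in the region, neither is `v` (`hG.outreg`), nothing
changes (`c` itself lies in the region).
If `y` is in the region: `hG.inreg` gives `v` in the region; `EE new = EE old \ {y, v}`, card
decreases by 2.  Old card is even, `≠ 0`.  Old card `= 2`: `EE old = {y, v}`, `s.b.col c ≠ 0` so
`v ≠ c`, and `2c - v` is empty in the new board (`mirror_empty`), it lies in the region, so it is in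
`EE old = {y,v}`, but it is not `y` (coloured) nor `v` (`v ≠ c`): contradiction.
So old card `≥ 4`, new card `≥ 2`. If the new card is `2` and `c` is still empty: old card `= 4`,
`v ≠ c`, so by `hG.inreg` `¬ SafeR b1 c`, contradiction by `even_lemma`
(`hC.regG` gives the ends and the bounds on `ρ`). -/
theorem p_regP (hC : Core s) (hG : Good s y a ov τ rg') : IRegP (s.ex y a ov τ rg') := by
  intro c hc
  obtain ⟨h1, h2, h3⟩ := hc
  rw [ex_mt] at h1
  rw [ex_b] at h2
  rw [ex_rg] at h3
  rw [ex_b, ex_rg]
  have hal := hG.alive_old h2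
  rcases hG.rgs with hr | ⟨c0, v, κ, hF, hov, hv, hr⟩
  · rw [hr] at h3 ⊢
    exact E2_old hC hG ⟨h1, hal, h3⟩ h2
  · by_cases hcc : c = c0
    · subst hcc
      have hrg : rg' c = ((y - c).natAbs : ℤ) := by rw [hr]; simp
      obtain ⟨hH, hz, hW, hB, hcol, hvis⟩ := hF
      have h204 : 204 ≤ (y - c).natAbs := by
        by_contra hlt
        exact hz (Or.inl (by omega))
      have hfull : EE s.b c (rg' c) = Finset.Ioo (c - rg' c) (c + rg' c) := by
        unfold EE
        rw [Finset.filter_eq_self]
        intro z hz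
        rw [Finset.mem_Ioo, hrg] at hz
        exact hvis z (by omega) (by omega)
      have hee := E2_ee_some hG hov c (rg' c)
      have hy : y ∉ EE s.b c (rg' c) := by
        rw [hfull, Finset.mem_Ioo, hrg]
        omega
      have hvm : v ∈ EE s.b c (rg' c) := by
        rw [hfull, Finset.mem_Ioo, hrg]
        omega
      have hcard : (EE (bd2 s.b y a ov) c (rg' c)).card + 1 = 2 * (y - c).natAbs - 1 := by
        rw [hee, Finset.erase_eq_of_notMem hy]
        rw [Finset.card_erase_add_one hvm, hfull, Int.card_Ioo, hrg]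
        omega
      refine ⟨⟨(y - c).natAbs - 1, by omega⟩, by omega, fun h => by omega⟩
    · have hrg : rg' c = s.rg c := by rw [hr]; simp [hcc]
      rw [hrg] at h3 ⊢
      exact E2_old hC hG ⟨h1, hal, h3⟩ h2

end MP583455
end

section

namespace MP583455

open Classical

variable {s : St} {y : ℤ} {a : ℕ} {ov : Option (ℤ × ℕ)} {τ : Tag} {rg' : ℤ → ℤ}

/-- PROOF: for `y' ≠ y` all data are unchanged (`fx_old`), for `y' = y` use `hG.xb`, with
`mirror_y`.  If `rg' c ≠ 0` then `c` is not `Hot0`; if `τ = kill c` then `c` is dead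
(`kill_dead`). -/
theorem p_xb (hC : Core s) (hG : Good s y a ov τ rg') : IXb (s.ex y a ov τ rg') := by
  intro c y' h0 hW hF hown hmt
  have h0' : Hot0 s c := hG.hot0_old h0
  simp only [ex_b, ex_tm, ex_mt] at hown hmt ⊢
  by_cases hyy : y' = y
  · subst hyy
    have hF' := (fx_y hC hG).1 hF
    by_cases hZ : Zone c y'
    · exact Or.inl hZ
    have hma := mirror_y hG h0.2.1 hW hF'.2
    have hownold : s.b.own (2 * c - y') = true := by
      rw [← hG.own_old hF'.2]
      exact hown
    have htm : s.mt c ≤ s.tm (2 * c - y') := by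
      rw [hG.tm_old hF'.2] at hmt
      exact hmt
    rcases hG.xb c h0' hZ hW ⟨hF'.2, hownold⟩ hma htm with h1 | ⟨c1, h1⟩ | h1 | ⟨q, h1, h2, h3, h4⟩
    · exact absurd h0.2.2 h1
    · by_cases hc1 : c1 = c
      · exfalso
        have ht := hG.tag
        rw [h1, hc1] at ht
        obtain ⟨-, -, v, κ, hov, hh⟩ := ht
        exact kill_dead hG hov hh h0.2.1
      · right; right; left
        exact ⟨c1, hc1, by rw [tag_y]; exact h1⟩
    · right; left
      rw [tag_y]
      exact h1
    · right; right; right
      refine ⟨q, h1, h2, hG.stA_old h3, ?_⟩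
      rw [hG.col_old h3.1, hG.col_old hF'.2, h4, hma]
  · have hstA := hG.stA_cases hF.2.1
    have hA : stA s.b y' := by
      rcases hstA with h1 | h1
      · exact absurd h1 hyy
      · exact h1
    have hF' := (fx_old hC hG hA.1).1 hF
    have hm : s.b.col (2 * c - y') ≠ 0 := hF'.2.2.2.1
    have hownold : s.b.own (2 * c - y') = true := by
      rw [← hG.own_old hm]
      exact hown
    have htm : s.mt c ≤ s.tm (2 * c - y') := by
      rw [hG.tm_old hm] at hmt
      exact hmt
    rw [tag_old hyy]
    rcases hC.xb c y' h0' hW hF' hownold htm with h1 | h1 | h1 | ⟨q, h1, h2, h3, h4⟩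
    · exact Or.inl h1
    · exact Or.inr (Or.inl h1)
    · exact Or.inr (Or.inr (Or.inl h1))
    · right; right; right
      refine ⟨q, h1, h2, hG.stA_old h3, ?_⟩
      rw [hG.col_old h3.1, hG.col_old hm, h4]

end MP583455
end

section

namespace MP583455

open Classical

variable {s : St} {y : ℤ} {a : ℕ} {ov : Option (ℤ × ℕ)} {τ : Tag} {rg' : ℤ → ℤ}

/-- PROOF: let `(c, w, e)` be a violating triple for the new state.
`w` old, `e` old: `hC.shield`. `w` old, `e = y`: `hG.shield` gives a coloured cell strictly
between, contradiction to `Vis`. `e = v` or `w = v` (Bob's new stone): the other one is near in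
`b1`: all coloured cells strictly between `w` and `e` lie in the window of `c`
(`near_cover`; cells between `2c-w` and `e` are empty), contradiction to freshness. -/
theorem p_shield (hC : Core s) (hG : Good s y a ov τ rg') : IShield (s.ex y a ov τ rg') := by
  intro c w e h0 hW hB hmt hm heW hcol hvis hpar
  have h0' : Hot0 s c := hG.hot0_old h0
  simp only [ex_b, ex_tm, ex_mt] at hB hmt hm hcol hvis
  have he0 : (bd2 s.b y a ov).col e ≠ 0 := by
    rw [hcol]
    exact hB.1
  have hew : e ≠ w := by
    rintro rfl
    exact heW hW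
  -- `w` and `e` are near
  have hnear : Near (bd2 s.b y a ov) w e := by
    refine near_cover (l1 := c - (10000000 : ℤ)) (r1 := c + (10000000 : ℤ)) (l2 := 0) (r2 := 0) (by omega) (by omega) ?_
    intro z hz1 hz2 hz
    left
    by_contra hcon
    have h1 : ¬ (min (2 * c - w) e < z ∧ z < max (2 * c - w) e) := fun h => hz (hvis z h.1 h.2)
    obtain ⟨h2, h3⟩ := hW
    have h4 : ¬ (c - (10000000 : ℤ) ≤ e ∧ e ≤ c + (10000000 : ℤ)) := heW
    have h5 : z ≠ 2 * c - w := by
      rintro rfl
      exact hz hm
    omega
  have hfr : ∀ p q : ℤ, ∀ κ : ℕ, ov = some (p, κ) → (bd2 s.b y a ov).col q ≠ 0 → q ≠ p →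
      Near (bd2 s.b y a ov) p q → (bd2 s.b y a ov).col q ≠ κ := by
    intro p q κ hov hq hqp hn
    have h1 := (hG.rep p κ hov).2
    have h2 : (bd2 s.b y a ov).col q = (s.b.put y a false).col q := by
      rw [hov, bd2_some, put_col, if_neg hqp]
    have h3 : Near (s.b.put y a false) p q := by
      rw [hov, bd2_some] at hn
      exact near_of_put hn
    rw [h2] at hq ⊢
    exact h1.2 q hq h3
  rcases hG.stB_cases hB with ⟨κ, hov⟩ | hBo
  · -- `w` is Bob's new stone
    have h1 := hfr w e κ hov he0 hew hnear
    rw [hcol, col_v hov] at h1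
    exact h1 rfl
  · rcases col_cases he0 with h1 | ⟨κ, hov⟩ | h1
    · -- `e = y`
      subst h1
      have hm' : s.b.col (2 * c - w) = 0 := hG.empty_old hm
      have hae : a = s.b.col w := by
        rw [← hG.col_y, hcol, hG.col_old hBo.1]
      have hmt' : s.mt c ≤ s.tm w := by
        rw [hG.tm_old hBo.1] at hmt
        exact hmt
      have hvis' : Vis s.b (2 * c - w) e := fun z hz1 hz2 => hG.empty_old (hvis z hz1 hz2)
      obtain ⟨v, κ, hov, hv1, hv2⟩ := hG.shield c w h0' hW hBo hmt' hm' heW hae hvis' hpar
      have h2 := hvis v hv1 hv2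
      rw [col_v hov] at h2
      exact hG.kpos hov h2
    · have h1 := hfr e w κ hov hB.1 (Ne.symm hew) (near_symm hnear)
      rw [← hcol, col_v hov] at h1
      exact h1 rfl
    · have hm' : s.b.col (2 * c - w) = 0 := hG.empty_old hm
      have hmt' : s.mt c ≤ s.tm w := by
        rw [hG.tm_old hBo.1] at hmt
        exact hmt
      have hvis' : Vis s.b (2 * c - w) e := fun z hz1 hz2 => hG.empty_old (hvis z hz1 hz2)
      have hcol' : s.b.col e = s.b.col w := by
        rw [← hG.col_old h1, hcol, hG.col_old hBo.1]
      exact hC.shield c w e h0' hW hBo hmt' hm' heW hcol' hvis' hpar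

end MP583455
end
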