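import Pool.Agent.Lib.MP_583455_co.Mg.G001
import Pool.Agent.Lib.MP_583455_co.Mg.G006

section

namespace MP583455

open Classical

variable {s : St} {y : ℤ} {a : ℕ} {ov : Option (ℤ × ℕ)} {τ : Tag} {rg' : ℤ → ℤ}

/-- old Alice stone: its partner is an old Bob stone, times unchanged; `y` with `τ = loc`:
partner is `v` with time `now+1`. -/
theorem p_loc (hC : Core s) (hG : Good s y a ov τ rg') : ILoc (s.ex y a ov τ rg') := by
  intro z hz ht
  rw [ex_b] at hz
  rcases hG.stA_cases hz with h1 | h1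
  · subst h1
    rw [tag_y] at ht
    have h2 := hG.tag
    rw [ht] at h2
    obtain ⟨v, κ, h3, h4, h5⟩ := h2
    refine ⟨v, hG.stB_v h3, ?_, h4, h5⟩
    rw [ex_tm, tm_v h3, hG.tm_y]
  · have hzy : z ≠ y := by
      rintro rfl
      exact h1.1 hG.hy
    rw [tag_old hzy] at ht
    obtain ⟨v, h2, h3, h4, h5⟩ := hC.loc z h1 ht
    refine ⟨v, hG.stB_old h2, ?_, h4, h5⟩
    rw [ex_tm, hG.tm_old h2.1, hG.tm_old h1.1]
    exact h3

/-- new `y` with `τ = far`: all cells within `(200 : ℤ)` are coloured in `b1`, with times `≤ now`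
(Bob's reply `v` is empty in `b1`, so it is not within `(200 : ℤ)`). -/
theorem p_far (hC : Core s) (hG : Good s y a ov τ rg') : IFar (s.ex y a ov τ rg') := by
  intro w hw ht z h3 h4
  rw [ex_b] at hw
  rw [ex_b, ex_tm]
  rcases hG.stA_cases hw with h1 | h1
  · subst h1
    rw [tag_y] at ht
    have h2 := hG.tag
    rw [ht] at h2
    have h5 := h2 z h3 h4
    rw [put_col] at h5
    by_cases hzy : z = w
    · subst hzy
      refine ⟨?_, le_rfl⟩
      rw [hG.col_y]
      exact hG.ha
    · rw [if_neg hzy] at h5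
      refine ⟨hG.col_ne h5, ?_⟩
      rw [hG.tm_old h5, hG.tm_y]
      exact (hC.time.2.1 z h5).le
  · have hzy : w ≠ y := by
      rintro rfl
      exact h1.1 hG.hy
    rw [tag_old hzy] at ht
    have h5 := hC.far w h1 ht z h3 h4
    refine ⟨hG.col_ne h5.1, ?_⟩
    rw [hG.tm_old h5.1, hG.tm_old h1.1]
    exact h5.2

theorem P2a_rg (hG : Good s y a ov τ rg') {c : ℤ} (hc : s.rg c ≠ 0) : rg' c = s.rg c := by
  rcases hG.rgs with h1 | ⟨c0, v, κ, hF, _, _, h1⟩
  · rw [h1]
  · rw [h1]
    have : c ≠ c0 := by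
      rintro rfl
      exact hc hF.1.2.2
    simp only [if_neg this]

/-- `rg'` agrees with `s.rg` wherever `s.rg c ≠ 0` (a new region is only created for a
centre with `s.rg c = 0`). -/
theorem p_nreg (hC : Core s) (hG : Good s y a ov τ rg') : INreg (s.ex y a ov τ rg') := by
  intro w c hw ht
  rw [ex_b] at hw
  rw [ex_mt, ex_rg]
  have key : s.mt c ≠ 0 ∧ s.rg c ≠ 0 ∧ NearEnd c (s.rg c) w := by
    rcases hG.stA_cases hw with h1 | h1
    · subst h1
      rw [tag_y] at ht
      have h2 := hG.tag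
      rw [ht] at h2
      exact h2
    · have hzy : w ≠ y := by
        rintro rfl
        exact h1.1 hG.hy
      rw [tag_old hzy] at ht
      exact hC.nreg w c h1 ht
  rw [P2a_rg hG key.2.1]
  exact key

/-- for the new `y` with `τ = ctr c`: `InI s c y` with `s.rg c ≤ 1000001` (`hC.regG`) gives
`InW c y`; Bob's reply is `c` with time `now + 1`. -/
theorem p_ctr (hC : Core s) (hG : Good s y a ov τ rg') : ICtr (s.ex y a ov τ rg') := by
  intro w c hw ht
  rw [ex_b] at hw
  rw [ex_mt, ex_b, ex_tm]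
  rcases hG.stA_cases hw with h1 | h1
  · subst h1
    rw [tag_y] at ht
    have h2 := hG.tag
    rw [ht] at h2
    obtain ⟨h3, h4, κ, h5⟩ := h2
    have h6 := hC.regG c h3.2.2
    refine ⟨h3.1, ?_, hG.stB_v h5, ?_⟩
    · unfold InI at h4
      unfold InW
      omega
    · rw [tm_v h5, hG.tm_y]
  · have hzy : w ≠ y := by
      rintro rfl
      exact h1.1 hG.hy
    rw [tag_old hzy] at ht
    obtain ⟨h3, h4, h5, h6⟩ := hC.ctr w c h1 ht
    refine ⟨h3, h4, hG.stB_old h5, ?_⟩
    rw [hG.tm_old h5.1, hG.tm_old h1.1]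
    exact h6

end MP583455
end

section

namespace MP583455

open Classical

variable {s : St} {y : ℤ} {a : ℕ} {ov : Option (ℤ × ℕ)} {τ : Tag} {rg' : ℤ → ℤ}

/-- matched pairs persist, so `rr` is monotone. -/
theorem rr_mono (hG : Good s y a ov τ rg') (c : ℤ) :
    rr s.b c ≤ rr (bd2 s.b y a ov) c := by
  unfold rr
  refine Finset.card_le_card ?_
  intro w hw
  rw [Finset.mem_filter] at hw ⊢
  obtain ⟨h1, h2, h3, h4, h5⟩ := hw
  have h6 : s.b.col (2 * c - w) ≠ 0 := by rw [← h5]; exact h3
  refine ⟨h1, h2, hG.col_ne h3, ?_, ?_⟩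
  · rw [hG.own_old h3]; exact h4
  · rw [hG.col_old h3, hG.col_old h6]; exact h5

theorem p_mk (hC : Core s) (hG : Good s y a ov τ rg') : IMk (s.ex y a ov τ rg') := by
  intro c hc
  exact (hC.mkd c hc).trans (rr_mono hG c)

theorem p_sep (hC : Core s) (hG : Good s y a ov τ rg') : ISep (s.ex y a ov τ rg') := by
  intro c c' h1 h2 h3
  exact hC.sep c c' h1 h2 h3

/-- use `hG.nbr` for Bob's new stone. -/
theorem p_iso (hC : Core s) (hG : Good s y a ov τ rg') : IIso (s.ex y a ov τ rg') := by
  intro z hz h1 h2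
  rw [ex_b] at hz h1 h2
  have h1' := hG.empty_old h1
  have h2' := hG.empty_old h2
  rcases hG.stB_cases hz with ⟨κ, h3⟩ | h3
  · rcases hG.nbr z κ h3 with h4 | h4 | h4
    · exfalso
      apply h4
      rw [put_col]
      split_ifs with h5
      · exfalso
        rw [h5, hG.col_y] at h1
        exact hG.ha h1
      · exact h1'
    · exfalso
      apply h4
      rw [put_col]
      split_ifs with h5
      · exfalso
        rw [h5, hG.col_y] at h2
        exact hG.ha h2
      · exact h2'
    · exact h4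
  · exact hC.iso z h3 h1' h2'

end MP583455
end

section

namespace MP583455

open Classical

variable {s : St} {y : ℤ} {a : ℕ} {ov : Option (ℤ × ℕ)} {τ : Tag} {rg' : ℤ → ℤ}

/-- PROOF: for `c` alive after the exchange, a newly matched Bob stone `w` can only be
`w = 2*c - y`: `w = v` is impossible (its mirror has colour `≠ κ`, or is empty, see
`mirror_empty`), `2*c - w = v` likewise. So `rr` grows by at most 1. -/
theorem rr_le_succ (hC : Core s) (hG : Good s y a ov τ rg') {c : ℤ}
    (hal : Alive (bd2 s.b y a ov) c) : rr (bd2 s.b y a ov) c ≤ rr s.b c + 1 := by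
  unfold rr
  have hsub : (Finset.Icc (c - (10000000 : ℤ)) (c + (10000000 : ℤ))).filter
      (fun w => w ≠ c ∧ (bd2 s.b y a ov).col w ≠ 0 ∧ (bd2 s.b y a ov).own w = true ∧
        (bd2 s.b y a ov).col w = (bd2 s.b y a ov).col (2 * c - w)) ⊆
      insert (2 * c - y) ((Finset.Icc (c - (10000000 : ℤ)) (c + (10000000 : ℤ))).filter
        (fun w => w ≠ c ∧ s.b.col w ≠ 0 ∧ s.b.own w = true ∧ s.b.col w = s.b.col (2 * c - w))) := by
    intro w hw
    rw [Finset.mem_filter, Finset.mem_Icc] at hw
    obtain ⟨⟨h1, h2⟩, h3, h4, h5, h6⟩ := hw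
    rw [Finset.mem_insert, Finset.mem_filter, Finset.mem_Icc]
    have h7 : (bd2 s.b y a ov).col (2 * c - w) ≠ 0 := by rw [← h6]; exact h4
    rcases col_cases h4 with h8 | ⟨κ, h8⟩ | h8
    · exfalso
      rw [h8, hG.own_y] at h5
      exact absurd h5 (by decide)
    · exfalso
      exact h7 (mirror_empty hG h8 hal ⟨h1, h2⟩ h3)
    · rcases col_cases h7 with h9 | ⟨κ, h9⟩ | h9
      · left
        omega
      · exfalso
        have h10 := mirror_empty hG h9 hal ⟨by omega, by omega⟩ (by omega)
        have h11 : 2 * c - (2 * c - w) = w := by ring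
        rw [h11] at h10
        exact h4 h10
      · right
        refine ⟨⟨h1, h2⟩, h3, h8, ?_, ?_⟩
        · rw [← hG.own_old h8]; exact h5
        · rw [← hG.col_old h8, ← hG.col_old h9]; exact h6
  exact (Finset.card_le_card hsub).trans (Finset.card_insert_le _ _)

theorem p_un (hC : Core s) (hU : IUn s) (hG : Good s y a ov τ rg') :
    IUn' (s.ex y a ov τ rg') := by
  intro c h1 h2
  rw [ex_b] at h1 ⊢
  rw [ex_mt] at h2
  have h3 := hU c (hG.alive_old h1) h2
  have h4 := rr_le_succ hC hG h1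
  omega

end MP583455
end

section

namespace MP583455

open Classical

variable {s : St} {y : ℤ} {a : ℕ} {ov : Option (ℤ × ℕ)} {τ : Tag} {rg' : ℤ → ℤ}

private lemma P3b_rr (hC : Core s) (hy : s.b.col y = 0) {c : ℤ}
    (hvis : Vis s.b y (2 * c - y)) :
    rr s.b c ≤ 10000000 - (y - c).natAbs := by
  have hcard : (Finset.Ioc (y - c).natAbs 10000000).card = 10000000 - (y - c).natAbs :=
    Nat.card_Ioc _ _
  rw [← hcard]
  unfold rr
  apply Finset.card_le_card_of_injOn (fun w => (w - c).natAbs)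
  · intro w hw
    rw [Finset.mem_coe, Finset.mem_filter, Finset.mem_Icc] at hw
    obtain ⟨⟨h1, h2⟩, h3, h4, h5, h6⟩ := hw
    rw [Finset.mem_coe, Finset.mem_Ioc]
    show (y - c).natAbs < (w - c).natAbs ∧ (w - c).natAbs ≤ 10000000
    refine ⟨?_, by omega⟩
    by_contra hcon
    have hle : (w - c).natAbs ≤ (y - c).natAbs := by omega
    rcases Nat.lt_or_ge (w - c).natAbs (y - c).natAbs with hlt | hge
    · exact h4 (hvis w (by omega) (by omega))
    · have heq : (w - c).natAbs = (y - c).natAbs := le_antisymm hle hge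
      have : w = y ∨ w = 2 * c - y := by omega
      rcases this with rfl | rfl
      · exact h4 hy
      · have h7 : 2 * c - (2 * c - y) = y := by ring
        rw [h7, hy] at h6
        exact h4 h6
  · intro w hw w' hw' hww
    rw [Finset.mem_coe, Finset.mem_filter, Finset.mem_Icc] at hw hw'
    obtain ⟨⟨h1, h2⟩, h3, h4, h5, h6⟩ := hw
    obtain ⟨⟨h1', h2'⟩, h3', h4', h5', h6'⟩ := hw'
    by_contra hne
    simp only at hww
    have hw2 : w' = 2 * c - w := by omega
    have hnear : Near s.b w w' := near_of_close (by omega) (by omega)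
    have := (hC.fresh w w' ⟨h4, h5⟩ (fun h => hne h.symm) (by rw [hw2]; exact h6.symm) hnear).1
    rw [h5'] at this
    exact absurd this (by decide)

/-- PROOF for a new region of `c` (`FEv s y a c`, radius `ρ = |y-c|`): marked; `204 ≤ ρ` since
`y` is not in the zone; `ρ ≤ 1000001`: `(9000000 : ℕ) ≤ rr s.b c` (`hC.mkd`), every Bob stone `w` counted by
`rr` has `ρ < |w - c| ≤ (10000000 : ℤ)` (cells strictly between `y` and `2c-y` are empty, `y` is empty and
the pair `(y, 2c-y)` is not matched), and `w`, `2c-w` are not both counted (`hC.fresh`), so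
`w ↦ |w-c|` is injective on the counted set and `rr ≤ (10000000 : ℤ) - ρ`.
Ends: `y` is an Alice stone; `w = 2c - y` is a Bob stone whose inner neighbour is empty and whose
inner next-neighbour is empty, so `hC.safe.finR/finL` shows that the outer neighbour is coloured
(`Mid` is impossible).  Old regions: persistence (`Good.col_old`, `Good.own_old`). -/
theorem p_regG (hC : Core s) (hG : Good s y a ov τ rg') : IRegG (s.ex y a ov τ rg') := by
  have hold : ∀ c, s.rg c ≠ 0 → s.mt c ≠ 0 ∧ 204 ≤ s.rg c ∧ s.rg c ≤ 1000001 ∧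
    (bd2 s.b y a ov).col (c + s.rg c) ≠ 0 ∧ (bd2 s.b y a ov).col (c - s.rg c) ≠ 0 ∧
    ((bd2 s.b y a ov).own (c + s.rg c) = false ∨ (bd2 s.b y a ov).col (c + s.rg c + 1) ≠ 0) ∧
    ((bd2 s.b y a ov).own (c - s.rg c) = false ∨
      (bd2 s.b y a ov).col (c - s.rg c - 1) ≠ 0) := by
    intro c hc
    obtain ⟨h1, h2, h3, h4, h5, h6, h7⟩ := hC.regG c hc
    refine ⟨h1, h2, h3, hG.col_ne h4, hG.col_ne h5, ?_, ?_⟩
    · rcases h6 with h6 | h6
      · left; rw [hG.own_old h4]; exact h6
      · right; exact hG.col_ne h6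
    · rcases h7 with h7 | h7
      · left; rw [hG.own_old h5]; exact h7
      · right; exact hG.col_ne h7
  intro c hc
  rw [ex_rg] at hc
  rw [ex_rg, ex_mt, ex_b]
  rcases hG.rgs with h1 | ⟨c0, v, κ, hF, hov, hv, h1⟩
  · rw [h1] at hc ⊢; exact hold c hc
  · by_cases hcc : c = c0
    · subst hcc
      have hrg : rg' c = ((y - c).natAbs : ℤ) := by rw [h1]; simp
      rw [hrg]
      obtain ⟨hH, hz, hW, hB, hcol, hvis⟩ := hF
      have h204 : 204 ≤ (y - c).natAbs := by
        by_contra hlt
        exact hz (Or.inl (by omega))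
      have hrr := P3b_rr (c := c) hC hG.hy hvis
      have hHH := hC.mkd c hH.1
      have hle : (y - c).natAbs ≤ 1000001 := by omega
      rcases lt_or_gt_of_ne (show y ≠ c by rintro rfl; simp at h204) with hlt | hgt
      · have e1 : c + ((y - c).natAbs : ℤ) = 2 * c - y := by omega
        have e2 : c - ((y - c).natAbs : ℤ) = y := by omega
        rw [e1, e2]
        refine ⟨hH.1, by omega, by omega, hG.col_ne hB.1, ?_, Or.inr (hG.col_ne ?_),
          Or.inl hG.own_y⟩
        · rw [hG.col_y]; exact hG.ha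
        · rcases hC.safe.finL (2 * c - y) hB.1 (hvis _ (by omega) (by omega)) with h | h
          · exact h.1
          · exact absurd (hvis (2 * c - y - 2) (by omega) (by omega)) h.2.2.2.2.1
      · have e1 : c + ((y - c).natAbs : ℤ) = y := by omega
        have e2 : c - ((y - c).natAbs : ℤ) = 2 * c - y := by omega
        rw [e1, e2]
        refine ⟨hH.1, by omega, by omega, ?_, hG.col_ne hB.1, Or.inl hG.own_y,
          Or.inr (hG.col_ne ?_)⟩
        · rw [hG.col_y]; exact hG.ha
        · rcases hC.safe.finR (2 * c - y) hB.1 (hvis _ (by omega) (by omega)) with h | h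
          · exact h.1
          · exact absurd (hvis (2 * c - y + 2) (by omega) (by omega)) h.2.2.2.2.2
    · have hrg : rg' c = s.rg c := by rw [h1]; simp [hcc]
      rw [hrg] at hc ⊢; exact hold c hc

end MP583455
end
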