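import Pool.Agent.Lib.MP_583455_co.Mg.G003
import Pool.Agent.Lib.MP_583455_co.Mg.G002

section

namespace MP583455

open Classical

/-- the centre of a kill tag -/
private def F1b_kc : Tag → ℤ
  | Tag.kill c1 => c1
  | _ => 0

private lemma F1b_kill {s : St} (hC : Core s) {c : ℤ} (hc : s.mt c ≠ 0) :
    ((Finset.Icc (c - (10000000 : ℤ)) (c + (10000000 : ℤ))).filter (fun y => stA s.b y ∧
      ∃ c1, c1 ≠ c ∧ s.tag y = Tag.kill c1)).card ≤ 2 := by
  refine le_trans ?_ (dc_le hC.sep hc)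
  unfold dc
  apply Finset.card_le_card_of_injOn (fun y => F1b_kc (s.tag y))
  · intro y hy
    rw [Finset.mem_coe, Finset.mem_filter, Finset.mem_Icc] at hy
    obtain ⟨⟨h1, h2⟩, hA, c1, hne, ht⟩ := hy
    rw [Finset.mem_coe, Finset.mem_filter, Finset.mem_Icc]
    show (c - 2 * 10000000 - 1 ≤ F1b_kc (s.tag y) ∧ F1b_kc (s.tag y) ≤ c + 2 * 10000000 + 1) ∧
      F1b_kc (s.tag y) ≠ c ∧ s.mt (F1b_kc (s.tag y)) ≠ 0 ∧ ¬ Alive s.b (F1b_kc (s.tag y))
    have hk : F1b_kc (s.tag y) = c1 := by rw [ht]; rfl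
    rw [hk]
    obtain ⟨k1, k2, k3⟩ := hC.kill.1 y c1 hA ht
    unfold InW at k3
    exact ⟨⟨by omega, by omega⟩, hne, k1, k2⟩
  · intro y hy y' hy' hyy
    rw [Finset.mem_coe, Finset.mem_filter, Finset.mem_Icc] at hy hy'
    obtain ⟨⟨h1, h2⟩, hA, c1, hne, ht⟩ := hy
    obtain ⟨⟨h1', h2'⟩, hA', c1', hne', ht'⟩ := hy'
    have hk : F1b_kc (s.tag y) = c1 := by rw [ht]; rfl
    have hk' : F1b_kc (s.tag y') = c1' := by rw [ht']; rfl
    have hcc : c1 = c1' := by
      rw [← hk, ← hk']; exact hyy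
    subst hcc
    exact hC.kill.2 y y' c1 hA hA' ht ht'

/-- two Bob stones of a window with the same colour are equal -/
private lemma F1b_uniq {s : St} (hC : Core s) {c w w' : ℤ} (hw : InW c w) (hw' : InW c w')
    (h1 : stB s.b w) (h2 : stB s.b w') (hc : s.b.col w = s.b.col w') : w = w' := by
  by_contra hne
  unfold InW at hw hw'
  have hn : Near s.b w w' := near_of_close (by omega) (by omega)
  have := (hC.fresh w w' h1 (fun h => hne h.symm) hc.symm hn).1
  rw [h2.2] at this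
  exact absurd this (by decide)

/-- the set of possible `q` -/
private noncomputable def F1b_T (s : St) (c : ℤ) : Finset ℤ :=
  insert c (((Finset.Icc (c - (10000000 : ℤ)) (c + (10000000 : ℤ))).filter (fun y => y ≠ c ∧ stA s.b y ∧ s.mt c ≤ s.tm y ∧
    (s.b.col (2 * c - y) = 0 ∨ s.tm y < s.tm (2 * c - y)))) ∪
    (((Finset.Icc (c - (10000000 : ℤ)) (c + (10000000 : ℤ))).filter (fun y => Fx s c y ∧
      s.tm (2 * c - y) < s.mt c)) ∪
    ((Finset.Icc (c - (10000000 : ℤ)) (c + (10000000 : ℤ))).filter (fun y => Fx s c y ∧ stA s.b (2 * c - y) ∧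
      s.mt c ≤ s.tm (2 * c - y)))))

private lemma F1b_T_card {s : St} (hC : Core s) (c : ℤ) :
    (F1b_T s c).card ≤ 1 + 2 * nn s c + b0 s c := by
  unfold F1b_T
  refine le_trans (Finset.card_insert_le _ _) ?_
  have h1 := cnt_fold hC c
  have h2 := cnt_faa hC c
  have h3 : ((Finset.Icc (c - (10000000 : ℤ)) (c + (10000000 : ℤ))).filter (fun y => y ≠ c ∧ stA s.b y ∧ s.mt c ≤ s.tm y ∧
    (s.b.col (2 * c - y) = 0 ∨ s.tm y < s.tm (2 * c - y)))).card = nn s c := rfl
  have h4 := Finset.card_union_le ((Finset.Icc (c - (10000000 : ℤ)) (c + (10000000 : ℤ))).filter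
    (fun y => y ≠ c ∧ stA s.b y ∧ s.mt c ≤ s.tm y ∧
    (s.b.col (2 * c - y) = 0 ∨ s.tm y < s.tm (2 * c - y))))
    (((Finset.Icc (c - (10000000 : ℤ)) (c + (10000000 : ℤ))).filter (fun y => Fx s c y ∧
      s.tm (2 * c - y) < s.mt c)) ∪
    ((Finset.Icc (c - (10000000 : ℤ)) (c + (10000000 : ℤ))).filter (fun y => Fx s c y ∧ stA s.b (2 * c - y) ∧
      s.mt c ≤ s.tm (2 * c - y))))
  have h5 := Finset.card_union_le ((Finset.Icc (c - (10000000 : ℤ)) (c + (10000000 : ℤ))).filter (fun y => Fx s c y ∧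
      s.tm (2 * c - y) < s.mt c))
    ((Finset.Icc (c - (10000000 : ℤ)) (c + (10000000 : ℤ))).filter (fun y => Fx s c y ∧ stA s.b (2 * c - y) ∧
      s.mt c ≤ s.tm (2 * c - y)))
  omega

private lemma F1b_four {s : St} (hC : Core s) {c : ℤ} (h0 : Hot0 s c) :
    ((Finset.Icc (c - (10000000 : ℤ)) (c + (10000000 : ℤ))).filter (fun y => (Fx s c y ∧ stB s.b (2 * c - y) ∧
      s.mt c ≤ s.tm (2 * c - y)) ∧
      ∃ q, InW c q ∧ q ≠ y ∧ stA s.b q ∧ s.b.col q = s.b.col (2 * c - y))).card ≤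
      1 + 2 * nn s c + b0 s c := by
  refine le_trans ?_ (F1b_T_card hC c)
  have hch : ∀ y : ℤ, ∃ q : ℤ, (∃ q, InW c q ∧ q ≠ y ∧ stA s.b q ∧
      s.b.col q = s.b.col (2 * c - y)) → (InW c q ∧ q ≠ y ∧ stA s.b q ∧
      s.b.col q = s.b.col (2 * c - y)) := by
    intro y
    by_cases h : ∃ q, InW c q ∧ q ≠ y ∧ stA s.b q ∧ s.b.col q = s.b.col (2 * c - y)
    · obtain ⟨q, hq⟩ := h
      exact ⟨q, fun _ => hq⟩
    · exact ⟨0, fun h' => absurd h' h⟩
  choose f hf using hch
  apply Finset.card_le_card_of_injOn f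
  · intro y hy
    rw [Finset.mem_coe, Finset.mem_filter, Finset.mem_Icc] at hy
    obtain ⟨⟨h1, h2⟩, ⟨hfx, hB, hmt⟩, hex⟩ := hy
    obtain ⟨q1, q2, q3, q4⟩ := hf y hex
    rw [Finset.mem_coe]
    generalize hq : f y = q at *
    have hWw : InW c (2 * c - y) := by unfold InW; omega
    have hqw : q ≠ 2 * c - y := by
      intro h
      rw [h] at q3
      have := q3.2
      rw [hB.2] at this
      exact absurd this (by decide)
    have hnear : Near s.b (2 * c - y) q := by
      unfold InW at q1 hWw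
      exact near_of_close (by omega) (by omega)
    have hyoung := (hC.fresh (2 * c - y) q hB hqw q4 hnear).2
    have hnew : s.mt c ≤ s.tm q := by omega
    unfold F1b_T
    rw [Finset.mem_insert, Finset.mem_union, Finset.mem_union, Finset.mem_filter,
      Finset.mem_filter, Finset.mem_filter, Finset.mem_Icc]
    by_cases hqc : q = c
    · exact Or.inl hqc
    · right
      have q1' : c - 10000000 ≤ q ∧ q ≤ c + 10000000 := q1
      by_cases hm : s.b.col (2 * c - q) = 0 ∨ s.tm q < s.tm (2 * c - q)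
      · left
        exact ⟨q1', hqc, q3, hnew, hm⟩
      · right
        push Not at hm
        obtain ⟨m1, m2⟩ := hm
        have hlt : s.tm (2 * c - q) < s.tm q := by
          rcases Nat.lt_or_ge (s.tm (2 * c - q)) (s.tm q) with h | h
          · exact h
          · exfalso
            have he := hC.time.2.2.1 (2 * c - q) q m1 q3.1 (le_antisymm m2 h)
            omega
        have hFq : Fx s c q := ⟨hqc, q3, hnew, m1, hlt⟩
        by_cases hold : s.tm (2 * c - q) < s.mt c
        · left; exact ⟨q1', hFq, hold⟩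
        · right
          refine ⟨q1', hFq, ?_, not_lt.mp hold⟩
          cases hown : s.b.own (2 * c - q) with
          | false => exact ⟨m1, hown⟩
          | true =>
            exfalso
            have hcol : s.b.col q = s.b.col (2 * c - q) :=
              h0.2.1 q q1'.1 q1'.2 q3.1 m1
            have hWq : InW c (2 * c - q) := by unfold InW; omega
            have := F1b_uniq hC hWw hWq hB ⟨m1, hown⟩ (by rw [← q4, hcol])
            exact q2 (by omega)
  · intro y hy y' hy' hyy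
    rw [Finset.mem_coe, Finset.mem_filter, Finset.mem_Icc] at hy hy'
    obtain ⟨⟨h1, h2⟩, ⟨hfx, hB, hmt⟩, hex⟩ := hy
    obtain ⟨⟨h1', h2'⟩, ⟨hfx', hB', hmt'⟩, hex'⟩ := hy'
    obtain ⟨q1, q2, q3, q4⟩ := hf y hex
    obtain ⟨q1', q2', q3', q4'⟩ := hf y' hex'
    have hW : InW c (2 * c - y) := by unfold InW; omega
    have hW' : InW c (2 * c - y') := by unfold InW; omega
    have := F1b_uniq hC hW hW' hB hB' (by rw [← q4, ← q4', hyy])
    omega

/-- new fixes of new Bob stones. PROOF by `hC.xb`: such a `y` is in the zone (`≤ 1221`,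
`zoneW_le`), or outside the zone with tag `fixp` (`≤ fpr`), or tag `kill c1` with `c1 ≠ c`:
`c1` is marked, `InW c1 y`, so `|c1 - c| ≤ 2*(10000000 : ℤ)`, at most 2 such `c1` (as in `dc_le`), each with at
most one stone (`hC.kill.2`); or there is another Alice stone `q ≠ y` in the window with the colour of
`w = 2c - y`; it is younger than `w` (`hC.fresh`), so new. The map `y ↦ q` is injective (the colour
of `q` determines `w`: two Bob stones of the window have different colours by `hC.fresh`), and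
`q` is `c`, or counted by `nn`, or a fix of an older stone (`cnt_fold`), or a fix of a new Alice
stone (`cnt_faa`); it is not a fix of a Bob stone `w2` since then `w2` has the colour of `w`, so
`w2 = w` and `q = y`.  Total `1221 + fpr + 2 + 1 + nn + b0 + nn`. -/
theorem cnt_fba {s : St} (hC : Core s) {c : ℤ} (h0 : Hot0 s c) :
    ((Finset.Icc (c - (10000000 : ℤ)) (c + (10000000 : ℤ))).filter (fun y => Fx s c y ∧ stB s.b (2 * c - y) ∧
      s.mt c ≤ s.tm (2 * c - y))).card ≤ 1224 + fpr s c + 2 * nn s c + b0 s c := by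
  have h1 := zoneW_le c
  have h2 : ((Finset.Icc (c - (10000000 : ℤ)) (c + (10000000 : ℤ))).filter
    (fun y => ¬ Zone c y ∧ Fx s c y ∧ isFixp (s.tag y))).card = fpr s c := rfl
  have h3 := F1b_kill hC h0.1
  have h4 := F1b_four hC h0
  have hsub : (Finset.Icc (c - (10000000 : ℤ)) (c + (10000000 : ℤ))).filter (fun y => Fx s c y ∧ stB s.b (2 * c - y) ∧
      s.mt c ≤ s.tm (2 * c - y)) ⊆
    ((Finset.Icc (c - (10000000 : ℤ)) (c + (10000000 : ℤ))).filter (fun z => Zone c z) ∪
    (Finset.Icc (c - (10000000 : ℤ)) (c + (10000000 : ℤ))).filter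
      (fun y => ¬ Zone c y ∧ Fx s c y ∧ isFixp (s.tag y))) ∪
    ((Finset.Icc (c - (10000000 : ℤ)) (c + (10000000 : ℤ))).filter (fun y => stA s.b y ∧
      ∃ c1, c1 ≠ c ∧ s.tag y = Tag.kill c1) ∪
    (Finset.Icc (c - (10000000 : ℤ)) (c + (10000000 : ℤ))).filter (fun y => (Fx s c y ∧ stB s.b (2 * c - y) ∧
      s.mt c ≤ s.tm (2 * c - y)) ∧
      ∃ q, InW c q ∧ q ≠ y ∧ stA s.b q ∧ s.b.col q = s.b.col (2 * c - y))) := by
    intro y hy
    rw [Finset.mem_filter] at hy
    rw [Finset.mem_union, Finset.mem_union, Finset.mem_union, Finset.mem_filter,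
      Finset.mem_filter, Finset.mem_filter, Finset.mem_filter]
    obtain ⟨hW, hfx, hB, hmt⟩ := hy
    have hW' : InW c y := Finset.mem_Icc.mp hW
    by_cases hz : Zone c y
    · exact Or.inl (Or.inl ⟨hW, hz⟩)
    · rcases hC.xb c y h0 hW' hfx hB.2 hmt with h | h | h | h
      · exact absurd h hz
      · exact Or.inl (Or.inr ⟨hW, hz, hfx, h⟩)
      · exact Or.inr (Or.inl ⟨hW, hfx.2.1, h⟩)
      · exact Or.inr (Or.inr ⟨hW, ⟨hfx, hB, hmt⟩, h⟩)
  have h5 := Finset.card_le_card hsub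
  have h6 := Finset.card_union_le ((Finset.Icc (c - (10000000 : ℤ)) (c + (10000000 : ℤ))).filter (fun z => Zone c z) ∪
    (Finset.Icc (c - (10000000 : ℤ)) (c + (10000000 : ℤ))).filter
      (fun y => ¬ Zone c y ∧ Fx s c y ∧ isFixp (s.tag y)))
    ((Finset.Icc (c - (10000000 : ℤ)) (c + (10000000 : ℤ))).filter (fun y => stA s.b y ∧
      ∃ c1, c1 ≠ c ∧ s.tag y = Tag.kill c1) ∪
    (Finset.Icc (c - (10000000 : ℤ)) (c + (10000000 : ℤ))).filter (fun y => (Fx s c y ∧ stB s.b (2 * c - y) ∧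
      s.mt c ≤ s.tm (2 * c - y)) ∧
      ∃ q, InW c q ∧ q ≠ y ∧ stA s.b q ∧ s.b.col q = s.b.col (2 * c - y)))
  have h7 := Finset.card_union_le ((Finset.Icc (c - (10000000 : ℤ)) (c + (10000000 : ℤ))).filter (fun z => Zone c z))
    ((Finset.Icc (c - (10000000 : ℤ)) (c + (10000000 : ℤ))).filter
      (fun y => ¬ Zone c y ∧ Fx s c y ∧ isFixp (s.tag y)))
  have h8 := Finset.card_union_le ((Finset.Icc (c - (10000000 : ℤ)) (c + (10000000 : ℤ))).filter (fun y => stA s.b y ∧
      ∃ c1, c1 ≠ c ∧ s.tag y = Tag.kill c1))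
    ((Finset.Icc (c - (10000000 : ℤ)) (c + (10000000 : ℤ))).filter (fun y => (Fx s c y ∧ stB s.b (2 * c - y) ∧
      s.mt c ≤ s.tm (2 * c - y)) ∧
      ∃ q, InW c q ∧ q ≠ y ∧ stA s.b q ∧ s.b.col q = s.b.col (2 * c - y)))
  omega

end MP583455
end

section

namespace MP583455

open Classical

/-- PROOF: mirror the counted Bob stones; the mirror is an Alice stone by `hC.fresh`
(distance `≤ 2*(10000000 : ℤ)`, `near_of_close`). -/
theorem rr_eq {s : St} (hC : Core s) (c : ℤ) :
    rr s.b c = ((Finset.Icc (c - (10000000 : ℤ)) (c + (10000000 : ℤ))).filter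
      (fun q => q ≠ c ∧ stA s.b q ∧ stB s.b (2 * c - q) ∧
        s.b.col q = s.b.col (2 * c - q))).card := by
  unfold rr
  refine Finset.card_bij' (fun w _ => 2 * c - w) (fun w _ => 2 * c - w) ?_ ?_ ?_ ?_
  · intro w hw
    rw [Finset.mem_filter, Finset.mem_Icc] at hw ⊢
    obtain ⟨⟨h1, h2⟩, h3, h4, h5, h6⟩ := hw
    have h7 : 2 * c - (2 * c - w) = w := by ring
    rw [h7]
    have h8 : (2 * c - w) ≠ w := by omega
    have h9 := (hC.fresh w (2 * c - w) ⟨h4, h5⟩ h8 h6.symm
      (near_of_close (by omega) (by omega))).1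
    refine ⟨⟨by omega, by omega⟩, by omega, ⟨?_, h9⟩, ⟨h4, h5⟩, h6.symm⟩
    rw [← h6]
    exact h4
  · intro w hw
    rw [Finset.mem_filter, Finset.mem_Icc] at hw ⊢
    obtain ⟨⟨h1, h2⟩, h3, h4, h5, h6⟩ := hw
    have h7 : 2 * c - (2 * c - w) = w := by ring
    rw [h7]
    exact ⟨⟨by omega, by omega⟩, by omega, h5.1, h5.2, h6.symm⟩
  · intro w hw
    ring
  · intro w hw
    ring

/-- PROOF: suppose `2*(c'-c) < 3*(10000000 : ℤ)`, `J = [c-(10000000 : ℤ), c'+(10000000 : ℤ)]`, number of cells `|J| = 2*(10000000 : ℤ)+1+(c'-c)`.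
The Alice stones counted by `rr_eq` for `c` and for `c'` are disjoint: a common `q` would have
two Bob stones `2c-q`, `2c'-q` of the same colour at distance `< 3*(10000000 : ℤ)`, so by `hC.fresh` they are
equal. Hence `cA J ≥ 2*(9000000 : ℕ)`. But `cA J + cB J ≤ |J|` and `cA J ≤ cB J + 220000`, so
`2 * cA J ≤ |J| + 220000 ≤ 35000001 + 220000 < 4*(9000000 : ℕ)`. -/
theorem sep_of_rr {s : St} (hC : Core s) {c c' : ℤ} (h1 : (9000000 : ℕ) ≤ rr s.b c) (h2 : (9000000 : ℕ) ≤ rr s.b c')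
    (hlt : c < c') : 3 * (10000000 : ℤ) ≤ 2 * (c' - c) := by
  by_contra hcon
  rw [rr_eq hC] at h1 h2
  have hdisj : Disjoint ((Finset.Icc (c - (10000000 : ℤ)) (c + (10000000 : ℤ))).filter
      (fun q => q ≠ c ∧ stA s.b q ∧ stB s.b (2 * c - q) ∧ s.b.col q = s.b.col (2 * c - q)))
      ((Finset.Icc (c' - (10000000 : ℤ)) (c' + (10000000 : ℤ))).filter
      (fun q => q ≠ c' ∧ stA s.b q ∧ stB s.b (2 * c' - q) ∧
        s.b.col q = s.b.col (2 * c' - q))) := by
    rw [Finset.disjoint_left]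
    intro q hq hq'
    rw [Finset.mem_filter] at hq hq'
    obtain ⟨-, -, -, h5, h6⟩ := hq
    obtain ⟨-, -, -, h5', h6'⟩ := hq'
    have h7 := (hC.fresh (2 * c - q) (2 * c' - q) h5 (by omega) (by rw [← h6', ← h6])
      (near_of_close (by omega) (by omega))).1
    rw [h5'.2] at h7
    exact absurd h7 (by decide)
  have hsub : (((Finset.Icc (c - (10000000 : ℤ)) (c + (10000000 : ℤ))).filter
      (fun q => q ≠ c ∧ stA s.b q ∧ stB s.b (2 * c - q) ∧ s.b.col q = s.b.col (2 * c - q))) ∪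
      ((Finset.Icc (c' - (10000000 : ℤ)) (c' + (10000000 : ℤ))).filter
      (fun q => q ≠ c' ∧ stA s.b q ∧ stB s.b (2 * c' - q) ∧
        s.b.col q = s.b.col (2 * c' - q)))) ⊆
      (Finset.Icc (c - (10000000 : ℤ)) (c' + (10000000 : ℤ))).filter (fun z => stA s.b z) := by
    intro q hq
    rw [Finset.mem_union, Finset.mem_filter, Finset.mem_filter, Finset.mem_Icc,
      Finset.mem_Icc] at hq
    rw [Finset.mem_filter, Finset.mem_Icc]
    rcases hq with ⟨h5, h6, h7, -⟩ | ⟨h5, h6, h7, -⟩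
    · exact ⟨⟨by omega, by omega⟩, h7⟩
    · exact ⟨⟨by omega, by omega⟩, h7⟩
  have h3 := Finset.card_le_card hsub
  rw [Finset.card_union_of_disjoint hdisj] at h3
  have h4 := delta hC (c - (10000000 : ℤ)) (c' + (10000000 : ℤ)) (by omega) (by omega)
  have hdisj2 : Disjoint ((Finset.Icc (c - (10000000 : ℤ)) (c' + (10000000 : ℤ))).filter (fun z => stA s.b z))
      ((Finset.Icc (c - (10000000 : ℤ)) (c' + (10000000 : ℤ))).filter (fun z => stB s.b z)) := by
    rw [Finset.disjoint_left]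
    intro q hq hq'
    rw [Finset.mem_filter] at hq hq'
    have h7 := hq.2.2
    rw [hq'.2.2] at h7
    exact absurd h7 (by decide)
  have hsub2 : ((Finset.Icc (c - (10000000 : ℤ)) (c' + (10000000 : ℤ))).filter (fun z => stA s.b z)) ∪
      ((Finset.Icc (c - (10000000 : ℤ)) (c' + (10000000 : ℤ))).filter (fun z => stB s.b z)) ⊆
      Finset.Icc (c - (10000000 : ℤ)) (c' + (10000000 : ℤ)) :=
    Finset.union_subset (Finset.filter_subset _ _) (Finset.filter_subset _ _)
  have h5 := Finset.card_le_card hsub2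
  rw [Finset.card_union_of_disjoint hdisj2, Int.card_Icc] at h5
  unfold cA cB at h4
  omega

end MP583455
end

section

namespace MP583455

open Classical

/-- PROOF. Board, times, tags, regions do not change; `mt` changes from `0` to `s.now ≥ 1` exactly for
the unmarked alive centres with `(9000000 : ℕ) ≤ rr`; `mt c ≠ 0` persists with the same value. `Fx s c y` depends only on
`mt c`, which is unchanged when `mt c ≠ 0` (and `tag y = fixp c` implies `mt c ≠ 0`); for the counting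
part of `IFixp` the set is the same.  `rg c ≠ 0` implies `mt c ≠ 0` (`hC.regG`), so `HotR` is unchanged.
`IUn`: alive, `s.mark.mt c = 0` implies `s.mt c = 0` and `rr < (9000000 : ℕ)` (otherwise it would be marked). -/
theorem mk_tags {s : St} (hC : Core s) :
    ITime s.mark ∧ INreg s.mark ∧ ICtr s.mark ∧ IKill s.mark ∧ IFixp s.mark ∧ IMk s.mark ∧
      IIso s.mark ∧ IRegG s.mark ∧ IRegP s.mark ∧ IUn s.mark := by
  obtain ⟨t1, t2, t3, t4⟩ := hC.time
  have hmt : ∀ c, s.mark.mt c = if s.mt c = 0 ∧ Alive s.b c ∧ (9000000 : ℕ) ≤ rr s.b c then s.now else s.mt c :=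
    fun c => rfl
  have hkeep : ∀ c, s.mt c ≠ 0 → s.mark.mt c = s.mt c := by
    intro c hc
    rw [hmt, if_neg (fun h => hc h.1)]
  have hne : ∀ c, s.mt c ≠ 0 → s.mark.mt c ≠ 0 := fun c hc => by rw [hkeep c hc]; exact hc
  have hb : s.mark.b = s.b := rfl
  have ht : s.mark.tm = s.tm := rfl
  have htag : s.mark.tag = s.tag := rfl
  have hrg : s.mark.rg = s.rg := rfl
  have hnow : s.mark.now = s.now := rfl
  have hFx : ∀ c y, s.mt c ≠ 0 → (Fx s.mark c y ↔ Fx s c y) := by
    intro c y hc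
    unfold Fx
    rw [hb, ht, hkeep c hc]
  refine ⟨?_, ?_, ?_, ?_, ?_, ?_, ?_, ?_, ?_, ?_⟩
  · refine ⟨t1, t2, t3, ?_⟩
    intro c
    rw [hmt, hnow]
    split_ifs
    · exact le_rfl
    · exact t4 c
  · intro y c h1 h2
    obtain ⟨h3, h4, h5⟩ := hC.nreg y c h1 h2
    exact ⟨hne c h3, h4, h5⟩
  · intro y c h1 h2
    obtain ⟨h3, h4⟩ := hC.ctr y c h1 h2
    exact ⟨hne c h3, h4⟩
  · refine ⟨?_, hC.kill.2⟩
    intro y c h1 h2
    obtain ⟨h3, h4⟩ := hC.kill.1 y c h1 h2
    exact ⟨hne c h3, h4⟩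
  · refine ⟨?_, hC.fixp.2⟩
    intro y c h1 h2
    obtain ⟨h3, h4, h5⟩ := hC.fixp.1 y c h1 h2
    exact ⟨hne c h3, h4, (hFx c y h3).2 h5⟩
  · intro c hc
    rw [hb]
    by_cases h : s.mt c = 0
    · rw [hmt] at hc
      by_cases h' : s.mt c = 0 ∧ Alive s.b c ∧ (9000000 : ℕ) ≤ rr s.b c
      · exact h'.2.2
      · rw [if_neg h'] at hc; exact absurd h hc
    · exact hC.mkd c h
  · intro z h1 h2 h3
    exact hne z (hC.iso z h1 h2 h3)
  · intro c hc
    obtain ⟨h1, h2⟩ := hC.regG c hc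
    exact ⟨hne c h1, h2⟩
  · intro c hc
    have h1 : s.rg c ≠ 0 := hc.2.2
    exact hC.regP c ⟨(hC.regG c h1).1, hc.2.1, h1⟩
  · intro c hal hm
    rw [hb] at hal ⊢
    by_contra hcon
    have h3 : s.mt c = 0 := by
      by_contra h; exact hne c h hm
    rw [hmt, if_pos ⟨h3, hal, by omega⟩] at hm
    omega

end MP583455
end

section

namespace MP583455

open Classical

/-- PROOF. The mark time is `s.now`, all coloured cells have times `< s.now` (`hC.time`).
So `nn`, `fpr` count nothing. `oldc` counts all coloured cells of the window.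
`b0` counts the `z ≠ c` coloured with empty mirror: these are the mirrors of the half-cells. -/
theorem mk_new {s : St} (hC : Core s) {c : ℤ} (h0 : s.mt c = 0) (h1 : Alive s.b c)
    (h2 : (9000000 : ℕ) ≤ rr s.b c) :
    s.mark.mt c = s.now ∧ nn s.mark c = 0 ∧ fpr s.mark c = 0 ∧ b0 s.mark c = bb s.b c ∧
      oldc s.mark c = colW s.b c := by
  have hm : s.mark.mt c = s.now := by
    simp only [St.mark]
    rw [if_pos ⟨h0, h1, h2⟩]
  obtain ⟨t1, t2, t3, t4⟩ := hC.time
  have hb : s.mark.b = s.b := rfl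
  have ht : s.mark.tm = s.tm := rfl
  refine ⟨hm, ?_, ?_, ?_, ?_⟩
  · unfold nn
    rw [Finset.card_eq_zero, Finset.filter_eq_empty_iff]
    rintro y _ ⟨_, h3, h4, _⟩
    rw [hm, ht] at h4
    have := t2 y (by rw [hb] at h3; exact h3.1)
    omega
  · unfold fpr
    rw [Finset.card_eq_zero, Finset.filter_eq_empty_iff]
    rintro y _ ⟨_, ⟨_, h3, h4, _⟩, _⟩
    rw [hm, ht] at h4
    have := t2 y (by rw [hb] at h3; exact h3.1)
    omega
  · unfold b0 bb
    rw [hb, ht, hm]
    apply le_antisymm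
    · refine Finset.card_le_card_of_injOn (fun y => 2 * c - y) ?_ ?_
      · intro y hy
        simp only [Finset.coe_filter, Set.mem_ofPred_eq, Finset.mem_Icc] at hy ⊢
        obtain ⟨h3, h4, h5, h6, h7⟩ := hy
        refine ⟨by omega, by omega, by omega, by omega, ?_, ?_⟩
        · rcases h7 with h7 | h7
          · exact h7
          · by_contra hcon
            have := t2 _ hcon
            omega
        · rw [show 2 * c - (2 * c - y) = y by ring]; exact h5
      · intro y _ z _ h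
        simp only at h
        omega
    · refine Finset.card_le_card_of_injOn (fun y => 2 * c - y) ?_ ?_
      · intro y hy
        simp only [Finset.coe_filter, Set.mem_ofPred_eq, Finset.mem_Icc] at hy ⊢
        obtain ⟨h3, h4, h5, h6, h7, h8⟩ := hy
        refine ⟨by omega, by omega, h8, t2 _ h8, Or.inl ?_⟩
        rw [show 2 * c - (2 * c - y) = y by ring]; exact h7
      · intro y _ z _ h
        simp only at h
        omega
  · unfold oldc colW
    rw [hb, ht, hm]
    congr 1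
    ext z
    simp only [Finset.mem_filter, Finset.mem_Icc]
    constructor
    · rintro ⟨h3, h4, _⟩; exact ⟨h3, h4⟩
    · rintro ⟨h3, h4⟩; exact ⟨h3, h4, t2 z h4⟩

end MP583455
end

section

namespace MP583455

open Classical

/-- nothing changes for centres which are already marked -/
theorem mk_old {s : St} {c : ℤ} (h0 : s.mt c ≠ 0) :
    s.mark.mt c = s.mt c ∧ nn s.mark c = nn s c ∧ fpr s.mark c = fpr s c ∧ b0 s.mark c = b0 s c ∧
      oldc s.mark c = oldc s c := by
  have h1 : s.mark.mt c = s.mt c := by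
    unfold St.mark
    exact if_neg (fun h => h0 h.1)
  have hb : s.mark.b = s.b := rfl
  have ht : s.mark.tm = s.tm := rfl
  have hg : s.mark.tag = s.tag := rfl
  refine ⟨h1, ?_, ?_, ?_, ?_⟩
  · unfold nn
    rw [h1, hb, ht]
  · unfold fpr Fx
    rw [h1, hb, ht, hg]
  · unfold b0
    rw [h1, hb, ht]
  · unfold oldc
    rw [h1, hb, ht]

/-- new marks are alive, so `dc` does not change -/
theorem mk_exc {s : St} (c : ℤ) : exc s.mark c = exc s c := by
  have hb : s.mark.b = s.b := rfl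
  have hd : dc s.mark c = dc s c := by
    unfold dc
    rw [hb]
    congr 1
    apply Finset.filter_congr
    intro c1 _
    constructor
    · rintro ⟨h1, h2, h3⟩
      refine ⟨h1, ?_, h3⟩
      have h4 : s.mark.mt c1 = s.mt c1 := by
        unfold St.mark
        exact if_neg (fun h => h3 h.2.1)
      rwa [h4] at h2
    · rintro ⟨h1, h2, h3⟩
      refine ⟨h1, ?_, h3⟩
      have h4 : s.mark.mt c1 = s.mt c1 := by
        unfold St.mark
        exact if_neg (fun h => h3 h.2.1)
      rwa [h4]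
  unfold exc
  rw [hd, hb]

end MP583455
end
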