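import Pool.Agent.Lib.MP_583455_co.Mg.G001

section

namespace MP583455

open Classical

/-- PROOF. Let `κ` be fresh at `v` for `b1 = b.put y a false`, `b2 = b1.put v κ true`.
(A coloured cell `e` of `b1` with `Vis b1 v e`, or at distance ≤ 2 from `v`, is near `v`, so
its colour is `≠ κ`.)
`par` for `b2`: let `l < r` be a violating pair.  `l = v` or `r = v` is impossible by freshness
(`near_of_vis`).  If `l = y`: `b.col r = a`, all cells between are empty in `b`, so `hpR` gives
`y < v < r`, but `v` is coloured in `b2` - contradiction; `r = y` similar with `hpL`.  Otherwise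
`l, r` are old stones and `hs.par` applies (cells empty in `b2` are empty in `b`).
`finR` for `b2` at `z` (`b2.col (z+1) = 0`):
* `z = v`: if `b1.col (v-1) ≠ 0` then it is `≠ κ` by freshness. Otherwise `hn` gives
  `b1.col (v-2) ≠ 0`, `b1.col (v+2) ≠ 0`, so `Mid b2 v`.
* `z = y`: then `v ≠ y+1`, `b.col (y+1) = 0`. If `v = y-1`: `κ ≠ a` by freshness. Else
  `b.col (y-1)` is `≠ 0` (else `hiso` gives `v = y+1`) and `≠ a` (else `hdR` gives `v = y+1`).
* other `z`: `hs.finR z`. First alternative persists. If `Mid b z`: if `z-1 = v` the colour is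
  fresh; if `z - 1 = y` and `a ≠ b.col z` fine; if `a = b.col z` then `hhR` gives `v = y+2 = z+1`,
  contradiction; otherwise `z-1` still empty and `Mid b2 z`.
`finL` is symmetric. -/
theorem safeR_of {b : Bd} (hs : Safe b) {y v : ℤ} {a : ℕ} (hy : b.col y = 0) (ha : a ≠ 0)
    (hv : b.col v = 0) (hvy : v ≠ y)
    (hn : (b.put y a false).col (v - 1) ≠ 0 ∨ (b.put y a false).col (v + 1) ≠ 0 ∨
      ((b.put y a false).col (v - 2) ≠ 0 ∧ (b.put y a false).col (v + 2) ≠ 0))
    (hpR : ∀ e, y < e → b.col e = a → (e - y) % 2 = 0 →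
      (∀ z, y < z → z < e → b.col z = 0) → y < v ∧ v < e)
    (hpL : ∀ e, e < y → b.col e = a → (y - e) % 2 = 0 →
      (∀ z, e < z → z < y → b.col z = 0) → e < v ∧ v < y)
    (hiso : b.col (y - 1) = 0 → b.col (y + 1) = 0 → v = y - 1 ∨ v = y + 1)
    (hdR : b.col (y - 1) = a → b.col (y + 1) = 0 → v = y + 1)
    (hdL : b.col (y + 1) = a → b.col (y - 1) = 0 → v = y - 1)
    (hhR : Mid b (y + 1) → b.col (y + 1) = a → v = y + 2)
    (hhL : Mid b (y - 1) → b.col (y - 1) = a → v = y - 2) :
    SafeR (b.put y a false) v := by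
  intro κ hκ
  have c1y : (b.put y a false).col y = a := by simp
  have c1 : ∀ z, z ≠ y → (b.put y a false).col z = b.col z := fun z hz => by simp [hz]
  have c2v : ((b.put y a false).put v κ true).col v = κ := by simp
  have c2 : ∀ z, z ≠ v → ((b.put y a false).put v κ true).col z = (b.put y a false).col z :=
    fun z hz => by simp [hz]
  have o2v : ((b.put y a false).put v κ true).own v = true := by simp
  have o2 : ∀ z, z ≠ v → z ≠ y → ((b.put y a false).put v κ true).own z = b.own z :=
    fun z hz hz' => by simp [hz, hz']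
  have c2o : ∀ z, z ≠ v → z ≠ y → ((b.put y a false).put v κ true).col z = b.col z :=
    fun z hz hz' => by rw [c2 z hz, c1 z hz']
  have emp : ∀ z, ((b.put y a false).put v κ true).col z = 0 → z ≠ v ∧ z ≠ y ∧ b.col z = 0 := by
    intro z hz
    have h1 : z ≠ v := by rintro rfl; exact hκ.1 (by rw [← c2v, hz])
    have h2 : z ≠ y := by rintro rfl; rw [c2 z h1, c1y] at hz; exact ha hz
    exact ⟨h1, h2, by rw [← c2o z h1 h2]; exact hz⟩
  have fr : ∀ w, w ≠ v → (b.put y a false).col w ≠ 0 → w - v ≤ 2 → v - w ≤ 2 →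
      (b.put y a false).col w ≠ κ := fun w _ h1 h2 h3 =>
    hκ.2 w h1 (near_of_close (by omega) (by omega))
  have keepMid : ∀ z, z ≠ v → z ≠ y → Mid b z → z - 1 ≠ v → z - 1 ≠ y → z + 1 ≠ v → z + 1 ≠ y →
      Mid ((b.put y a false).put v κ true) z := by
    intro z h1 h2 hM h3 h4 h5 h6
    obtain ⟨m1, m2, m3, m4, m5, m6⟩ := hM
    have h7 : z - 2 ≠ v := by intro h; rw [h] at m5; exact m5 hv
    have h8 : z - 2 ≠ y := by intro h; rw [h] at m5; exact m5 hy
    have h9 : z + 2 ≠ v := by intro h; rw [h] at m6; exact m6 hv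
    have h10 : z + 2 ≠ y := by intro h; rw [h] at m6; exact m6 hy
    exact ⟨by rw [c2o z h1 h2]; exact m1, by rw [o2 z h1 h2]; exact m2,
      by rw [c2o _ h3 h4]; exact m3, by rw [c2o _ h5 h6]; exact m4,
      by rw [c2o _ h7 h8]; exact m5, by rw [c2o _ h9 h10]; exact m6⟩
  refine ⟨?_, ?_, ?_⟩
  · intro l r hlr hl heq hpar hb
    by_cases h1 : l = v
    · subst h1
      have hr1 : r ≠ l := by omega
      rw [c2v, c2 r hr1] at heq
      have hr0 : (b.put y a false).col r ≠ 0 := by rw [← heq]; exact hκ.1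
      refine hκ.2 r hr0 (near_of_vis ?_) heq.symm
      intro z hz1 hz2
      have := emp z (hb z (by omega) (by omega))
      rw [c1 z this.2.1]; exact this.2.2
    by_cases h2 : r = v
    · subst h2
      rw [c2v, c2 l h1] at heq
      have hl0 : (b.put y a false).col l ≠ 0 := by rw [heq]; exact hκ.1
      refine hκ.2 l hl0 (near_of_vis ?_) heq
      intro z hz1 hz2
      have := emp z (hb z (by omega) (by omega))
      rw [c1 z this.2.1]; exact this.2.2
    by_cases h3 : l = y
    · subst h3
      have hry : r ≠ l := by omega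
      rw [c2 l h1, c1y, c2o r h2 hry] at heq
      have := hpR r hlr heq.symm hpar (fun z hz1 hz2 => (emp z (hb z hz1 hz2)).2.2)
      exact (emp v (hb v this.1 this.2)).1 rfl
    by_cases h4 : r = y
    · subst h4
      rw [c2 r h2, c1y, c2o l h1 h3] at heq
      have := hpL l hlr heq hpar (fun z hz1 hz2 => (emp z (hb z hz1 hz2)).2.2)
      exact (emp v (hb v this.1 this.2)).1 rfl
    rw [c2o l h1 h3] at hl heq
    rw [c2o r h2 h4] at heq
    exact hs.par l r hlr hl heq hpar (fun z hz1 hz2 => (emp z (hb z hz1 hz2)).2.2)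
  · intro z hz hz1
    obtain ⟨e1, e2, e3⟩ := emp _ hz1
    by_cases h1 : z = v
    · subst h1
      by_cases h2 : (b.put y a false).col (z - 1) = 0
      · right
        rcases hn with hn | hn | hn
        · exact absurd h2 hn
        · rw [c1 _ e2] at hn
          exact absurd e3 hn
        · refine ⟨hz, o2v, ?_, hz1, ?_, ?_⟩
          · rw [c2 _ (by omega)]; exact h2
          · rw [c2 _ (by omega)]; exact hn.1
          · rw [c2 _ (by omega)]; exact hn.2
      · left
        rw [c2 _ (by omega), c2v]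
        exact ⟨h2, fr _ (by omega) h2 (by omega) (by omega)⟩
    by_cases h2 : z = y
    · subst h2
      by_cases h3 : v = z - 1
      · left
        rw [← h3, c2v, c2 _ h1, c1y]
        refine ⟨hκ.1, ?_⟩
        have := fr z h1 (by rw [c1y]; exact ha) (by omega) (by omega)
        rw [c1y] at this
        exact fun h => this h.symm
      · left
        rw [c2o _ (by omega) (by omega), c2 _ h1, c1y]
        refine ⟨?_, ?_⟩
        · intro h
          rcases hiso h e3 with h4 | h4
          · exact h3 h4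
          · exact e1 h4.symm
        · intro h
          exact e1 (hdR h e3).symm
    rw [c2o z h1 h2] at hz
    rcases hs.finR z hz e3 with ⟨f1, f2⟩ | hM
    · left
      have h3 : z - 1 ≠ v := by intro h; rw [h] at f1; exact f1 hv
      have h4 : z - 1 ≠ y := by intro h; rw [h] at f1; exact f1 hy
      rw [c2o _ h3 h4, c2o z h1 h2]
      exact ⟨f1, f2⟩
    · by_cases h3 : z - 1 = v
      · left
        rw [h3, c2v, c2 _ h1]
        refine ⟨hκ.1, ?_⟩
        have := fr z h1 (by rw [c1 _ h2]; exact hz) (by omega) (by omega)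
        exact fun h => this h.symm
      by_cases h4 : z - 1 = y
      · left
        rw [c2 _ h3, h4, c1y, c2o z h1 h2]
        refine ⟨ha, ?_⟩
        intro h
        have hz' : z = y + 1 := by omega
        rw [hz'] at hM
        have := hhR hM (by rw [← hz']; exact h.symm)
        omega
      right
      exact keepMid z h1 h2 hM h3 h4 e1 e2
  · intro z hz hz1
    obtain ⟨e1, e2, e3⟩ := emp _ hz1
    by_cases h1 : z = v
    · subst h1
      by_cases h2 : (b.put y a false).col (z + 1) = 0
      · right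
        rcases hn with hn | hn | hn
        · rw [c1 _ e2] at hn
          exact absurd e3 hn
        · exact absurd h2 hn
        · refine ⟨hz, o2v, hz1, ?_, ?_, ?_⟩
          · rw [c2 _ (by omega)]; exact h2
          · rw [c2 _ (by omega)]; exact hn.1
          · rw [c2 _ (by omega)]; exact hn.2
      · left
        rw [c2 _ (by omega), c2v]
        exact ⟨h2, fr _ (by omega) h2 (by omega) (by omega)⟩
    by_cases h2 : z = y
    · subst h2
      by_cases h3 : v = z + 1
      · left
        rw [← h3, c2v, c2 _ h1, c1y]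
        refine ⟨hκ.1, ?_⟩
        have := fr z h1 (by rw [c1y]; exact ha) (by omega) (by omega)
        rw [c1y] at this
        exact fun h => this h.symm
      · left
        rw [c2o _ (by omega) (by omega), c2 _ h1, c1y]
        refine ⟨?_, ?_⟩
        · intro h
          rcases hiso e3 h with h4 | h4
          · exact e1 h4.symm
          · exact h3 h4
        · intro h
          exact e1 (hdL h e3).symm
    rw [c2o z h1 h2] at hz
    rcases hs.finL z hz e3 with ⟨f1, f2⟩ | hM
    · left
      have h3 : z + 1 ≠ v := by intro h; rw [h] at f1; exact f1 hv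
      have h4 : z + 1 ≠ y := by intro h; rw [h] at f1; exact f1 hy
      rw [c2o _ h3 h4, c2o z h1 h2]
      exact ⟨f1, f2⟩
    · by_cases h3 : z + 1 = v
      · left
        rw [h3, c2v, c2 _ h1]
        refine ⟨hκ.1, ?_⟩
        have := fr z h1 (by rw [c1 _ h2]; exact hz) (by omega) (by omega)
        exact fun h => this h.symm
      by_cases h4 : z + 1 = y
      · left
        rw [c2 _ h3, h4, c1y, c2o z h1 h2]
        refine ⟨ha, ?_⟩
        intro h
        have hz' : z = y - 1 := by omega
        rw [hz'] at hM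
        have := hhL hM (by rw [← hz']; exact h.symm)
        omega
      right
      exact keepMid z h1 h2 hM e1 e2 h3 h4

end MP583455
end

section

namespace MP583455

open Classical

/-- In a safe position any fresh stone with a coloured neighbour (or in the middle of a gap of
length 3) is safe.  PROOF: directly; new violations involving `v` are excluded by freshness
(`near_of_vis`, `near_of_close`); a middle stone `z` with `z ± 1 = v` becomes a normal gap end
with `v` of another colour; a stone `z` whose `Mid` status is not touched stays `Mid`. -/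
theorem safeR_free {b1 : Bd} (hs : Safe b1) {v : ℤ} (hv : b1.col v = 0)
    (hn : b1.col (v - 1) ≠ 0 ∨ b1.col (v + 1) ≠ 0 ∨ (b1.col (v - 2) ≠ 0 ∧ b1.col (v + 2) ≠ 0)) :
    SafeR b1 v := by
  intro κ hκ
  have c2v : (b1.put v κ true).col v = κ := by simp
  have c2 : ∀ z, z ≠ v → (b1.put v κ true).col z = b1.col z := fun z hz => by simp [hz]
  have o2v : (b1.put v κ true).own v = true := by simp
  have o2 : ∀ z, z ≠ v → (b1.put v κ true).own z = b1.own z := fun z hz => by simp [hz]
  have emp : ∀ z, (b1.put v κ true).col z = 0 → z ≠ v ∧ b1.col z = 0 := by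
    intro z hz
    have h1 : z ≠ v := by rintro rfl; exact hκ.1 (by rw [← c2v, hz])
    exact ⟨h1, by rw [← c2 z h1]; exact hz⟩
  have fr : ∀ w, b1.col w ≠ 0 → w - v ≤ 2 → v - w ≤ 2 → b1.col w ≠ κ := fun w h1 h2 h3 =>
    hκ.2 w h1 (near_of_close (by omega) (by omega))
  have keepMid : ∀ z, z ≠ v → Mid b1 z → z - 1 ≠ v → z + 1 ≠ v → Mid (b1.put v κ true) z := by
    intro z h1 hM h3 h5
    obtain ⟨m1, m2, m3, m4, m5, m6⟩ := hM
    have h7 : z - 2 ≠ v := by intro h; rw [h] at m5; exact m5 hv
    have h9 : z + 2 ≠ v := by intro h; rw [h] at m6; exact m6 hv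
    exact ⟨by rw [c2 z h1]; exact m1, by rw [o2 z h1]; exact m2,
      by rw [c2 _ h3]; exact m3, by rw [c2 _ h5]; exact m4,
      by rw [c2 _ h7]; exact m5, by rw [c2 _ h9]; exact m6⟩
  refine ⟨?_, ?_, ?_⟩
  · intro l r hlr hl heq hpar hb
    by_cases h1 : l = v
    · subst h1
      have hr1 : r ≠ l := by omega
      rw [c2v, c2 r hr1] at heq
      have hr0 : b1.col r ≠ 0 := by rw [← heq]; exact hκ.1
      refine hκ.2 r hr0 (near_of_vis ?_) heq.symm
      intro z hz1 hz2
      exact (emp z (hb z (by omega) (by omega))).2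
    by_cases h2 : r = v
    · subst h2
      rw [c2v, c2 l h1] at heq
      have hl0 : b1.col l ≠ 0 := by rw [heq]; exact hκ.1
      refine hκ.2 l hl0 (near_of_vis ?_) heq
      intro z hz1 hz2
      exact (emp z (hb z (by omega) (by omega))).2
    rw [c2 l h1] at hl heq
    rw [c2 r h2] at heq
    exact hs.par l r hlr hl heq hpar (fun z hz1 hz2 => (emp z (hb z hz1 hz2)).2)
  · intro z hz hz1
    obtain ⟨e1, e3⟩ := emp _ hz1
    by_cases h1 : z = v
    · subst h1
      by_cases h2 : b1.col (z - 1) = 0
      · right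
        rcases hn with hn | hn | hn
        · exact absurd h2 hn
        · exact absurd e3 hn
        · refine ⟨hz, o2v, ?_, hz1, ?_, ?_⟩
          · rw [c2 _ (by omega)]; exact h2
          · rw [c2 _ (by omega)]; exact hn.1
          · rw [c2 _ (by omega)]; exact hn.2
      · left
        rw [c2 _ (by omega), c2v]
        exact ⟨h2, fr _ h2 (by omega) (by omega)⟩
    rw [c2 z h1] at hz
    rcases hs.finR z hz e3 with ⟨f1, f2⟩ | hM
    · left
      have h3 : z - 1 ≠ v := by intro h; rw [h] at f1; exact f1 hv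
      rw [c2 _ h3, c2 z h1]
      exact ⟨f1, f2⟩
    · by_cases h3 : z - 1 = v
      · left
        rw [h3, c2v, c2 _ h1]
        refine ⟨hκ.1, ?_⟩
        have := fr z hz (by omega) (by omega)
        exact fun h => this h.symm
      right
      exact keepMid z h1 hM h3 e1
  · intro z hz hz1
    obtain ⟨e1, e3⟩ := emp _ hz1
    by_cases h1 : z = v
    · subst h1
      by_cases h2 : b1.col (z + 1) = 0
      · right
        rcases hn with hn | hn | hn
        · exact absurd e3 hn
        · exact absurd h2 hn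
        · refine ⟨hz, o2v, hz1, ?_, ?_, ?_⟩
          · rw [c2 _ (by omega)]; exact h2
          · rw [c2 _ (by omega)]; exact hn.1
          · rw [c2 _ (by omega)]; exact hn.2
      · left
        rw [c2 _ (by omega), c2v]
        exact ⟨h2, fr _ h2 (by omega) (by omega)⟩
    rw [c2 z h1] at hz
    rcases hs.finL z hz e3 with ⟨f1, f2⟩ | hM
    · left
      have h3 : z + 1 ≠ v := by intro h; rw [h] at f1; exact f1 hv
      rw [c2 _ h3, c2 z h1]
      exact ⟨f1, f2⟩
    · by_cases h3 : z + 1 = v
      · left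
        rw [h3, c2v, c2 _ h1]
        refine ⟨hκ.1, ?_⟩
        have := fr z hz (by omega) (by omega)
        exact fun h => this h.symm
      right
      exact keepMid z h1 hM e1 h3

/-- `y` isolated, no equal colour visible on the left at even distance: reply `y+1` is safe.
PROOF: `safeR_of` with `v = y+1`. For `hpR`: `e - y` even and positive gives `y+1 < e`.
`hpL` by `hL`; `hdR, hdL, hhR, hhL` : `a ≠ 0` but the neighbours are empty. -/
theorem safeR_isoR {b : Bd} (hs : Safe b) {y : ℤ} {a : ℕ} (hy : b.col y = 0) (ha : a ≠ 0)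
    (h1 : b.col (y - 1) = 0) (h2 : b.col (y + 1) = 0)
    (hL : ∀ e, e < y → b.col e = a → (y - e) % 2 = 0 →
      (∀ z, e < z → z < y → b.col z = 0) → False) :
    SafeR (b.put y a false) (y + 1) := by
  refine safeR_of hs hy ha h2 (by omega) (Or.inl (by simp; exact ha)) ?_ ?_ ?_ ?_ ?_ ?_ ?_
  · intro e h3 _ h4 _; omega
  · intro e h3 h4 h5 h6; exact absurd (hL e h3 h4 h5 h6) (by simp)
  · intro _ _; right; rfl
  · intro _ _; rfl
  · intro h3 _; rw [h2] at h3; exact absurd h3.symm ha
  · intro _ h3; rw [h2] at h3; exact absurd h3.symm ha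
  · intro _ h3; rw [h1] at h3; exact absurd h3.symm ha

theorem safeR_isoL {b : Bd} (hs : Safe b) {y : ℤ} {a : ℕ} (hy : b.col y = 0) (ha : a ≠ 0)
    (h1 : b.col (y - 1) = 0) (h2 : b.col (y + 1) = 0)
    (hR : ∀ e, y < e → b.col e = a → (e - y) % 2 = 0 →
      (∀ z, y < z → z < e → b.col z = 0) → False) :
    SafeR (b.put y a false) (y - 1) := by
  refine safeR_of hs hy ha h1 (by omega) (Or.inr (Or.inl (by simp; exact ha))) ?_ ?_ ?_ ?_ ?_ ?_ ?_
  · intro e h3 h4 h5 h6; exact absurd (hR e h3 h4 h5 h6) (by simp)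
  · intro e h3 _ h4 _; omega
  · intro _ _; left; rfl
  · intro h3 _; rw [h1] at h3; exact absurd h3.symm ha
  · intro _ _; rfl
  · intro _ h3; rw [h2] at h3; exact absurd h3.symm ha
  · intro _ h3; rw [h1] at h3; exact absurd h3.symm ha

/-- `y-1` coloured, `y+1` empty: the reply `y+1` is safe.
PROOF: `safeR_of` with `v = y+1`.  `hpL`: `e < y` even distance and all between empty, but `y-1`
is coloured: `e = y-1` has odd distance, `e < y-1` contradicts emptiness.  `hiso`, `hdL`: `y-1`
is coloured.  `hhR`: `y+1` is empty.  `hhL`: `Mid b (y-1)` requires `b.col (y-1+2) ≠ 0`. -/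
theorem safeR_adjR {b : Bd} (hs : Safe b) {y : ℤ} {a : ℕ} (hy : b.col y = 0) (ha : a ≠ 0)
    (h1 : b.col (y - 1) ≠ 0) (h2 : b.col (y + 1) = 0) :
    SafeR (b.put y a false) (y + 1) := by
  refine safeR_of hs hy ha h2 (by omega) (Or.inl (by simp; exact ha)) ?_ ?_ ?_ ?_ ?_ ?_ ?_
  · intro e h3 _ h4 _; omega
  · intro e h3 h4 h5 h6
    exact absurd (h6 (y - 1) (by omega) (by omega)) h1
  · intro h3 _; exact absurd h3 h1
  · intro _ _; rfl
  · intro h3 _; rw [h2] at h3; exact absurd h3.symm ha
  · intro _ h3; rw [h2] at h3; exact absurd h3.symm ha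
  · intro h3 _
    have := h3.2.2.2.2.2
    rw [show y - 1 + 2 = y + 1 by ring] at this
    exact absurd h2 this

theorem safeR_adjL {b : Bd} (hs : Safe b) {y : ℤ} {a : ℕ} (hy : b.col y = 0) (ha : a ≠ 0)
    (h1 : b.col (y + 1) ≠ 0) (h2 : b.col (y - 1) = 0) :
    SafeR (b.put y a false) (y - 1) := by
  refine safeR_of hs hy ha h2 (by omega) (Or.inr (Or.inl (by simp; exact ha))) ?_ ?_ ?_ ?_ ?_ ?_ ?_
  · intro e h3 h4 h5 h6
    exact absurd (h6 (y + 1) (by omega) (by omega)) h1
  · intro e h3 _ h4 _; omega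
  · intro _ h3; exact absurd h3 h1
  · intro h3 _; rw [h2] at h3; exact absurd h3.symm ha
  · intro _ _; rfl
  · intro h3 _
    have := h3.2.2.2.2.1
    rw [show y + 1 - 2 = y - 1 by ring] at this
    exact absurd h2 this
  · intro _ h3; rw [h2] at h3; exact absurd h3.symm ha

end MP583455
end

section

namespace MP583455

open Classical

/-- direct form: if none of the reasons holds, the position after Alice's stone is safe -/
private theorem A3_safe {b : Bd} (hs : Safe b) {y : ℤ} {a : ℕ} (hy : b.col y = 0) (ha : a ≠ 0)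
    (h1 : ∀ e, e ≠ y → b.col e = a → (e - y) % 2 = 0 → Vis b y e → False)
    (hR : b.col (y + 1) = 0 → b.col (y - 1) ≠ 0 ∧ b.col (y - 1) ≠ a)
    (hL : b.col (y - 1) = 0 → b.col (y + 1) ≠ 0 ∧ b.col (y + 1) ≠ a)
    (hmR : Mid b (y + 1) → b.col (y + 1) ≠ a) (hmL : Mid b (y - 1) → b.col (y - 1) ≠ a) :
    Safe (b.put y a false) := by
  have c1y : (b.put y a false).col y = a := by simp
  have c1 : ∀ z, z ≠ y → (b.put y a false).col z = b.col z := fun z hz => by simp [hz]
  have o1 : ∀ z, z ≠ y → (b.put y a false).own z = b.own z := fun z hz => by simp [hz]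
  have emp : ∀ z, (b.put y a false).col z = 0 → z ≠ y ∧ b.col z = 0 := by
    intro z hz
    have h1 : z ≠ y := by rintro rfl; exact ha (by rw [← c1y, hz])
    exact ⟨h1, by rw [← c1 z h1]; exact hz⟩
  have keepMid : ∀ z, z ≠ y → Mid b z → z - 1 ≠ y → z + 1 ≠ y → Mid (b.put y a false) z := by
    intro z h1 hM h3 h5
    obtain ⟨m1, m2, m3, m4, m5, m6⟩ := hM
    have h7 : z - 2 ≠ y := by intro h; rw [h] at m5; exact m5 hy
    have h9 : z + 2 ≠ y := by intro h; rw [h] at m6; exact m6 hy
    exact ⟨by rw [c1 z h1]; exact m1, by rw [o1 z h1]; exact m2,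
      by rw [c1 _ h3]; exact m3, by rw [c1 _ h5]; exact m4,
      by rw [c1 _ h7]; exact m5, by rw [c1 _ h9]; exact m6⟩
  refine ⟨?_, ?_, ?_⟩
  · intro l r hlr hl heq hpar hb
    by_cases k1 : l = y
    · subst k1
      rw [c1y, c1 r (by omega)] at heq
      refine h1 r (by omega) heq.symm hpar ?_
      intro z hz1 hz2
      exact (emp z (hb z (by omega) (by omega))).2
    by_cases k2 : r = y
    · subst k2
      rw [c1y, c1 l (by omega)] at heq
      refine h1 l k1 heq (by omega) ?_
      intro z hz1 hz2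
      exact (emp z (hb z (by omega) (by omega))).2
    rw [c1 l k1] at hl heq
    rw [c1 r k2] at heq
    exact hs.par l r hlr hl heq hpar (fun z hz1 hz2 => (emp z (hb z hz1 hz2)).2)
  · intro z hz hz1
    obtain ⟨e1, e3⟩ := emp _ hz1
    by_cases k1 : z = y
    · subst k1
      left
      rw [c1 _ (by omega), c1y]
      exact hR e3
    rw [c1 z k1] at hz
    rcases hs.finR z hz e3 with ⟨f1, f2⟩ | hM
    · left
      have h3 : z - 1 ≠ y := by intro h; rw [h] at f1; exact f1 hy
      rw [c1 _ h3, c1 z k1]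
      exact ⟨f1, f2⟩
    · by_cases h3 : z - 1 = y
      · left
        rw [h3, c1y, c1 _ k1]
        refine ⟨ha, ?_⟩
        have hz' : z = y + 1 := by omega
        rw [hz'] at hM ⊢
        exact fun h => hmR hM h.symm
      right
      exact keepMid z k1 hM h3 e1
  · intro z hz hz1
    obtain ⟨e1, e3⟩ := emp _ hz1
    by_cases k1 : z = y
    · subst k1
      left
      rw [c1 _ (by omega), c1y]
      exact hL e3
    rw [c1 z k1] at hz
    rcases hs.finL z hz e3 with ⟨f1, f2⟩ | hM
    · left
      have h3 : z + 1 ≠ y := by intro h; rw [h] at f1; exact f1 hy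
      rw [c1 _ h3, c1 z k1]
      exact ⟨f1, f2⟩
    · by_cases h3 : z + 1 = y
      · left
        rw [h3, c1y, c1 _ k1]
        refine ⟨ha, ?_⟩
        have hz' : z = y - 1 := by omega
        rw [hz'] at hM ⊢
        exact fun h => hmL hM h.symm
      right
      exact keepMid z k1 hM e1 h3

/-- Reasons for `b1 = b.put y a false` being unsafe.
PROOF: contrapositive. If none of the four holds then `Safe b1`: `par` with `l = y` or `r = y`
is the first reason (`Vis b y e` uses min/max), `par` for old stones is `hs.par`.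
`finR` at `z = y` (`b.col (y+1) = 0`): `b.col (y-1) ≠ 0` (not isolated) and `≠ a`.
`finR` at old `z`, `z+1` empty in `b1`: first alternative of `hs.finR z` persists; if `Mid b z`:
if `z - 1 = y` then `b1.col (z-1) = a ≠ b.col z` since `b.col (y+1) ≠ a`; else still `Mid b1 z`
(`z+1 ≠ y` since `z+1` is empty in `b1` and `a ≠ 0`). -/
theorem unsafe_class {b : Bd} (hs : Safe b) {y : ℤ} {a : ℕ} (hy : b.col y = 0) (ha : a ≠ 0)
    (hu : ¬ Safe (b.put y a false)) :
    (∃ e, e ≠ y ∧ b.col e = a ∧ (e - y) % 2 = 0 ∧ Vis b y e) ∨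
    (b.col (y - 1) = 0 ∧ b.col (y + 1) = 0) ∨ b.col (y - 1) = a ∨ b.col (y + 1) = a := by
  by_contra hcon
  push Not at hcon
  obtain ⟨k1, k2, k3, k4⟩ := hcon
  apply hu
  refine A3_safe hs hy ha (fun e h1 h2 h3 h4 => k1 e h1 h2 h3 h4) ?_ ?_ (fun _ => k4) (fun _ => k3)
  · intro h
    exact ⟨fun h' => k2 h' h, k3⟩
  · intro h
    exact ⟨k2 h, k4⟩

/-- An unsafe position has a safe reply next to `y` (or the other hole of a middle stone).
PROOF. Cases:
* both neighbours of `y` empty. Not both sides can show an equal colour at even distance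
  (`e < y < e'` would be a `par` violation of `b`). If no such `e` on the left use `safeR_isoR`,
  otherwise `safeR_isoL` works.
* `y-1` coloured, `y+1` empty: `safeR_adjR`. `y+1` coloured, `y-1` empty: `safeR_adjL`.
* both neighbours coloured: by `unsafe_class`-type analysis the only possible violation is a
  middle stone of colour `a`: if `Mid b (y+1) ∧ b.col (y+1) = a` then `v = y+2` works by
  `safeR_of` (`b.col (y+2) = 0` by `Mid`; `hpR, hpL` vacuous since the neighbours are coloured;
  `hhL`: if also `b.col (y-1) = a` then `b` would violate `par` with `l = y-1`, `r = y+1`).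
  Symmetric for `Mid b (y-1)`.  If neither, then `b1` is safe: prove `Safe b1` directly as in
  `unsafe_class`. -/
theorem unsafe_reply {b : Bd} (hs : Safe b) {y : ℤ} {a : ℕ} (hy : b.col y = 0) (ha : a ≠ 0)
    (hu : ¬ Safe (b.put y a false)) :
    ∃ v, b.col v = 0 ∧ v ≠ y ∧ SafeR (b.put y a false) v ∧
      (v = y + 1 ∨ v = y - 1 ∨ (v = y + 2 ∧ Mid b (y + 1)) ∨ (v = y - 2 ∧ Mid b (y - 1))) := by
  by_cases hr : b.col (y + 1) = 0
  · by_cases hl : b.col (y - 1) = 0
    · by_cases hL : ∃ e, e < y ∧ b.col e = a ∧ (y - e) % 2 = 0 ∧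
          (∀ z, e < z → z < y → b.col z = 0)
      · obtain ⟨e, e1, e2, e3, e4⟩ := hL
        refine ⟨y - 1, hl, by omega, safeR_isoL hs hy ha hl hr ?_, Or.inr (Or.inl rfl)⟩
        intro e' f1 f2 f3 f4
        refine hs.par e e' (by omega) (by rw [e2]; exact ha) (by rw [e2, f2]) (by omega) ?_
        intro z hz1 hz2
        rcases lt_trichotomy z y with h | h | h
        · exact e4 z hz1 h
        · rw [h]; exact hy
        · exact f4 z h hz2
      · refine ⟨y + 1, hr, by omega, safeR_isoR hs hy ha hl hr ?_, Or.inl rfl⟩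
        intro e f1 f2 f3 f4
        exact hL ⟨e, f1, f2, f3, f4⟩
    · exact ⟨y + 1, hr, by omega, safeR_adjR hs hy ha hl hr, Or.inl rfl⟩
  · by_cases hl : b.col (y - 1) = 0
    · exact ⟨y - 1, hl, by omega, safeR_adjL hs hy ha hr hl, Or.inr (Or.inl rfl)⟩
    · have nopar : b.col (y - 1) = a → b.col (y + 1) = a → False := by
        intro h1 h2
        refine hs.par (y - 1) (y + 1) (by omega) hl (by rw [h1, h2]) (by omega) ?_
        intro z hz1 hz2
        have : z = y := by omega
        rw [this]; exact hy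
      by_cases hmR : Mid b (y + 1) ∧ b.col (y + 1) = a
      · have hz : b.col (y + 2) = 0 := by
          have := hmR.1.2.2.2.1
          rwa [show y + 1 + 1 = y + 2 by ring] at this
        refine ⟨y + 2, hz, by omega, ?_, Or.inr (Or.inr (Or.inl ⟨rfl, hmR.1⟩))⟩
        refine safeR_of hs hy ha hz (by omega) (Or.inl ?_) ?_ ?_ ?_ ?_ ?_ ?_ ?_
        · rw [put_col, if_neg (by omega), show y + 2 - 1 = y + 1 by ring]; exact hr
        · intro e h3 h4 h5 h6
          exact absurd (h6 (y + 1) (by omega) (by omega)) hr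
        · intro e h3 h4 h5 h6
          exact absurd (h6 (y - 1) (by omega) (by omega)) hl
        · intro h3 _; exact absurd h3 hl
        · intro _ h3; exact absurd h3 hr
        · intro _ h3; exact absurd h3 hl
        · intro _ _; rfl
        · intro _ h3; exact absurd (nopar h3 hmR.2) (by simp)
      by_cases hmL : Mid b (y - 1) ∧ b.col (y - 1) = a
      · have hz : b.col (y - 2) = 0 := by
          have := hmL.1.2.2.1
          rwa [show y - 1 - 1 = y - 2 by ring] at this
        refine ⟨y - 2, hz, by omega, ?_, Or.inr (Or.inr (Or.inr ⟨rfl, hmL.1⟩))⟩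
        refine safeR_of hs hy ha hz (by omega) (Or.inr (Or.inl ?_)) ?_ ?_ ?_ ?_ ?_ ?_ ?_
        · rw [put_col, if_neg (by omega), show y - 2 + 1 = y - 1 by ring]; exact hl
        · intro e h3 h4 h5 h6
          exact absurd (h6 (y + 1) (by omega) (by omega)) hr
        · intro e h3 h4 h5 h6
          exact absurd (h6 (y - 1) (by omega) (by omega)) hl
        · intro h3 _; exact absurd h3 hl
        · intro _ h3; exact absurd h3 hr
        · intro _ h3; exact absurd h3 hl
        · intro _ h3; exact absurd (nopar hmL.2 h3) (by simp)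
        · intro _ _; rfl
      exfalso
      apply hu
      refine A3_safe hs hy ha ?_ (fun h => absurd h hr) (fun h => absurd h hl)
        (fun h1 h2 => hmR ⟨h1, h2⟩) (fun h1 h2 => hmL ⟨h1, h2⟩)
      intro e h1 h2 h3 h4
      rcases lt_or_gt_of_ne h1 with h5 | h5
      · exact hl (h4 (y - 1) (by omega) (by omega))
      · exact hr (h4 (y + 1) (by omega) (by omega))

end MP583455
end

section

namespace MP583455

open Classical

/-- Alice cannot complete three equal consecutive stones from a safe position.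
PROOF: let `z, z+1, z+2` be equal in `b1`. If `y` is none of them use `ht`. If `y = z`: the
stone `z+1` has the empty left neighbour `y` in `b`; `hs.finL (z+1)` : `b.col (z+2) ≠ b.col (z+1)`
contradiction, or `Mid b (z+1)` requires `b.col (z+2) = 0` contradiction.  `y = z+2` symmetric
(`finR`).  If `y = z+1`: `hs.par z (z+2)`. -/
theorem notri_put {b : Bd} (hs : Safe b) (ht : NoTri b) {y : ℤ} {a : ℕ} (hy : b.col y = 0)
    (ha : a ≠ 0) : NoTri (b.put y a false) := by
  have c1y : (b.put y a false).col y = a := by simp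
  have c1 : ∀ z, z ≠ y → (b.put y a false).col z = b.col z := fun z hz => by simp [hz]
  intro z h0 h1 h2
  by_cases k0 : z = y
  · subst k0
    rw [c1y, c1 _ (by omega)] at h1
    rw [c1 _ (by omega), c1 _ (by omega)] at h2
    rcases hs.finL (z + 1) (by rw [← h1]; exact ha) (by rw [show z + 1 - 1 = z by ring]; exact hy)
      with ⟨f1, f2⟩ | hM
    · rw [show z + 1 + 1 = z + 2 by ring] at f2
      exact f2 h2.symm
    · have := hM.2.2.2.1
      rw [show z + 1 + 1 = z + 2 by ring, ← h2, ← h1] at this
      exact ha this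
  by_cases k1 : z + 1 = y
  · rw [k1, c1y, c1 _ k0] at h1
    rw [k1, c1y, c1 _ (by omega)] at h2
    refine hs.par z (z + 2) (by omega) (by rw [h1]; exact ha) (by rw [h1, h2]) (by omega) ?_
    intro w hw1 hw2
    have : w = y := by omega
    rw [this]; exact hy
  by_cases k2 : z + 2 = y
  · rw [c1 _ k0, c1 _ k1] at h1
    rw [k2, c1y, c1 _ k1] at h2
    rcases hs.finR (z + 1) (by rw [h2]; exact ha) (by rw [show z + 1 + 1 = y by omega]; exact hy)
      with ⟨f1, f2⟩ | hM
    · rw [show z + 1 - 1 = z by ring] at f2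
      exact f2 h1
    · have := hM.2.2.1
      rw [show z + 1 - 1 = z by ring, h1, h2] at this
      exact ha this
  · rw [c1 _ k0] at h0
    rw [c1 _ k0, c1 _ k1] at h1
    rw [c1 _ k1, c1 _ k2] at h2
    exact ht z h0 h1 h2

/-- A fresh stone of Bob does not complete three equal stones (neighbouring stones are near). -/
theorem notri_put2 {b1 : Bd} (ht : NoTri b1) {v : ℤ} {κ : ℕ} (hv : b1.col v = 0)
    (hf : Fr b1 v κ) : NoTri (b1.put v κ true) := by
  have _hv := hv
  have c1y : (b1.put v κ true).col v = κ := by simp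
  have c1 : ∀ z, z ≠ v → (b1.put v κ true).col z = b1.col z := fun z hz => by simp [hz]
  have fr : ∀ w, b1.col w = κ → w - v ≤ 2 → v - w ≤ 2 → False := fun w h1 h2 h3 =>
    hf.2 w (by rw [h1]; exact hf.1) (near_of_close (by omega) (by omega)) h1
  intro z h0 h1 h2
  by_cases k0 : z = v
  · subst k0
    rw [c1y, c1 _ (by omega)] at h1
    exact fr _ h1.symm (by omega) (by omega)
  by_cases k1 : z + 1 = v
  · rw [k1, c1y, c1 _ k0] at h1
    exact fr _ h1 (by omega) (by omega)
  by_cases k2 : z + 2 = v
  · rw [k2, c1y, c1 _ k1] at h2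
    exact fr _ h2 (by omega) (by omega)
  · rw [c1 _ k0] at h0
    rw [c1 _ k0, c1 _ k1] at h1
    rw [c1 _ k1, c1 _ k2] at h2
    exact ht z h0 h1 h2

end MP583455
end

section

namespace MP583455

open Classical

variable {s : St} {y : ℤ} {a : ℕ} {ov : Option (ℤ × ℕ)} {τ : Tag} {rg' : ℤ → ℤ}

theorem p_notri (hC : Core s) (hG : Good s y a ov τ rg') : NoTri (bd2 s.b y a ov) := by
  have h1 := notri_put hC.safe hC.notri hG.hy hG.ha
  cases h : ov with
  | none => exact h1
  | some p =>
    obtain ⟨v, κ⟩ := p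
    have h2 := hG.rep v κ h
    exact notri_put2 h1 h2.1 h2.2

/-- new stones get the times `now` (Alice) and `now+1` (Bob). -/
theorem p_time (hC : Core s) (hG : Good s y a ov τ rg') : ITime (s.ex y a ov τ rg') := by
  obtain ⟨t1, t2, t3, t4⟩ := hC.time
  simp only [ITime, ex_b, ex_tm, ex_now, ex_mt]
  have hcls : ∀ z, (bd2 s.b y a ov).col z ≠ 0 →
      (z = y ∧ tm2 s.tm s.now y ov z = s.now) ∨
      ((∃ κ, ov = some (z, κ)) ∧ tm2 s.tm s.now y ov z = s.now + 1) ∨
      (s.b.col z ≠ 0 ∧ tm2 s.tm s.now y ov z = s.tm z ∧ s.tm z < s.now) := by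
    intro z hz
    rcases col_cases hz with h1 | ⟨κ, h1⟩ | h1
    · left
      refine ⟨h1, ?_⟩
      rw [h1]; exact hG.tm_y
    · right; left
      exact ⟨⟨κ, h1⟩, tm_v h1⟩
    · right; right
      exact ⟨h1, hG.tm_old h1, t2 z h1⟩
  refine ⟨by omega, ?_, ?_, ?_⟩
  · intro z hz
    rcases hcls z hz with ⟨_, h⟩ | ⟨_, h⟩ | ⟨_, h, h'⟩ <;> omega
  · intro z w hz hw heq
    rcases hcls z hz with ⟨h1, h⟩ | ⟨⟨κ, h1⟩, h⟩ | ⟨h1, h, h'⟩ <;>
      rcases hcls w hw with ⟨g1, g⟩ | ⟨⟨κ', g1⟩, g⟩ | ⟨g1, g, g'⟩
    · rw [h1, g1]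
    · omega
    · omega
    · omega
    · rw [h1] at g1
      simp only [Option.some.injEq, Prod.mk.injEq] at g1
      exact g1.1
    · omega
    · omega
    · omega
    · exact t3 z w h1 g1 (by omega)
  · intro c
    have := t4 c
    omega

/-- Pairs `(w,q)` in the new state: if `w` is Bob's new stone, `q` is coloured in
`b1 = s.b.put y a false` and near (`near_of_put`, `near_mono`), so its colour is not `κ`.
If `q` is Bob's new stone and `w` is old: same by symmetry (`near_symm`; nearness w.r.t. the new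
board implies nearness w.r.t. `b1`). If `q = y` and `w` old: Alice stone, time `now > tm w`.
Both old: `hC.fresh` with `near_mono`. -/
theorem p_fresh (hC : Core s) (hG : Good s y a ov τ rg') : IFresh (s.ex y a ov τ rg') := by
  intro w q hw hqw hcol hnear
  simp only [ex_b, ex_tm] at *
  have hw0 : (bd2 s.b y a ov).col w ≠ 0 := hw.1
  have hq0 : (bd2 s.b y a ov).col q ≠ 0 := by rw [hcol]; exact hw0
  have hold : Near s.b w q := near_mono (fun z hz => hG.col_ne hz) hnear
  have hb1 : ∀ z, (s.b.put y a false).col z ≠ 0 → (bd2 s.b y a ov).col z ≠ 0 := by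
    intro z hz
    by_cases hzy : z = y
    · rw [hzy, hG.col_y]; exact hG.ha
    · apply hG.col_ne
      simpa [hzy] using hz
  have hnb1 : Near (s.b.put y a false) w q := near_mono hb1 hnear
  have key : ∀ v κ, ov = some (v, κ) → ∀ z, z ≠ v → Near (s.b.put y a false) v z →
      (bd2 s.b y a ov).col z ≠ 0 → (bd2 s.b y a ov).col z ≠ κ := by
    intro v κ h z hzv hn hz
    have h2 := (hG.rep v κ h).2
    have h3 : (bd2 s.b y a ov).col z = (s.b.put y a false).col z := by
      rw [h]; simp [hzv]
    rw [h3] at hz ⊢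
    exact h2.2 z hz hn
  rcases hG.stB_cases hw with ⟨κ, h1⟩ | h1
  · exfalso
    have := key w κ h1 q hqw hnb1 hq0
    rw [hcol, col_v h1] at this
    exact this rfl
  · rcases col_cases hq0 with h2 | ⟨κ, h2⟩ | h2
    · subst h2
      refine ⟨hG.own_y, ?_⟩
      rw [hG.tm_y, hG.tm_old h1.1]
      exact hC.time.2.1 w h1.1
    · exfalso
      have := key q κ h2 w (fun h => hqw h.symm) (near_symm hnb1) hw0
      rw [← hcol, col_v h2] at this
      exact this rfl
    · rw [hG.own_old h2, hG.tm_old h2, hG.tm_old h1.1]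
      rw [hG.col_old h2, hG.col_old h1.1] at hcol
      exact hC.fresh w q h1 hqw hcol hold

end MP583455
end
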