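import Pool.Agent.Lib.MP_583455_co.Mg.G011
import Pool.Agent.Lib.MP_583455_co.X0b

section

namespace MP583455

open Classical

/-- MAIN `xb` ARGUMENT: an unanswered copy has another copy in the window. -/
theorem xb_main {s : St} (hC : Core s) {y : ℤ} {a : ℕ} (hy : s.b.col y = 0) (ha : a ≠ 0)
    (hnk : ∀ c k, ¬ KillOK s y a c k) (hnF : ∀ c, ¬ FEv s y a c)
    (hu : ¬ Safe (s.b.put y a false))
    {c : ℤ} (h0 : Hot0 s c) (hz : ¬ Zone c y) (hW : InW c y) (hw : stB s.b (2 * c - y))
    (hwa : s.b.col (2 * c - y) = a) (hmt : s.mt c ≤ s.tm (2 * c - y)) :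
    ∃ q, InW c q ∧ q ≠ y ∧ stA s.b q ∧ s.b.col q = a := by
  have hsafe : Safe s.b := hC.safe
  obtain ⟨hW1, hW2⟩ := hW
  have hz1 : 204 ≤ (y - c).natAbs := by
    by_contra h
    exact hz (Or.inl (by omega))
  have hz2 : (y - c).natAbs ≤ 9999796 := by
    by_contra h
    exact hz (Or.inr ⟨by omega, by omega⟩)
  -- a coloured cell of colour `a` in the window different from the mirror
  have hmk : ∀ q, InW c q → q ≠ 2 * c - y → s.b.col q = a →
      ∃ q, InW c q ∧ q ≠ y ∧ stA s.b q ∧ s.b.col q = a := by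
    intro q hq1 hq2 hq3
    have hq3' : s.b.col q ≠ 0 := by rw [hq3]; exact ha
    refine ⟨q, hq1, ?_, ⟨hq3', ?_⟩, hq3⟩
    · intro h
      rw [h, hy] at hq3
      exact ha hq3.symm
    · obtain ⟨hq4, hq5⟩ := hq1
      exact (hC.fresh (2 * c - y) q hw hq2 (by rw [hq3, hwa])
        (near_of_close (by omega) (by omega))).1
  -- a visible cell of colour `a` at even distance
  have hE : ∀ e, e ≠ y → s.b.col e = a → (e - y) % 2 = 0 → Vis s.b y e →
      ∃ q, InW c q ∧ q ≠ y ∧ stA s.b q ∧ s.b.col q = a := by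
    intro e he1 he2 he3 he4
    by_cases hew : e = 2 * c - y
    · exfalso
      rw [hew] at he4
      exact hnF c ⟨h0, hz, ⟨hW1, hW2⟩, hw, hwa, he4⟩
    · by_cases heW : InW c e
      · exact hmk e heW hew he2
      · exfalso
        have h2 : 2 * c - (2 * c - y) = y := by omega
        have h3 := hC.shield c (2 * c - y) e h0 ⟨by omega, by omega⟩ hw hmt
          (by rw [h2]; exact hy) heW (by rw [he2, hwa]) (by rw [h2]; exact he4)
        rw [h2] at h3
        exact h3 he3
  rcases unsafe_class hsafe hy ha hu with ⟨e, he1, he2, he3, he4⟩ | ⟨h1, h2⟩ | h1 | h1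
  · exact hE e he1 he2 he3 he4
  · -- isolated `y`
    have hnb : s.b.col (2 * c - y - 1) ≠ 0 ∨ s.b.col (2 * c - y + 1) ≠ 0 := by
      by_contra hcon
      have h3 : s.b.col (2 * c - y - 1) = 0 := by
        by_contra h; exact hcon (Or.inl h)
      have h4 : s.b.col (2 * c - y + 1) = 0 := by
        by_contra h; exact hcon (Or.inr h)
      have h5 := hC.iso (2 * c - y) hw h3 h4
      rcases lt_trichotomy c (2 * c - y) with h | h | h
      · have := hC.sep c (2 * c - y) h0.1 h5 h
        omega
      · omega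
      · have := hC.sep (2 * c - y) c h5 h0.1 h
        omega
    rcases hnb with h3 | h3
    · -- `k = y + 1`
      have hk : ¬ SafeR (s.b.put y a false) (y + 1) := by
        intro hsr
        refine hnk c (y + 1) ⟨h0, ⟨hW1, hW2⟩, ⟨⟨by omega, by omega, by omega, ?_, ?_⟩, ?_⟩, hsr⟩
        · rw [put_col, if_neg (by omega)]; exact h2
        · rw [put_col]
          split
          · exact ha
          · rw [show 2 * c - (y + 1) = 2 * c - y - 1 by omega]; exact h3
        · left
          rw [put_col, if_pos (by omega)]; exact ha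
      by_contra hcon
      refine hk (safeR_isoR hsafe hy ha h1 h2 ?_)
      intro e he1 he2 he3 he4
      refine hcon (hE e (by omega) he2 (by omega) ?_)
      intro z hz3 hz4
      rw [min_eq_right (by omega)] at hz3
      rw [max_eq_left (by omega)] at hz4
      exact he4 z hz3 hz4
    · -- `k = y - 1`
      have hk : ¬ SafeR (s.b.put y a false) (y - 1) := by
        intro hsr
        refine hnk c (y - 1) ⟨h0, ⟨hW1, hW2⟩, ⟨⟨by omega, by omega, by omega, ?_, ?_⟩, ?_⟩, hsr⟩
        · rw [put_col, if_neg (by omega)]; exact h1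
        · rw [put_col]
          split
          · exact ha
          · rw [show 2 * c - (y - 1) = 2 * c - y + 1 by omega]; exact h3
        · right
          rw [put_col, if_pos (by omega)]; exact ha
      by_contra hcon
      refine hk (safeR_isoL hsafe hy ha h1 h2 ?_)
      intro e he1 he2 he3 he4
      refine hcon (hE e (by omega) he2 (by omega) ?_)
      intro z hz3 hz4
      rw [min_eq_left (by omega)] at hz3
      rw [max_eq_right (by omega)] at hz4
      exact he4 z hz3 hz4
  · exact hmk (y - 1) ⟨by omega, by omega⟩ (by omega) h1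
  · exact hmk (y + 1) ⟨by omega, by omega⟩ (by omega) h1

end MP583455
end

section

namespace MP583455

open Classical

/-- DEFAULT REPLY. `xb`: if `b1` is safe then `c` is a fix, contradiction to `hnx`
(`y ≠ c` since `y ∉ Zone`); otherwise `xb_main`. `kind`: third alternative. `nbr`: `Conn` gives a
coloured neighbour. -/
theorem good_dflt {s : St} (hC : Core s) {y : ℤ} {a N : ℕ} (hy : s.b.col y = 0) (ha : a ≠ 0)
    (hF : ∀ v, (s.b.put y a false).col v = 0 → ∃ κ, κ ≤ N ∧ Fr (s.b.put y a false) v κ)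
    (hno : ∀ c, HotR s c → ¬ InI s c y) (hnd : ∀ c w, ¬ Demand s y a c w)
    (hnk : ∀ c k, ¬ KillOK s y a c k) (hnF : ∀ c, ¬ FEv s y a c)
    (hnx : ¬ (Safe (s.b.put y a false) ∧ ∃ c, Hot0 s c ∧ InW c y ∧ y ≠ c ∧
      s.b.col (2 * c - y) = a))
    {v : ℤ} (hv : (s.b.put y a false).col v = 0) (hcon : Conn (s.b.put y a false) y v)
    (hd1 : v - y ≤ (200 : ℤ)) (hd2 : y - v ≤ (200 : ℤ)) (hsr : SafeR (s.b.put y a false) v)
    (hreg : ∀ c, HotR s c → ¬ InI s c v) :
    ∃ κ, κ ≤ N ∧ Good s y a (some (v, κ)) Tag.loc s.rg := by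
  obtain ⟨κ, hκ, hfr⟩ := hF _ hv
  refine ⟨κ, hκ, ?_⟩
  refine
    { hy := hy
      ha := ha
      safe := hsr κ hfr
      rep := ?_
      nbr := ?_
      inreg := ?_
      outreg := ?_
      rgs := Or.inl rfl
      tag := ?_
      kind := ?_
      fixpass := ?_
      xb := ?_
      shield := ?_ }
  · rintro v' κ' h
    simp only [Option.some.injEq, Prod.mk.injEq] at h
    obtain ⟨rfl, rfl⟩ := h
    exact ⟨hv, hfr⟩
  · rintro v' κ' h
    simp only [Option.some.injEq, Prod.mk.injEq] at h
    obtain ⟨rfl, rfl⟩ := h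
    obtain ⟨hne, hcl⟩ := hcon
    rcases lt_or_gt_of_ne hne with h | h
    · left
      exact hcl _ (by omega) (by omega) (by omega)
    · right; left
      exact hcl _ (by omega) (by omega) (by omega)
  · intro c' h1 h2
    exact absurd h2 (hno c' h1)
  · rintro c' h1 h2 v' κ' h
    simp only [Option.some.injEq, Prod.mk.injEq] at h
    obtain ⟨rfl, rfl⟩ := h
    exact hreg c' h1
  · exact ⟨v, κ, rfl, hd1, hd2⟩
  · intro c' _ _
    right; right; left
    exact ⟨v, κ, rfl, hd1, hd2, hcon⟩
  · intro h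
    exact absurd h (by simp)
  · intro c' h1 h2 h3 h4 h5 h6
    by_cases hs1 : Safe (s.b.put y a false)
    · exfalso
      refine hnx ⟨hs1, c', h1, h3, ?_, h5⟩
      rintro rfl
      exact h2 (Or.inl (by simp))
    · right; right; right
      exact xb_main hC hy ha hnk hnF hs1 h1 h2 h3 h4 h5 h6
  · intro c' w h1 h2 h3 h4 h5 h6 h7 h8 h9
    exact absurd ⟨h1, h2, h3, h4, h5, h6, h7, h8, h9⟩ (hnd c' w)

end MP583455
end

section

namespace MP583455

open Classical

/-- NO REPLY. `b1` is safe: otherwise `unsafe_reply` + `reply_reg` give a default reply (adjacent, or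
`y ± 2` with coloured `y ± 1`, so `Conn`), contradiction to `hn5`.
Tag: if all cells within `(200 : ℤ)` of `y` are coloured in `b1`: `far`. Otherwise `first_empty` gives
`v` (empty, `Conn`, within `(200 : ℤ)`, safe by `safeR_free`); by `hn5` there is `c1` with `HotR s c1`,
`InI s c1 v`; `y` is not in this region and not an end (the ends are coloured in `s.b`), so an end lies
between `y` and `v`: `NearEnd`, tag `nreg c1`.
`kind`: as in `good_fixp`. `fixpass`, `xb`: contradiction to `hnx` (`b1` is safe). -/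
theorem good_none {s : St} (hC : Core s) {y : ℤ} {a : ℕ} (hy : s.b.col y = 0) (ha : a ≠ 0)
    (hno : ∀ c, HotR s c → ¬ InI s c y) (hnd : ∀ c w, ¬ Demand s y a c w)
    (hnk : ∀ c k, ¬ KillOK s y a c k)
    (hnx : ¬ (Safe (s.b.put y a false) ∧ ∃ c, Hot0 s c ∧ InW c y ∧ y ≠ c ∧
      s.b.col (2 * c - y) = a))
    (hn5 : ∀ v, (s.b.put y a false).col v = 0 → Conn (s.b.put y a false) y v →
      v - y ≤ (200 : ℤ) → y - v ≤ (200 : ℤ) → SafeR (s.b.put y a false) v → ∃ c, HotR s c ∧ InI s c v) :
    ∃ τ, Good s y a none τ s.rg := by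
  have hb1y : (s.b.put y a false).col y ≠ 0 := by simpa using ha
  have hsafe : Safe (s.b.put y a false) := by
    by_contra hu
    obtain ⟨v, hv, hvy, hsr, hcase⟩ := unsafe_reply hC.safe hy ha hu
    have hb1v : (s.b.put y a false).col v = 0 := by
      rw [put_col, if_neg hvy]; exact hv
    have hconn : Conn (s.b.put y a false) y v := by
      refine ⟨fun h => hvy h.symm, ?_⟩
      intro z h1 h2 h3
      by_cases hzy : z = y
      · rw [hzy]; exact hb1y
      · rw [put_col, if_neg hzy]
        rcases hcase with h | h | ⟨h, hm⟩ | ⟨h, hm⟩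
        · exfalso; omega
        · exfalso; omega
        · have : z = y + 1 := by omega
          rw [this]; exact hm.1
        · have : z = y - 1 := by omega
          rw [this]; exact hm.1
    obtain ⟨c, hc, hI⟩ := hn5 v hb1v hconn (by omega) (by omega) hsr
    exact hno c hc ((reply_reg hC hc hy hv hcase).mpr hI)
  have hkill : ∀ c, Hot0 s c → InW c y → ∀ k, ¬ HK (s.b.put y a false) c k := by
    intro c hc hW k hk
    refine hnk c k ⟨hc, hW, hk, safeR_free hsafe hk.1.2.2.2.1 ?_⟩
    rcases hk.2 with h | h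
    · exact Or.inl h
    · exact Or.inr (Or.inl h)
  have hfix : ∀ c, Hot0 s c → InW c y → y ≠ c → s.b.col (2 * c - y) = a → False :=
    fun c h1 h2 h3 h4 => hnx ⟨hsafe, c, h1, h2, h3, h4⟩
  have main : ∀ τ, TagOK s y a none τ → Good s y a none τ s.rg := by
    intro τ hτ
    refine ⟨hy, ha, hsafe, ?_, ?_, ?_, ?_, Or.inl rfl, hτ, ?_, ?_, ?_, ?_⟩
    · intro v κ h; exact absurd h (by simp)
    · intro v κ h; exact absurd h (by simp)
    · intro c hc hI; exact absurd hI (hno c hc)
    · intro c hc hI v κ h; exact absurd h (by simp)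
    · intro c hc hz
      right; right; right
      exact ⟨rfl, fun hW => hkill c hc hW⟩
    · intro _ c hc hW hyc hcol
      exact absurd (hfix c hc hW hyc hcol) id
    · intro c hc hz hW hB hcol _
      refine absurd (hfix c hc hW ?_ hcol) id
      rintro rfl
      exact hz (Or.inl (by simp))
    · intro c w h1 h2 h3 h4 h5 h6 h7 h8 h9
      exact absurd ⟨h1, h2, h3, h4, h5, h6, h7, h8, h9⟩ (hnd c w)
  by_cases hfar : ∀ z, z - y ≤ (200 : ℤ) → y - z ≤ (200 : ℤ) → (s.b.put y a false).col z ≠ 0
  · exact ⟨Tag.far, main _ hfar⟩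
  · push Not at hfar
    obtain ⟨z, hz1, hz2, hz3⟩ := hfar
    obtain ⟨v, hv, hconn, hv1, hv2, hv3, hv4⟩ := first_empty (s.b.put y a false) hb1y hz3
    have hvy : v ≠ y := fun h => hconn.1 h.symm
    have hsr : SafeR (s.b.put y a false) v := by
      apply safeR_free hsafe hv
      rcases lt_or_gt_of_ne hvy with hlt | hgt
      · right; left
        exact hconn.2 (v + 1) (by omega) (by omega) (by omega)
      · left
        exact hconn.2 (v - 1) (by omega) (by omega) (by omega)
    obtain ⟨c, hc, hI⟩ := hn5 v hv hconn (by omega) (by omega) hsr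
    refine ⟨Tag.nreg c, main _ ⟨hc.1, hc.2.2, ?_⟩⟩
    have hny := hno c hc
    unfold InI at hny hI
    unfold NearEnd
    by_cases hle : y ≤ c - s.rg c
    · right; omega
    · left; omega

end MP583455
end
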